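import Pool.Agent.N511.PN.LOC3
import Pool.Agent.N511.LL.B
import Pool.Agent.N511.LL.F1
import Pool.Agent.N511.LL.F2
import Pool.Agent.N511.LL.D0

/-!
# Project PN: every density occurs in every residue class
-/

set_option autoImplicit false

namespace Pool.Agent.N511.PN

open Finset Filter Topology
open Pool.Agent.N511.LL (T PP PR loc B2)

namespace Dn

/-- Chinese remainder theorem -/
theorem crt2 {m p : ℤ} (h : IsCoprime m p) (a u : ℤ) : ∃ c : ℤ, c ≡ a [ZMOD m] ∧ c ≡ u [ZMOD p] := by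
  obtain ⟨x, y, hxy⟩ := h
  refine ⟨a + (u - a) * (x * m), ?_, ?_⟩
  · apply Int.modEq_iff_dvd.2
    exact ⟨-((u - a) * x), by ring⟩
  · apply Int.modEq_iff_dvd.2
    refine ⟨(u - a) * y, ?_⟩
    have : x * m = 1 - y * p := by linarith
    rw [this]
    ring

theorem crtS {q1 : ℕ} {y : ℕ} (hq1 : ∀ p : ℕ, p.Prime → p ∣ q1 → p ≤ y) (c₀ : ℤ) (u : ℕ → ℤ) (S : Finset ℕ)
    (hS : ∀ p ∈ S, p.Prime ∧ y < p) : ∃ c : ℤ, c ≡ c₀ [ZMOD q1] ∧ ∀ p ∈ S, c ≡ u p [ZMOD p] := by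
  classical
  suffices h : ∃ c : ℤ, c ≡ c₀ [ZMOD q1] ∧ c ≡ c₀ [ZMOD q1] ∧ ∀ p ∈ S, c ≡ u p [ZMOD p] by
    obtain ⟨c, h1, -, h2⟩ := h
    exact ⟨c, h1, h2⟩
  induction S using Finset.induction_on with
  | empty => exact ⟨c₀, Int.ModEq.refl _, Int.ModEq.refl _, fun p hp => absurd hp (notMem_empty p)⟩
  | insert p S hp ih =>
    obtain ⟨c, h1, -, h2⟩ := ih fun r hr => hS r (mem_insert_of_mem hr)
    obtain ⟨hpp, hpy⟩ := hS p (mem_insert_self p S)
    have hcop : Nat.Coprime (q1 * ∏ r ∈ S, r) p := by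
      apply Nat.Coprime.mul_left
      · rw [Nat.coprime_comm, hpp.coprime_iff_not_dvd]
        intro h
        have := hq1 p hpp h
        omega
      · apply Nat.Coprime.prod_left
        intro r hr
        have h3 := (hS r (mem_insert_of_mem hr)).1
        rw [Nat.coprime_primes h3 hpp]
        rintro rfl
        exact hp hr
    obtain ⟨c', k1, k2⟩ := crt2 (Nat.isCoprime_iff_coprime.2 hcop) c (u p)
    have k3 : c' ≡ c [ZMOD q1] := k1.of_dvd (by exact_mod_cast dvd_mul_right q1 _)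
    refine ⟨c', k3.trans h1, k3.trans h1, fun r hr => ?_⟩
    rcases mem_insert.1 hr with rfl | hr
    · exact k2
    · have k4 : c' ≡ c [ZMOD r] := k1.of_dvd (by
        exact_mod_cast (dvd_prod_of_mem (fun r : ℕ => r) hr).mul_left q1)
      exact k4.trans (h2 r hr)

/-- a class with a prescribed truncated product -/
theorem exists_class (hF1 : Pool.Agent.N511.LL.F1) (hF2 : Pool.Agent.N511.LL.F2) {d : ℝ} (hd : 0 < d) (y0 : ℕ)
    {c₀ : ℤ} (hc₀ : Odd c₀) {q : ℕ} (hq : 1 ≤ q) {t : ℝ} (ht : 0 < t) :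
    ∃ z : ℕ, y0 ≤ z ∧ q ≤ z ∧ ∃ c₁ : ℤ, Odd c₁ ∧ c₁ ≡ c₀ [ZMOD q] ∧ |T (9 - 4 * c₁) z - t| ≤ d * t := by
  classical
  obtain ⟨y2, hy22, hy2⟩ := hF2 (ι := Unit) d hd
  obtain ⟨p0, hp0⟩ := hF1 (ι := Unit) (fun _ => 0) (Function.injective_of_subsingleton _)
  obtain ⟨y, hy⟩ : ∃ y : ℕ, y = y0 + y2 + p0 + q + 2 := ⟨_, rfl⟩
  have hT0 : 0 < T (9 - 4 * c₀) y := Pool.Agent.N511.LL.D0x.T_pos _ _
  obtain ⟨z, hyz, e, he, hez⟩ := hy2 y (by omega) (fun _ => t / T (9 - 4 * c₀) y) (fun _ => by positivity)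
  have hez := hez ()
  -- the residue classes
  have hu : ∀ p : ℕ, ∃ u : ℤ, p.Prime → y < p → ∀ c : ℤ, c ≡ u [ZMOD p] → jacobiSym (9 - 4 * c) p = e () p := by
    intro p
    by_cases hp : p.Prime ∧ y < p
    · obtain ⟨hpp, hpy⟩ := hp
      obtain ⟨w, hw⟩ := hp0 p (by omega) hpp (fun _ => e () p) (fun _ => he () p)
      have hw := hw ()
      simp only [add_zero] at hw
      have h4 : IsCoprime (4 : ℤ) p := by
        have : Nat.Coprime (2 ^ 2) p := Nat.Coprime.pow_left 2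
          ((Nat.coprime_primes Nat.prime_two hpp).2 (by omega))
        exact_mod_cast Nat.isCoprime_iff_coprime.2 this
      obtain ⟨x, v, hxv⟩ := h4
      refine ⟨x * (9 - w), fun _ _ c hc => ?_⟩
      have h5 : (9 - 4 * c) ≡ 9 - 4 * (x * (9 - w)) [ZMOD p] :=
        (Int.ModEq.refl 9).sub ((Int.ModEq.refl 4).mul hc)
      have h6 : 9 - 4 * (x * (9 - w)) ≡ w [ZMOD p] := by
        apply Int.modEq_iff_dvd.2
        refine ⟨-((9 - w) * v), ?_⟩
        have : x * 4 = 1 - v * p := by linarith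
        calc w - (9 - 4 * (x * (9 - w))) = w - 9 + (x * 4) * (9 - w) := by ring
          _ = p * -((9 - w) * v) := by rw [this]; ring
      have h7 : (9 - 4 * c) % p = w % p := h5.trans h6
      rw [← hw, jacobiSym.mod_left (9 - 4 * c) p, h7, ← jacobiSym.mod_left]
    · exact ⟨0, fun h1 h2 => absurd ⟨h1, h2⟩ hp⟩
  choose u hu using hu
  have hqy : ∀ p : ℕ, p.Prime → (p ∣ q * y.factorial ↔ p ≤ y) := by
    intro p hp
    constructor
    · intro h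
      rcases hp.dvd_mul.1 h with h | h
      · have := Nat.le_of_dvd (by omega) h
        omega
      · exact hp.dvd_factorial.1 h
    · intro h
      exact (hp.dvd_factorial.2 h).mul_left q
  obtain ⟨c₁, hc1, hc2⟩ := crtS (q1 := q * y.factorial) (y := y) (fun p hp h => (hqy p hp).1 h) c₀ u (PR 4 y z) (by
    intro p hp
    unfold PR at hp
    rw [mem_filter, mem_Ioc] at hp
    exact ⟨hp.2.1, hp.1.1⟩)
  refine ⟨z, by omega, by omega, c₁, ?_, hc1.of_dvd (by exact_mod_cast dvd_mul_right q _), ?_⟩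
  · have h2 : c₁ ≡ c₀ [ZMOD 2] := hc1.of_dvd (by exact_mod_cast (hqy 2 Nat.prime_two).2 (by omega))
    have h3 : c₁ % 2 = c₀ % 2 := h2
    obtain ⟨j, hj⟩ := hc₀
    exact Int.odd_iff.2 (by omega)
  · have hPR : PR 4 y z = PR 1 y z := by
      unfold PR
      apply filter_congr
      intro p hp
      rw [mem_Ioc] at hp
      refine and_congr_right fun hpp => ?_
      constructor
      · intro _ h
        exact hpp.one_lt.ne' (Nat.dvd_one.1 h)
      · intro _ h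
        have : p ∣ 2 := (Nat.Prime.dvd_of_dvd_pow hpp (show p ∣ 2 ^ 2 from h))
        have := Nat.le_of_dvd (by omega) this
        omega
    have hT : T (9 - 4 * c₁) z = T (9 - 4 * c₀) y * ∏ p ∈ PR 1 y z, (1 - (e () p : ℝ) / ((p : ℝ) - 1)) := by
      rw [Pool.Agent.N511.LL.I0aux.T_split _ (by omega : 2 ≤ y) hyz, L2.T_congr hqy hc1, hPR]
      congr 1
      refine prod_congr rfl fun p hp => ?_
      have hp' := hp
      rw [← hPR] at hp'
      unfold PR at hp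
      rw [mem_filter, mem_Ioc] at hp
      unfold loc
      rw [hu p hp.2.1 hp.1.1 c₁ (hc2 p hp')]
    rw [hT]
    obtain ⟨X, hX⟩ : ∃ X : ℝ, X = ∏ p ∈ PR 1 y z, (1 - (e () p : ℝ) / ((p : ℝ) - 1)) := ⟨_, rfl⟩
    obtain ⟨T0, hT0e⟩ : ∃ T0 : ℝ, T0 = T (9 - 4 * c₀) y := ⟨_, rfl⟩
    rw [← hX] at hez ⊢
    rw [← hT0e] at hez hT0 ⊢
    have e1 : T0 * X - t = T0 * (X - t / T0) := by field_simp
    rw [e1, abs_mul, abs_of_pos hT0]
    calc T0 * |X - t / T0| ≤ T0 * (d * (t / T0)) := mul_le_mul_of_nonneg_left hez hT0.le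
      _ = d * t := by field_simp

/-- the size of a residue class -/
theorem class_card {σ : ℤ} (hσ : σ = 1 ∨ σ = -1) {q : ℕ} (hq : 1 ≤ q) (c₁ : ℤ) (C : ℕ) :
    C / q ≤ #((Icc 1 C).filter (fun c : ℕ => σ * c ≡ c₁ [ZMOD q])) := by
  classical
  have hqz : (q : ℤ) ≠ 0 := by exact_mod_cast (by omega : q ≠ 0)
  obtain ⟨r, hr⟩ : ∃ r : ℕ, (r : ℤ) = (σ * c₁ - 1) % q :=
    ⟨((σ * c₁ - 1) % q).toNat, Int.toNat_of_nonneg (Int.emod_nonneg _ hqz)⟩
  have hrq : r < q := by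
    have : (r : ℤ) < q := by rw [hr]; exact Int.emod_lt_of_pos _ (by omega)
    exact_mod_cast this
  have hmod : σ * ((r : ℤ) + 1) ≡ c₁ [ZMOD q] := by
    have h1 : (r : ℤ) ≡ σ * c₁ - 1 [ZMOD q] := by
      rw [hr]
      exact Int.mod_modEq _ _
    have h2 : (r : ℤ) + 1 ≡ σ * c₁ [ZMOD q] := by
      have := h1.add (Int.ModEq.refl 1)
      simpa using this
    have h3 := (Int.ModEq.refl σ (n := (q : ℤ))).mul h2
    have e : σ * (σ * c₁) = c₁ := by rcases hσ with rfl | rfl <;> ring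
    rwa [e] at h3
  rw [← card_range (C / q)]
  refine card_le_card_of_injOn (fun i => r + 1 + i * q) ?_ ?_
  · intro i hi
    rw [mem_coe, mem_range] at hi
    rw [mem_coe, mem_filter, mem_Icc]
    show (1 ≤ r + 1 + i * q ∧ r + 1 + i * q ≤ C) ∧ σ * ((r + 1 + i * q : ℕ) : ℤ) ≡ c₁ [ZMOD q]
    refine ⟨⟨by omega, ?_⟩, ?_⟩
    · have h1 : (i + 1) * q ≤ C / q * q := Nat.mul_le_mul_right q (by omega)
      have h2 : C / q * q ≤ C := Nat.div_mul_le_self C q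
      have h3 : (i + 1) * q = i * q + q := by ring
      omega
    · have h4 : σ * ((r + 1 + i * q : ℕ) : ℤ) = σ * ((r : ℤ) + 1) + (q : ℤ) * (σ * i) := by
        push_cast
        ring
      rw [h4]
      have h5 : (q : ℤ) * (σ * i) ≡ 0 [ZMOD q] := Int.modEq_zero_iff_dvd.2 (dvd_mul_right _ _)
      simpa using hmod.add h5
  · intro i _ j _ hij
    simp only at hij
    have : i * q = j * q := by omega
    exact Nat.eq_of_mul_eq_mul_right (by omega) this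

end Dn

open Dn

open Classical in
/-- **every density occurs in every residue class**, with a positive proportion -/
theorem dense_sign (hB : B2) (hF1 : Pool.Agent.N511.LL.F1) (hF2 : Pool.Agent.N511.LL.F2) {σ : ℤ} (hσ : σ = 1 ∨ σ = -1)
    (hS : HS σ) {c₀ : ℤ} (hc₀ : Odd c₀) {q : ℕ} (hq : 1 ≤ q) {α β : ℝ} (hαβ : α < β) (hβ : 0 < β) {ε κ : ℝ}
    (hε : 0 < ε) (hκ : 0 < κ) : ∃ θ : ℝ, 0 < θ ∧ ∃ N0 : ℕ, ∀ N : ℕ, N0 ≤ N → ∀ C : ℕ,
    (N : ℝ) ^ (5 / 6 + ε) ≤ C → C ≤ N →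
      θ * C ≤ #((Icc 1 C).filter (fun c : ℕ => σ * c ≡ c₀ [ZMOD q] ∧ ∀ n : ℕ, κ * N ≤ n → n ≤ N →
        α * Nat.primeCounting n < cz (σ * c) n ∧ (cz (σ * c) n : ℝ) < β * Nat.primeCounting n)) := by
  obtain ⟨A, hA⟩ : ∃ A : ℝ, A = max α 0 := ⟨_, rfl⟩
  have hAα : α ≤ A := by rw [hA]; exact le_max_left _ _
  have hA0 : 0 ≤ A := by rw [hA]; exact le_max_right _ _
  have hAβ : A < β := by rw [hA]; exact max_lt hαβ hβ
  obtain ⟨t, ht⟩ : ∃ t : ℝ, t = (A + β) / 2 := ⟨_, rfl⟩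
  obtain ⟨δ, hδ⟩ : ∃ δ : ℝ, δ = min ((β - A) / 4) (1 / 2) := ⟨_, rfl⟩
  have hδ0 : 0 < δ := by rw [hδ]; exact lt_min (by linarith) (by norm_num)
  have hδ1 : δ ≤ (β - A) / 4 := by rw [hδ]; exact min_le_left _ _
  have hδ2 : δ ≤ 1 / 2 := by rw [hδ]; exact min_le_right _ _
  have ht0 : 0 < t := by rw [ht]; linarith
  obtain ⟨d, hd0, y0, hy02, hloc⟩ := loc_gen hB hσ hS ht0 hε hκ hδ0
  obtain ⟨z, hz0, hzq, c₁, hc1, hcm, hcT⟩ := exists_class hF1 hF2 hd0 y0 hc₀ hq ht0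
  obtain ⟨q2, hq2⟩ : ∃ q2 : ℕ, q2 = q * z.factorial := ⟨_, rfl⟩
  have hq21 : 1 ≤ q2 := by
    rw [hq2]
    exact Nat.mul_pos (by omega) (Nat.factorial_pos z)
  have hq2p : ∀ p : ℕ, p.Prime → (p ∣ q2 ↔ p ≤ z) := by
    intro p hp
    rw [hq2]
    constructor
    · intro h
      rcases hp.dvd_mul.1 h with h | h
      · have := Nat.le_of_dvd (by omega) h
        omega
      · exact hp.dvd_factorial.1 h
    · intro h
      exact (hp.dvd_factorial.2 h).mul_left q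
  obtain ⟨N1, hN1⟩ := hloc z hz0 q2 hq21 hq2p c₁ hc1 hcT
  obtain ⟨N2, hN2⟩ := L2.pnt_unif hκ (by norm_num : (0 : ℝ) < 1) 1
  have hev1 : ∀ᶠ N : ℕ in atTop, 4 * (q2 : ℝ) ≤ (N : ℝ) ^ (5 / 6 + ε) :=
    ((tendsto_rpow_atTop (by positivity)).comp
      (tendsto_natCast_atTop_atTop (R := ℝ))).eventually_ge_atTop _
  obtain ⟨N3, hN3⟩ := eventually_atTop.1 hev1
  have hq2r : (0 : ℝ) < q2 := by exact_mod_cast hq21
  refine ⟨1 / (2 * q2), by positivity, N1 + N2 + N3, fun N hN C hC1 hC2 => ?_⟩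
  have b1 := hN1 N (by omega) C hC1 hC2
  have b3 := (hN3 N (by omega)).trans hC1
  obtain ⟨Bd, hBd⟩ : ∃ S : Finset ℕ, S = (Icc 1 C).filter (fun c : ℕ => σ * c ≡ c₁ [ZMOD q2] ∧
    ¬ ∀ n : ℕ, κ * N ≤ n → n ≤ N → |(cz (σ * c) n : ℝ) - t * Nat.primeCounting n| ≤ δ * Nat.primeCounting n) :=
    ⟨_, rfl⟩
  rw [← hBd] at b1
  obtain ⟨G, hG⟩ : ∃ S : Finset ℕ, S = (Icc 1 C).filter (fun c : ℕ => σ * c ≡ c₀ [ZMOD q] ∧ ∀ n : ℕ, κ * N ≤ n →
    n ≤ N → α * Nat.primeCounting n < cz (σ * c) n ∧ (cz (σ * c) n : ℝ) < β * Nat.primeCounting n) := ⟨_, rfl⟩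
  rw [← hG]
  have hsub : (Icc 1 C).filter (fun c : ℕ => σ * c ≡ c₁ [ZMOD q2]) ⊆ G ∪ Bd := by
    intro c hc
    rw [mem_filter] at hc
    obtain ⟨hcI, hcc⟩ := hc
    rw [mem_union]
    by_cases hbad : ∀ n : ℕ, κ * N ≤ n → n ≤ N →
      |(cz (σ * c) n : ℝ) - t * Nat.primeCounting n| ≤ δ * Nat.primeCounting n
    · left
      rw [hG, mem_filter]
      refine ⟨hcI, ?_, fun n hn1 hn2 => ?_⟩
      · have h1 : σ * c ≡ c₁ [ZMOD q] := hcc.of_dvd (by rw [hq2]; exact_mod_cast dvd_mul_right q _)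
        exact h1.trans hcm
      · have hπ := (hN2 N (by omega) n hn1 hn2).2.1
        have h2 := abs_le.1 (hbad n hn1 hn2)
        obtain ⟨π, hπe⟩ : ∃ π : ℝ, π = Nat.primeCounting n := ⟨_, rfl⟩
        rw [← hπe] at hπ h2 ⊢
        have e1 : δ * π ≤ (β - A) / 4 * π := mul_le_mul_of_nonneg_right hδ1 hπ.le
        have e2 : α * π ≤ A * π := mul_le_mul_of_nonneg_right hAα hπ.le
        have e3 : 0 < (β - A) * π := mul_pos (by linarith) hπ
        have e4 : t * π = (A + β) / 2 * π := by rw [ht]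
        constructor <;> nlinarith
    · right
      rw [hBd, mem_filter]
      exact ⟨hcI, hcc, hbad⟩
  have h1 := (class_card hσ hq21 c₁ C).trans ((card_le_card hsub).trans (card_union_le _ _))
  have h2 : ((C / q2 : ℕ) : ℝ) ≤ #G + #Bd := by exact_mod_cast h1
  have h3 : (C : ℝ) / q2 - 1 ≤ ((C / q2 : ℕ) : ℝ) := by
    have := Nat.sub_one_lt_floor ((C : ℝ) / q2)
    rw [Nat.floor_div_natCast, Nat.floor_natCast] at this
    exact this.le
  obtain ⟨w, hw⟩ : ∃ w : ℝ, w = (C : ℝ) / q2 := ⟨_, rfl⟩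
  have hw4 : 4 ≤ w := by
    rw [hw, le_div_iff₀ hq2r]
    exact b3
  rw [← hw] at b1 h3
  have e1 : 1 / (2 * (q2 : ℝ)) * C = w / 2 := by
    rw [hw]
    field_simp
  rw [e1]
  have e2 : δ / 2 * w ≤ 1 / 4 * w := mul_le_mul_of_nonneg_right (by linarith) (by linarith)
  linarith

end Pool.Agent.N511.PN
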