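import Mathlib

/-!
# Project PN, task NUM: the Euler product modulo 5 and the partial sums
-/

set_option autoImplicit false

namespace Pool.Agent.N511.PN.NumP

open Finset Filter Topology

theorem fact5 : Fact (Nat.Prime 5) := ⟨Nat.prime_five⟩

attribute [local instance] fact5

/-- the quadratic character modulo 5 -/
noncomputable def ch (n : ℕ) : ℝ := ((quadraticChar (ZMod 5) (n : ZMod 5) : ℤ) : ℝ)

theorem jac_eq {n : ℕ} (hn : Odd n) : (jacobiSym 5 n : ℝ) = ch n := by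
  have h1 := jacobiSym.quadratic_reciprocity_one_mod_four (a := 5) (b := n) (by norm_num) hn
  have h2 := jacobiSym.legendreSym.to_jacobiSym 5 (n : ℤ)
  have h3 : jacobiSym 5 n = quadraticChar (ZMod 5) (n : ZMod 5) := by
    rw [show (5 : ℤ) = ((5 : ℕ) : ℤ) from rfl, h1, ← h2]
    unfold legendreSym
    rw [Int.cast_natCast]
  unfold ch
  rw [h3]

theorem ch_cases (n : ℕ) : (n % 5 = 0 ∧ ch n = 0) ∨ ((n % 5 = 1 ∨ n % 5 = 4) ∧ ch n = 1) ∨
    ((n % 5 = 2 ∨ n % 5 = 3) ∧ ch n = -1) := by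
  have h0 : ch n = ch (n % 5) := by
    unfold ch
    rw [ZMod.natCast_mod]
  have h5 : n % 5 < 5 := Nat.mod_lt _ (by norm_num)
  have e0 : ch 0 = 0 := by
    unfold ch
    have : quadraticChar (ZMod 5) ((0 : ℕ) : ZMod 5) = 0 := by decide
    rw [this]
    norm_num
  have e1 : ch 1 = 1 := by
    unfold ch
    have : quadraticChar (ZMod 5) ((1 : ℕ) : ZMod 5) = 1 := by decide
    rw [this]
    norm_num
  have e2 : ch 2 = -1 := by
    unfold ch
    have : quadraticChar (ZMod 5) ((2 : ℕ) : ZMod 5) = -1 := by decide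
    rw [this]
    norm_num
  have e3 : ch 3 = -1 := by
    unfold ch
    have : quadraticChar (ZMod 5) ((3 : ℕ) : ZMod 5) = -1 := by decide
    rw [this]
    norm_num
  have e4 : ch 4 = 1 := by
    unfold ch
    have : quadraticChar (ZMod 5) ((4 : ℕ) : ZMod 5) = 1 := by decide
    rw [this]
    norm_num
  rw [h0]
  interval_cases h : n % 5
  · exact Or.inl ⟨rfl, e0⟩
  · exact Or.inr (Or.inl ⟨Or.inl rfl, e1⟩)
  · exact Or.inr (Or.inr ⟨Or.inl rfl, e2⟩)
  · exact Or.inr (Or.inr ⟨Or.inr rfl, e3⟩)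
  · exact Or.inr (Or.inl ⟨Or.inr rfl, e4⟩)

theorem ch_abs (n : ℕ) : |ch n| ≤ 1 := by
  rcases ch_cases n with ⟨-, h⟩ | ⟨-, h⟩ | ⟨-, h⟩ <;> rw [h] <;> norm_num

theorem ch_mul (m n : ℕ) : ch (m * n) = ch m * ch n := by
  unfold ch
  rw [Nat.cast_mul, map_mul]
  push_cast
  ring

theorem ch_zero : ch 0 = 0 := by
  rcases ch_cases 0 with ⟨-, h⟩ | ⟨h, -⟩ | ⟨h, -⟩
  · exact h
  · omega
  · omega

theorem ch_one : ch 1 = 1 := by
  rcases ch_cases 1 with ⟨h, -⟩ | ⟨-, h⟩ | ⟨h, -⟩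
  · omega
  · exact h
  · omega

/-- one half of Abel's theorem for Dirichlet series -/
theorem abel_lower {b : ℕ → ℝ}
    (hs : ∀ δ : ℝ, 0 < δ → Summable fun n : ℕ => b n * ((n : ℝ) + 1) ^ (-δ)) {M : ℝ}
    (h : ∀ᶠ N : ℕ in atTop, M ≤ ∑ n ∈ range N, b n) {ε : ℝ} (hε : 0 < ε) :
    ∀ᶠ δ : ℝ in 𝓝[>] 0, M - ε ≤ ∑' n : ℕ, b n * ((n : ℝ) + 1) ^ (-δ) := by
  obtain ⟨K, hK⟩ := eventually_atTop.1 h
  obtain ⟨S, hS⟩ : ∃ S : ℕ → ℝ, S = fun N => ∑ n ∈ range N, b n := ⟨_, rfl⟩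
  have hK' : ∀ n, K ≤ n → M ≤ S n := fun n hn => by rw [hS]; exact hK n hn
  have hSs : ∀ N, S (N + 1) = S N + b N := fun N => by
    rw [hS]
    exact sum_range_succ _ _
  have hS0 : S 0 = 0 := by rw [hS]; exact sum_range_zero _
  obtain ⟨C, hC0, hC⟩ : ∃ C : ℝ, 0 ≤ C ∧ ∀ n, M - C ≤ S n := by
    refine ⟨∑ n ∈ range K, |S n - M|, sum_nonneg (fun _ _ => abs_nonneg _), fun n => ?_⟩
    by_cases hn : n < K
    · have h1 := single_le_sum (f := fun n => |S n - M|) (fun _ _ => abs_nonneg _)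
        (mem_range.2 hn)
      have h2 := neg_abs_le (S n - M)
      linarith
    · have h1 := hK' n (not_lt.1 hn)
      have h2 : 0 ≤ ∑ n ∈ range K, |S n - M| := sum_nonneg (fun _ _ => abs_nonneg _)
      linarith
  have key : ∀ w : ℕ → ℝ, Antitone w → (∀ n, 0 ≤ w n) → w 0 = 1 → ∀ N, K ≤ N →
      M - C * (1 - w K) ≤ ∑ n ∈ range N, b n * w n := by
    intro w hw hw0 hw1 N hN
    have e1 : ∀ N, ∑ n ∈ range N, b n * w n =
        S N * w N + ∑ n ∈ range N, S (n + 1) * (w n - w (n + 1)) := by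
      intro N
      induction N with
      | zero => rw [sum_range_zero, sum_range_zero, hS0, zero_mul, zero_add]
      | succ N ih =>
        rw [sum_range_succ, ih, sum_range_succ, hSs]
        ring
    have e2 : ∀ n, (M - if n < K then C else 0) * (w n - w (n + 1)) ≤
        S (n + 1) * (w n - w (n + 1)) := by
      intro n
      apply mul_le_mul_of_nonneg_right _ (sub_nonneg.2 (hw (Nat.le_succ n)))
      split_ifs with hn
      · exact hC _
      · rw [sub_zero]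
        exact hK' _ (by omega)
    have e3 : ∀ N, K ≤ N → ∑ n ∈ range N, (M - if n < K then C else 0) * (w n - w (n + 1)) =
        M * (1 - w N) - C * (1 - w K) := by
      intro N hN
      induction N, hN using Nat.le_induction with
      | base =>
        have h1 : ∑ n ∈ range K, (M - if n < K then C else 0) * (w n - w (n + 1)) =
            ∑ n ∈ range K, (M - C) * (w n - w (n + 1)) :=
          sum_congr rfl (fun n hn => by rw [if_pos (mem_range.1 hn)])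
        rw [h1, ← mul_sum, sum_range_sub', hw1]
        ring
      | succ N hN ih =>
        rw [sum_range_succ, ih, if_neg (by omega)]
        ring
    have e4 := sum_le_sum (s := range N) fun n _ => e2 n
    rw [e3 N hN] at e4
    have e5 : M * w N ≤ S N * w N := mul_le_mul_of_nonneg_right (hK' N hN) (hw0 N)
    rw [e1]
    linarith
  have hlim : ∀ δ : ℝ, 0 < δ → M - C * (1 - ((K : ℝ) + 1) ^ (-δ)) ≤
      ∑' n : ℕ, b n * ((n : ℝ) + 1) ^ (-δ) := by
    intro δ hδ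
    refine ge_of_tendsto (hs δ hδ).hasSum.tendsto_sum_nat (eventually_atTop.2 ⟨K, ?_⟩)
    intro N hN
    refine key (fun n : ℕ => ((n : ℝ) + 1) ^ (-δ)) ?_ ?_ ?_ N hN
    · intro m n hmn
      apply Real.rpow_le_rpow_of_nonpos (by positivity) _ (by linarith)
      have : (m : ℝ) ≤ n := by exact_mod_cast hmn
      linarith
    · intro n
      positivity
    · simp
  have ht : Tendsto (fun δ : ℝ => C * (1 - ((K : ℝ) + 1) ^ (-δ))) (𝓝[>] 0) (𝓝 0) := by
    have h1 : ContinuousAt (fun δ : ℝ => C * (1 - ((K : ℝ) + 1) ^ (-δ))) 0 := by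
      have h2 : ContinuousAt (fun δ : ℝ => ((K : ℝ) + 1) ^ (-δ)) 0 :=
        ContinuousAt.comp (g := fun x : ℝ => ((K : ℝ) + 1) ^ x)
          (Real.continuousAt_const_rpow (by positivity)) continuousAt_neg
      exact continuousAt_const.mul (continuousAt_const.sub h2)
    have h3 := h1.tendsto
    simp only [neg_zero, Real.rpow_zero, sub_self, mul_zero] at h3
    exact h3.mono_left nhdsWithin_le_nhds
  filter_upwards [ht.eventually (gt_mem_nhds hε), self_mem_nhdsWithin] with δ h1 h2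
  have := hlim δ h2
  linarith

theorem abel_upper {b : ℕ → ℝ}
    (hs : ∀ δ : ℝ, 0 < δ → Summable fun n : ℕ => b n * ((n : ℝ) + 1) ^ (-δ)) {M : ℝ}
    (h : ∀ᶠ N : ℕ in atTop, ∑ n ∈ range N, b n ≤ M) {ε : ℝ} (hε : 0 < ε) :
    ∀ᶠ δ : ℝ in 𝓝[>] 0, ∑' n : ℕ, b n * ((n : ℝ) + 1) ^ (-δ) ≤ M + ε := by
  have h1 := abel_lower (b := fun n => -b n) (M := -M) (fun δ hδ => by
    have := (hs δ hδ).neg
    refine this.congr fun n => ?_
    ring) (h.mono fun N hN => by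
      rw [sum_neg_distrib]
      linarith) hε
  filter_upwards [h1] with δ h2
  have h3 : ∑' n : ℕ, -b n * ((n : ℝ) + 1) ^ (-δ) = -∑' n : ℕ, b n * ((n : ℝ) + 1) ^ (-δ) := by
    rw [← tsum_neg]
    exact tsum_congr fun n => by ring
  rw [h3] at h2
  linarith

/-! ### the Euler product -/

/-- the completely multiplicative function `ch n / n ^ (1 + δ)` -/
noncomputable def fd (δ : ℝ) : ℕ →*₀ ℝ where
  toFun n := ch n * (n : ℝ) ^ (-(1 + δ))
  map_zero' := by rw [ch_zero, zero_mul]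
  map_one' := by rw [ch_one, Nat.cast_one, Real.one_rpow, one_mul]
  map_mul' m n := by
    rw [ch_mul, Nat.cast_mul, Real.mul_rpow (Nat.cast_nonneg _) (Nat.cast_nonneg _)]
    ring

theorem fd_apply (δ : ℝ) (n : ℕ) : fd δ n = ch n * (n : ℝ) ^ (-(1 + δ)) := rfl

theorem fd_norm_le (δ : ℝ) (n : ℕ) : ‖fd δ n‖ ≤ (n : ℝ) ^ (-(1 + δ)) := by
  rw [fd_apply, norm_mul, Real.norm_eq_abs, Real.norm_eq_abs,
    abs_of_nonneg (Real.rpow_nonneg (Nat.cast_nonneg _) _)]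
  calc |ch n| * (n : ℝ) ^ (-(1 + δ)) ≤ 1 * (n : ℝ) ^ (-(1 + δ)) :=
        mul_le_mul_of_nonneg_right (ch_abs n) (Real.rpow_nonneg (Nat.cast_nonneg _) _)
    _ = _ := one_mul _

theorem summ (δ : ℝ) (hδ : 0 < δ) : Summable fun n : ℕ => (n : ℝ) ^ (-(1 + δ)) :=
  Real.summable_nat_rpow.2 (by linarith)

theorem fd_summ (δ : ℝ) (hδ : 0 < δ) : Summable (fun n => ‖fd δ n‖) :=
  (summ δ hδ).of_nonneg_of_le (fun _ => norm_nonneg _) (fd_norm_le δ)

/-- the terms of the logarithm of the Euler product -/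
noncomputable def ad (δ : ℝ) (n : ℕ) : ℝ := if n.Prime then -Real.log (1 - fd δ n) else 0

/-- the terms at `δ = 0` -/
noncomputable def a0 (n : ℕ) : ℝ := if n.Prime then -Real.log (1 - ch n / n) else 0

theorem small {δ : ℝ} (hδ : 0 ≤ δ) {n : ℕ} (hn : 2 ≤ n) : |fd δ n| ≤ 1 / 2 ∧
    |fd δ n| ≤ 1 / n := by
  have h2 : (2 : ℝ) ≤ n := by exact_mod_cast hn
  have h1 : |fd δ n| ≤ (n : ℝ) ^ (-(1 + δ)) := fd_norm_le δ n
  have h3 : (n : ℝ) ^ (-(1 + δ)) ≤ (n : ℝ) ^ (-1 : ℝ) :=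
    Real.rpow_le_rpow_of_exponent_le (by linarith) (by linarith)
  rw [Real.rpow_neg_one] at h3
  have h4 : (n : ℝ)⁻¹ ≤ 1 / 2 := by
    rw [inv_eq_one_div]
    exact one_div_le_one_div_of_le (by norm_num) h2
  rw [inv_eq_one_div] at h3 h4
  exact ⟨by linarith, by linarith⟩

theorem log_bd {x : ℝ} (hx : |x| ≤ 1 / 2) : |x + Real.log (1 - x)| ≤ 2 * x ^ 2 := by
  have h1 := Real.abs_log_sub_add_sum_range_le (x := x) (by linarith) 1
  rw [sum_range_one] at h1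
  have h2 : x ^ (0 + 1) / ((0 : ℕ) + 1 : ℝ) = x := by norm_num
  rw [h2] at h1
  refine h1.trans ?_
  rw [div_le_iff₀ (by linarith)]
  have h3 : |x| ^ (1 + 1) = x ^ 2 := by
    rw [show (1 + 1 : ℕ) = 2 from rfl, sq_abs]
  rw [h3]
  nlinarith [sq_nonneg x]

theorem ad_abs {δ : ℝ} (hδ : 0 ≤ δ) (n : ℕ) : |ad δ n| ≤ 2 * ‖fd δ n‖ := by
  unfold ad
  split_ifs with h
  · have h1 := (small hδ h.two_le).1
    have h2 := log_bd h1
    rw [abs_neg, Real.norm_eq_abs]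
    have h3 : |Real.log (1 - fd δ n)| ≤ |fd δ n + Real.log (1 - fd δ n)| + |fd δ n| := by
      have := abs_sub (fd δ n + Real.log (1 - fd δ n)) (fd δ n)
      rwa [add_sub_cancel_left] at this
    have h4 : 2 * fd δ n ^ 2 ≤ |fd δ n| := by
      rw [← sq_abs]
      nlinarith [abs_nonneg (fd δ n)]
    linarith
  · rw [abs_zero]
    positivity

theorem ad_summ (δ : ℝ) (hδ : 0 < δ) : Summable (ad δ) :=
  Summable.of_norm_bounded ((fd_summ δ hδ).mul_left 2) (fun n => ad_abs hδ.le n)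

/-- the Euler product -/
theorem euler (δ : ℝ) (hδ : 0 < δ) : ∑' n, fd δ n = Real.exp (∑' n, ad δ n) := by
  have h1 := EulerProduct.eulerProduct_completely_multiplicative (fd_summ δ hδ)
  have h2 : Tendsto (fun N : ℕ => Real.exp (∑ n ∈ range N, ad δ n)) atTop
      (𝓝 (Real.exp (∑' n, ad δ n))) :=
    (Real.continuous_exp.tendsto _).comp (ad_summ δ hδ).hasSum.tendsto_sum_nat
  refine tendsto_nhds_unique h1 (h2.congr fun N => ?_)
  rw [Real.exp_sum, Nat.primesBelow, prod_filter]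
  refine prod_congr rfl fun n _ => ?_
  unfold ad
  split_ifs with h
  · have h3 := (small hδ.le h.two_le).1
    have h4 : 0 < 1 - fd δ n := by
      have := le_abs_self (fd δ n)
      linarith
    rw [Real.exp_neg, Real.exp_log h4]
  · exact Real.exp_zero

theorem fd_eq {δ : ℝ} {n : ℕ} (hn : 1 ≤ n) : fd δ n = ch n / n * (n : ℝ) ^ (-δ) := by
  have h1 : (0 : ℝ) < n := by exact_mod_cast hn
  rw [fd_apply, neg_add, Real.rpow_add h1, Real.rpow_neg_one]
  ring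

/-- comparison with the Dirichlet series -/
theorem diff_zero : Tendsto (fun δ : ℝ => ∑' n : ℕ, (ad δ n - a0 n * (n : ℝ) ^ (-δ)))
    (𝓝[>] 0) (𝓝 0) := by
  have key := tendsto_tsum_of_dominated_convergence (𝓕 := 𝓝[>] (0 : ℝ))
    (f := fun (δ : ℝ) (n : ℕ) => ad δ n - a0 n * (n : ℝ) ^ (-δ)) (g := fun _ => (0 : ℝ))
    (bound := fun n : ℕ => 4 * (1 / (n : ℝ) ^ 2)) ?_ ?_ ?_
  · rw [tsum_zero] at key
    exact key
  · exact (Real.summable_one_div_nat_pow.2 one_lt_two).mul_left 4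
  · intro n
    unfold ad a0
    split_ifs with h
    · have hn : (0 : ℝ) < n := by exact_mod_cast h.pos
      have c1 : ContinuousAt (fun δ : ℝ => (n : ℝ) ^ (-δ)) 0 :=
        ContinuousAt.comp (g := fun x : ℝ => (n : ℝ) ^ x)
          (Real.continuousAt_const_rpow hn.ne') continuousAt_neg
      have c2 : ContinuousAt (fun δ : ℝ => 1 - ch n / n * (n : ℝ) ^ (-δ)) 0 :=
        continuousAt_const.sub (continuousAt_const.mul c1)
      have h3 : |fd 0 n| ≤ 1 / 2 := (small le_rfl h.two_le).1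
      rw [fd_eq h.one_lt.le, neg_zero, Real.rpow_zero, mul_one] at h3
      have h4 : 1 - ch n / n * (n : ℝ) ^ (-(0 : ℝ)) ≠ 0 := by
        rw [neg_zero, Real.rpow_zero, mul_one]
        have := le_abs_self (ch n / n)
        exact (by linarith : 0 < 1 - ch n / n).ne'
      have c3 : ContinuousAt (fun δ : ℝ => -Real.log (1 - ch n / n * (n : ℝ) ^ (-δ)) -
          -Real.log (1 - ch n / n) * (n : ℝ) ^ (-δ)) 0 :=
        (c2.log h4).neg.sub (continuousAt_const.mul c1)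
      have h5 := c3.tendsto
      simp only [neg_zero, Real.rpow_zero, mul_one, sub_self] at h5
      refine (h5.mono_left nhdsWithin_le_nhds).congr fun δ => ?_
      rw [fd_eq h.one_lt.le]
    · simp only [zero_mul, sub_zero]
      exact tendsto_const_nhds
  · filter_upwards [self_mem_nhdsWithin] with δ hδ n
    have hδ0 : (0 : ℝ) ≤ δ := le_of_lt hδ
    unfold ad a0
    split_ifs with h
    · have hn1 : (1 : ℝ) ≤ n := by exact_mod_cast h.one_lt.le
      have hn : (0 : ℝ) < n := by linarith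
      obtain ⟨s1, s2⟩ := small hδ0 h.two_le
      obtain ⟨s3, s4⟩ := small (le_refl (0 : ℝ)) h.two_le
      have hy0 : 0 ≤ (n : ℝ) ^ (-δ) := Real.rpow_nonneg hn.le _
      have hy1 : (n : ℝ) ^ (-δ) ≤ 1 := Real.rpow_le_one_of_one_le_of_nonpos hn1 (by linarith)
      rw [fd_eq h.one_lt.le, neg_zero, Real.rpow_zero, mul_one] at s3 s4
      rw [fd_eq h.one_lt.le] at s1 s2 ⊢
      obtain ⟨x, hx⟩ : ∃ x, x = ch n / n := ⟨_, rfl⟩
      obtain ⟨y, hy⟩ : ∃ y, y = (n : ℝ) ^ (-δ) := ⟨_, rfl⟩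
      rw [← hx, ← hy] at s1 s2 ⊢
      rw [← hx] at s3 s4
      rw [← hy] at hy0 hy1
      have b1 := log_bd s1
      have b2 := log_bd s3
      have e1 : -Real.log (1 - x * y) - -Real.log (1 - x) * y =
          -(x * y + Real.log (1 - x * y)) + y * (x + Real.log (1 - x)) := by ring
      rw [e1, Real.norm_eq_abs]
      refine (abs_add_le _ _).trans ?_
      rw [abs_neg, abs_mul, abs_of_nonneg hy0]
      have b3 : y * |x + Real.log (1 - x)| ≤ 1 * (2 * x ^ 2) :=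
        mul_le_mul hy1 b2 (abs_nonneg _) zero_le_one
      have b4 : (x * y) ^ 2 ≤ 1 / (n : ℝ) ^ 2 := by
        rw [← sq_abs, show (1 : ℝ) / (n : ℝ) ^ 2 = (1 / n) ^ 2 by ring]
        exact pow_le_pow_left₀ (abs_nonneg _) s2 2
      have b5 : x ^ 2 ≤ 1 / (n : ℝ) ^ 2 := by
        rw [← sq_abs, show (1 : ℝ) / (n : ℝ) ^ 2 = (1 / n) ^ 2 by ring]
        exact pow_le_pow_left₀ (abs_nonneg _) s4 2
      linarith
    · simp only [zero_mul, sub_zero, norm_zero]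
      positivity

theorem a0_zero : a0 0 = 0 := if_neg Nat.not_prime_zero

theorem a0_abs (n : ℕ) : |a0 n| ≤ 2 / n := by
  rcases Nat.eq_zero_or_pos n with h | h
  · subst h
    rw [a0_zero]
    simp
  · have h1 := ad_abs (le_refl (0 : ℝ)) n
    have h2 : ad 0 n = a0 n := by
      unfold ad a0
      rw [fd_eq h, neg_zero, Real.rpow_zero, mul_one]
    rw [h2] at h1
    have h3 := fd_norm_le 0 n
    rw [add_zero, Real.rpow_neg_one] at h3
    calc |a0 n| ≤ 2 * ‖fd 0 n‖ := h1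
      _ ≤ 2 * (n : ℝ)⁻¹ := by linarith
      _ = 2 / n := by ring

theorem shift_summ {c : ℕ → ℝ} {K : ℝ} (hc : ∀ n : ℕ, |c n| ≤ K / n) (δ : ℝ) (hδ : 0 < δ) :
    Summable fun n : ℕ => c n * (n : ℝ) ^ (-δ) := by
  refine Summable.of_norm_bounded ((summ δ hδ).mul_left |K|) fun n => ?_
  rcases Nat.eq_zero_or_pos n with h | h
  · subst h
    have h1 := hc 0
    rw [Nat.cast_zero, div_zero] at h1
    have h2 : c 0 = 0 := abs_eq_zero.1 (le_antisymm h1 (abs_nonneg _))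
    rw [h2, zero_mul, norm_zero]
    positivity
  · have h1 : (0 : ℝ) < n := by exact_mod_cast h
    rw [norm_mul, Real.norm_eq_abs, Real.norm_eq_abs, abs_of_nonneg (Real.rpow_nonneg h1.le _)]
    have h2 : |c n| ≤ |K| * (n : ℝ)⁻¹ := (hc n).trans (by
      rw [div_eq_mul_inv]
      exact mul_le_mul_of_nonneg_right (le_abs_self K) (by positivity))
    calc |c n| * (n : ℝ) ^ (-δ) ≤ |K| * (n : ℝ)⁻¹ * (n : ℝ) ^ (-δ) :=
          mul_le_mul_of_nonneg_right h2 (Real.rpow_nonneg h1.le _)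
      _ = |K| * (n : ℝ) ^ (-(1 + δ)) := by
          rw [neg_add, Real.rpow_add h1, Real.rpow_neg_one]
          ring

theorem shift_tsum {c : ℕ → ℝ} {K : ℝ} (hc : ∀ n : ℕ, |c n| ≤ K / n) (δ : ℝ) (hδ : 0 < δ) :
    (Summable fun n : ℕ => c (n + 1) * ((n : ℝ) + 1) ^ (-δ)) ∧
    ∑' n : ℕ, c n * (n : ℝ) ^ (-δ) = ∑' n : ℕ, c (n + 1) * ((n : ℝ) + 1) ^ (-δ) := by
  have h1 := shift_summ hc δ hδ
  have h2 := (summable_nat_add_iff 1).2 h1
  have h3 := h1.tsum_eq_zero_add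
  have h4 : c 0 = 0 := by
    have h5 := hc 0
    rw [Nat.cast_zero, div_zero] at h5
    exact abs_eq_zero.1 (le_antisymm h5 (abs_nonneg _))
  rw [h4, zero_mul, zero_add] at h3
  simp only [Nat.cast_add, Nat.cast_one] at h2 h3
  exact ⟨h2, h3⟩

theorem ch_div_abs (n : ℕ) : |ch n / n| ≤ 1 / n := by
  rw [abs_div, Nat.abs_cast]
  exact div_le_div_of_nonneg_right (ch_abs n) (Nat.cast_nonneg n)

/-- the main comparison -/
theorem split (δ : ℝ) (hδ : 0 < δ) :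
    ∑' n : ℕ, ch (n + 1) / ((n + 1 : ℕ) : ℝ) * ((n : ℝ) + 1) ^ (-δ) =
      Real.exp (∑' n : ℕ, a0 (n + 1) * ((n : ℝ) + 1) ^ (-δ) +
        ∑' n : ℕ, (ad δ n - a0 n * (n : ℝ) ^ (-δ))) := by
  have h1 := (shift_tsum (c := fun n => ch n / n) ch_div_abs δ hδ).2
  have h2 := shift_tsum a0_abs δ hδ
  rw [← h2.2, ← h1]
  have h3 : ∑' n : ℕ, ch n / n * (n : ℝ) ^ (-δ) = ∑' n, fd δ n := by
    refine tsum_congr fun n => ?_
    rcases Nat.eq_zero_or_pos n with h | h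
    · subst h
      rw [map_zero, ch_zero, zero_div, zero_mul]
    · exact (fd_eq h).symm
  rw [h3, euler δ hδ]
  congr 1
  have h4 := shift_summ a0_abs δ hδ
  rw [← h4.tsum_add ((ad_summ δ hδ).sub h4)]
  exact tsum_congr fun n => by ring

theorem main_le {c hi : ℝ} (hG : ∀ᶠ N : ℕ in atTop, c ≤ ∑ n ∈ range N, a0 (n + 1))
    (hS : ∀ᶠ N : ℕ in atTop, ∑ n ∈ range N, ch (n + 1) / ((n + 1 : ℕ) : ℝ) ≤ hi) :
    Real.exp c ≤ hi := by
  have h1 : ∀ ε : ℝ, 0 < ε → Real.exp (c - 2 * ε) ≤ hi + ε := by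
    intro ε hε
    have e1 := abel_lower (fun δ hδ => (shift_tsum a0_abs δ hδ).1) hG hε
    have e2 := abel_upper (fun δ hδ => (shift_tsum (c := fun n => ch n / n)
      ch_div_abs δ hδ).1) hS hε
    have e3 : ∀ᶠ δ : ℝ in 𝓝[>] 0, -ε < ∑' n : ℕ, (ad δ n - a0 n * (n : ℝ) ^ (-δ)) :=
      diff_zero.eventually (lt_mem_nhds (by linarith))
    have e4 : ∀ᶠ δ : ℝ in 𝓝[>] (0 : ℝ), δ ∈ Set.Ioi (0 : ℝ) := self_mem_nhdsWithin
    obtain ⟨δ, h1, h2, h3, h4⟩ := (e1.and (e2.and (e3.and e4))).exists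
    have h5 := split δ h4
    have h6 : Real.exp (c - 2 * ε) ≤ Real.exp (∑' n : ℕ, a0 (n + 1) * ((n : ℝ) + 1) ^ (-δ) +
        ∑' n : ℕ, (ad δ n - a0 n * (n : ℝ) ^ (-δ))) := Real.exp_le_exp.2 (by linarith)
    rw [← h5] at h6
    exact h6.trans h2
  have t1 : Tendsto (fun ε : ℝ => Real.exp (c - 2 * ε)) (𝓝[>] 0) (𝓝 (Real.exp c)) := by
    have h2 : ContinuousAt (fun ε : ℝ => Real.exp (c - 2 * ε)) 0 := by fun_prop
    have h3 := h2.tendsto
    rw [mul_zero, sub_zero] at h3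
    exact h3.mono_left nhdsWithin_le_nhds
  have t2 : Tendsto (fun ε : ℝ => hi + ε) (𝓝[>] 0) (𝓝 hi) := by
    have h2 : ContinuousAt (fun ε : ℝ => hi + ε) 0 := by fun_prop
    have h3 := h2.tendsto
    rw [add_zero] at h3
    exact h3.mono_left nhdsWithin_le_nhds
  refine le_of_tendsto_of_tendsto t1 t2 ?_
  filter_upwards [self_mem_nhdsWithin] with ε hε
  exact h1 ε hε

theorem main_ge {c lo : ℝ} (hG : ∀ᶠ N : ℕ in atTop, ∑ n ∈ range N, a0 (n + 1) ≤ c)
    (hS : ∀ᶠ N : ℕ in atTop, lo ≤ ∑ n ∈ range N, ch (n + 1) / ((n + 1 : ℕ) : ℝ)) :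
    lo ≤ Real.exp c := by
  have h1 : ∀ ε : ℝ, 0 < ε → lo - ε ≤ Real.exp (c + 2 * ε) := by
    intro ε hε
    have e1 := abel_upper (fun δ hδ => (shift_tsum a0_abs δ hδ).1) hG hε
    have e2 := abel_lower (fun δ hδ => (shift_tsum (c := fun n => ch n / n)
      ch_div_abs δ hδ).1) hS hε
    have e3 : ∀ᶠ δ : ℝ in 𝓝[>] 0, ∑' n : ℕ, (ad δ n - a0 n * (n : ℝ) ^ (-δ)) < ε :=
      diff_zero.eventually (gt_mem_nhds hε)
    have e4 : ∀ᶠ δ : ℝ in 𝓝[>] (0 : ℝ), δ ∈ Set.Ioi (0 : ℝ) := self_mem_nhdsWithin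
    obtain ⟨δ, h1, h2, h3, h4⟩ := (e1.and (e2.and (e3.and e4))).exists
    have h5 := split δ h4
    have h6 : Real.exp (∑' n : ℕ, a0 (n + 1) * ((n : ℝ) + 1) ^ (-δ) +
        ∑' n : ℕ, (ad δ n - a0 n * (n : ℝ) ^ (-δ))) ≤ Real.exp (c + 2 * ε) :=
      Real.exp_le_exp.2 (by linarith)
    rw [← h5] at h6
    exact h2.trans h6
  have t1 : Tendsto (fun ε : ℝ => Real.exp (c + 2 * ε)) (𝓝[>] 0) (𝓝 (Real.exp c)) := by
    have h2 : ContinuousAt (fun ε : ℝ => Real.exp (c + 2 * ε)) 0 := by fun_prop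
    have h3 := h2.tendsto
    rw [mul_zero, add_zero] at h3
    exact h3.mono_left nhdsWithin_le_nhds
  have t2 : Tendsto (fun ε : ℝ => lo - ε) (𝓝[>] 0) (𝓝 lo) := by
    have h2 : ContinuousAt (fun ε : ℝ => lo - ε) 0 := by fun_prop
    have h3 := h2.tendsto
    rw [sub_zero] at h3
    exact h3.mono_left nhdsWithin_le_nhds
  refine le_of_tendsto_of_tendsto t2 t1 ?_
  filter_upwards [self_mem_nhdsWithin] with ε hε
  exact h1 ε hε

end Pool.Agent.N511.PN.NumP
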