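import Pool.Agent.N511.PN.Stm
import Pool.Agent.N511.PN.NumA

/-!
# Project PN, task NUM: the value of the constant of `k² + 3k + 1`
-/

set_option autoImplicit false

namespace Pool.Agent.N511.PN.NumP

open Finset Filter Topology

/-! ### the value of the series -/

/-- the partial sums -/
noncomputable def sm (N : ℕ) : ℝ := ∑ n ∈ range N, ch (n + 1) / ((n + 1 : ℕ) : ℝ)

/-- the blocks -/
noncomputable def blk (k : ℕ) : ℝ :=
  1 / (5 * (k : ℝ) + 1) - 1 / (5 * (k : ℝ) + 2) - 1 / (5 * (k : ℝ) + 3) + 1 / (5 * (k : ℝ) + 4)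

theorem sm_succ (N : ℕ) : sm (N + 1) = sm N + ch (N + 1) / ((N + 1 : ℕ) : ℝ) := sum_range_succ _ _

theorem sm_five (k : ℕ) : sm (5 * (k + 1)) = sm (5 * k) + blk k := by
  have h1 : ch (5 * k + 1) = 1 := by
    rcases ch_cases (5 * k + 1) with ⟨h, -⟩ | ⟨-, h⟩ | ⟨h, -⟩
    · omega
    · exact h
    · omega
  have h2 : ch (5 * k + 1 + 1) = -1 := by
    rcases ch_cases (5 * k + 1 + 1) with ⟨h, -⟩ | ⟨h, -⟩ | ⟨-, h⟩
    · omega
    · omega
    · exact h
  have h3 : ch (5 * k + 1 + 1 + 1) = -1 := by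
    rcases ch_cases (5 * k + 1 + 1 + 1) with ⟨h, -⟩ | ⟨h, -⟩ | ⟨-, h⟩
    · omega
    · omega
    · exact h
  have h4 : ch (5 * k + 1 + 1 + 1 + 1) = 1 := by
    rcases ch_cases (5 * k + 1 + 1 + 1 + 1) with ⟨h, -⟩ | ⟨-, h⟩ | ⟨h, -⟩
    · omega
    · exact h
    · omega
  have h5 : ch (5 * k + 1 + 1 + 1 + 1 + 1) = 0 := by
    rcases ch_cases (5 * k + 1 + 1 + 1 + 1 + 1) with ⟨-, h⟩ | ⟨h, -⟩ | ⟨h, -⟩
    · exact h
    · omega
    · omega
  rw [show 5 * (k + 1) = 5 * k + 1 + 1 + 1 + 1 + 1 by ring, sm_succ, sm_succ, sm_succ, sm_succ,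
    sm_succ, h1, h2, h3, h4, h5]
  unfold blk
  push_cast
  ring

theorem blk_eq (k : ℕ) : blk k = (20 * (k : ℝ) + 10) /
    ((5 * (k : ℝ) + 1) * (5 * k + 2) * (5 * k + 3) * (5 * k + 4)) := by
  unfold blk
  have hk : (0 : ℝ) ≤ k := Nat.cast_nonneg k
  field_simp
  ring

theorem blk_nonneg (k : ℕ) : 0 ≤ blk k := by
  rw [blk_eq]
  positivity

theorem blk_le {k : ℕ} (hk : 1 ≤ k) :
    blk k ≤ 0.016 * (1 / (k : ℝ) ^ 2 - 1 / ((k : ℝ) + 1) ^ 2) := by
  have hx : (1 : ℝ) ≤ k := by exact_mod_cast hk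
  obtain ⟨x, hxk⟩ : ∃ x : ℝ, x = k := ⟨_, rfl⟩
  rw [blk_eq, ← hxk]
  rw [← hxk] at hx
  have h1 : 0.016 * (1 / x ^ 2 - 1 / (x + 1) ^ 2) =
      (20 * x + 10) / (625 * (x ^ 2 * (x + 1) ^ 2)) := by
    field_simp
    ring
  rw [h1]
  apply div_le_div_of_nonneg_left (by positivity) (by positivity)
  have h2 : (5 * x + 1) * (5 * x + 2) * (5 * x + 3) * (5 * x + 4) =
      (25 * (x ^ 2 + x)) ^ 2 + 10 * (25 * (x ^ 2 + x)) + 24 := by ring
  rw [h2]
  have h3 : 0 ≤ x ^ 2 + x := by positivity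
  nlinarith

theorem sm_sum (k : ℕ) : sm (5 * k) = ∑ j ∈ range k, blk j := by
  induction k with
  | zero => simp [sm]
  | succ k ih => rw [sm_five, ih, sum_range_succ]

theorem sm_100 : 0.430368 ≤ sm 100 ∧ sm 100 ≤ 0.430370 := by
  have h1 : sm 100 = ∑ j ∈ range 20, blk j := sm_sum 20
  rw [h1]
  unfold blk
  simp only [sum_range_succ, sum_range_zero]
  constructor <;> norm_num

theorem sm_ge {k : ℕ} (hk : 20 ≤ k) : 0.430368 ≤ sm (5 * k) ∧
    sm (5 * k) ≤ 0.430370 + 0.016 * (1 / 400 - 1 / (k : ℝ) ^ 2) := by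
  induction k, hk using Nat.le_induction with
  | base =>
    obtain ⟨h1, h2⟩ := sm_100
    refine ⟨h1, h2.trans ?_⟩
    norm_num
  | succ k hk ih =>
    have h1 := blk_nonneg k
    have h2 := blk_le (show 1 ≤ k by omega)
    rw [sm_five]
    push_cast
    constructor
    · linarith [ih.1]
    · linarith [ih.2]

theorem sm_near (k r : ℕ) : |sm (5 * k + r) - sm (5 * k)| ≤ r / (5 * (k : ℝ) + 1) := by
  induction r with
  | zero => simp
  | succ r ih =>
    rw [← add_assoc, sm_succ]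
    have h1 : |ch (5 * k + r + 1) / ((5 * k + r + 1 : ℕ) : ℝ)| ≤ 1 / (5 * (k : ℝ) + 1) := by
      refine (ch_div_abs _).trans ?_
      apply one_div_le_one_div_of_le (by positivity)
      push_cast
      have : (0 : ℝ) ≤ r := Nat.cast_nonneg r
      linarith
    have h2 : sm (5 * k + r) + ch (5 * k + r + 1) / ((5 * k + r + 1 : ℕ) : ℝ) - sm (5 * k) =
        (sm (5 * k + r) - sm (5 * k)) + ch (5 * k + r + 1) / ((5 * k + r + 1 : ℕ) : ℝ) := by ring
    rw [h2]
    refine (abs_add_le _ _).trans ?_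
    push_cast at h1 ⊢
    rw [add_div]
    linarith

theorem sm_bounds : ∀ᶠ N : ℕ in atTop, 0.43036 ≤ sm N ∧ sm N ≤ 0.43042 := by
  filter_upwards [eventually_ge_atTop 10000000] with N hN
  obtain ⟨k, r, hr, hk, rfl⟩ : ∃ k r, r < 5 ∧ 1000000 ≤ k ∧ N = 5 * k + r :=
    ⟨N / 5, N % 5, Nat.mod_lt _ (by norm_num), by omega, by omega⟩
  obtain ⟨h1, h2⟩ := sm_ge (show 20 ≤ k by omega)
  have h3 := sm_near k r
  have hk' : (1000000 : ℝ) ≤ k := by exact_mod_cast hk
  have hr' : (r : ℝ) ≤ 4 := by exact_mod_cast (by omega : r ≤ 4)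
  have h4 : (r : ℝ) / (5 * (k : ℝ) + 1) ≤ 0.000001 := by
    rw [div_le_iff₀ (by positivity)]
    linarith
  have h5 : 0 ≤ 1 / (k : ℝ) ^ 2 := by positivity
  have h6 := abs_le.1 (h3.trans h4)
  constructor
  · linarith [h6.1]
  · have h7 : (0.016 : ℝ) * (1 / 400 - 1 / (k : ℝ) ^ 2) ≤ 0.00004 := by
      linarith
    linarith [h6.2]

/-! ### the product -/

/-- the factors of the product -/
noncomputable def gP (n : ℕ) : ℝ := if n.Prime ∧ 3 ≤ n then 1 - ch n / ((n : ℝ) - 1) else 1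

/-- the correction -/
noncomputable def eR (n : ℕ) : ℝ :=
  if n % 5 = 1 ∨ n % 5 = 4 then (n * ((n : ℝ) - 2)) / ((n : ℝ) - 1) ^ 2
    else if n % 5 = 0 then 1 else (n : ℝ) ^ 2 / ((n : ℝ) ^ 2 - 1)

noncomputable def eP (n : ℕ) : ℝ := if n.Prime ∧ 3 ≤ n then eR n else 1

theorem g_eq {n : ℕ} (hn : 3 ≤ n) : 1 - ch n / ((n : ℝ) - 1) = (1 - ch n / n) * eR n := by
  have h3 : (3 : ℝ) ≤ n := by exact_mod_cast hn
  obtain ⟨x, hx⟩ : ∃ x : ℝ, x = n := ⟨_, rfl⟩
  unfold eR
  rw [← hx] at h3 ⊢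
  have h1 : x - 1 ≠ 0 := by linarith
  have h0 : x ≠ 0 := by linarith
  rcases ch_cases n with ⟨h, hc⟩ | ⟨h, hc⟩ | ⟨h, hc⟩
  · rw [hc, if_neg (by omega), if_pos h]
    ring
  · rw [hc, if_pos h]
    field_simp
    ring
  · rw [hc, if_neg (by omega), if_neg (by omega)]
    have h2 : x ^ 2 - 1 ≠ 0 := by nlinarith
    have h4 : x + 1 ≠ 0 := by linarith
    have h5 : x ^ 2 - 1 = (x - 1) * (x + 1) := by ring
    rw [h5]
    field_simp
    ring

theorem exp_a0 {n : ℕ} (hn : n.Prime) : Real.exp (-a0 n) = 1 - ch n / n := by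
  unfold a0
  rw [if_pos hn, neg_neg, Real.exp_log]
  have h1 := ch_div_abs n
  have h2 := le_abs_self (ch n / n)
  have h3 : (2 : ℝ) ≤ n := by exact_mod_cast hn.two_le
  have h4 : 1 / (n : ℝ) ≤ 1 / 2 := one_div_le_one_div_of_le (by norm_num) h3
  linarith

theorem prod_eq {N : ℕ} (hN : 3 ≤ N) : ∏ n ∈ range N, gP n =
    2 / 3 * Real.exp (-∑ n ∈ range N, a0 n) * ∏ n ∈ range N, eP n := by
  induction N, hN using Nat.le_induction with
  | base =>
    have h2 := exp_a0 Nat.prime_two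
    have h3 : ch 2 = -1 := by
      rcases ch_cases 2 with ⟨h, -⟩ | ⟨h, -⟩ | ⟨-, h⟩
      · omega
      · omega
      · exact h
    have e0 : ∀ n < 3, gP n = 1 ∧ eP n = 1 := by
      intro n hn
      unfold gP eP
      rw [if_neg (by omega), if_neg (by omega)]
      exact ⟨rfl, rfl⟩
    have e1 : a0 1 = 0 := if_neg Nat.not_prime_one
    rw [prod_congr rfl fun n hn => (e0 n (mem_range.1 hn)).1,
      prod_congr rfl fun n hn => (e0 n (mem_range.1 hn)).2, prod_const_one, sum_range_succ,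
      sum_range_succ, sum_range_succ, sum_range_zero, a0_zero, e1, zero_add, zero_add, zero_add,
      h2, h3]
    norm_num
  | succ N hN ih =>
    rw [prod_range_succ, prod_range_succ, sum_range_succ, ih, neg_add, Real.exp_add]
    unfold gP eP
    by_cases hp : N.Prime
    · rw [if_pos ⟨hp, hN⟩, if_pos ⟨hp, hN⟩, g_eq hN, exp_a0 hp]
      ring
    · rw [if_neg (fun h => hp h.1), if_neg (fun h => hp h.1)]
      unfold a0
      rw [if_neg hp, neg_zero, Real.exp_zero]
      ring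

/-! ### the computation -/

/-- primality up to `1000` -/
def isP (n : ℕ) : Bool := (List.range 30).all fun i => (n % (i + 2) != 0) || (n == i + 2)

theorem isP_iff {n : ℕ} (h3 : 3 ≤ n) (hn : n ≤ 1000) : isP n = true ↔ n.Prime := by
  unfold isP
  rw [List.all_eq_true]
  constructor
  · intro h
    by_contra hp
    have h1 : n.minFac ^ 2 ≤ n := Nat.minFac_sq_le_self (by omega) hp
    have h2 : n.minFac ≤ 31 := by
      by_contra hlt
      push Not at hlt
      have : 32 ^ 2 ≤ n.minFac ^ 2 := Nat.pow_le_pow_left hlt 2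
      omega
    have h4 : 2 ≤ n.minFac := (Nat.minFac_prime (by omega)).two_le
    have h5 := h (n.minFac - 2) (List.mem_range.2 (by omega))
    rw [show n.minFac - 2 + 2 = n.minFac by omega] at h5
    have h6 : n % n.minFac = 0 := Nat.mod_eq_zero_of_dvd (Nat.minFac_dvd n)
    rw [h6] at h5
    have h7 : n = n.minFac := by simpa using h5
    exact hp (h7 ▸ Nat.minFac_prime (by omega))
  · intro hp i _
    by_cases hd : n % (i + 2) = 0
    · have h1 := (Nat.dvd_prime hp).1 (Nat.dvd_of_mod_eq_zero hd)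
      rcases h1 with h1 | h1
      · omega
      · simp [h1]
    · simp [hd]

/-- numerators -/
def fN (n : ℕ) : ℕ := if isP n && (3 ≤ n) then
  (if n % 5 = 1 ∨ n % 5 = 4 then n * (n - 2) else if n % 5 = 0 then 1 else n ^ 2) else 1

/-- denominators -/
def fD (n : ℕ) : ℕ := if isP n && (3 ≤ n) then
  (if n % 5 = 1 ∨ n % 5 = 4 then (n - 1) ^ 2 else if n % 5 = 0 then 1 else n ^ 2 - 1) else 1

def nu : ℕ → ℕ
  | 0 => 1
  | n + 1 => nu n * fN n

def de : ℕ → ℕ
  | 0 => 1
  | n + 1 => de n * fD n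

theorem comp1 : 11448 * de 1001 ≤ 10000 * nu 1001 := by decide +kernel

theorem comp2 : 10000 * nu 1001 ≤ 11449 * de 1001 := by decide +kernel

theorem factor_eq {n : ℕ} (hn : n ≤ 1000) : (fD n : ℝ) ≠ 0 ∧ eP n = fN n / fD n := by
  by_cases h3 : 3 ≤ n
  · have hx : (3 : ℝ) ≤ n := by exact_mod_cast h3
    by_cases hp : n.Prime
    · have h1 : (isP n && decide (3 ≤ n)) = true := by
        rw [(isP_iff h3 hn).2 hp]
        simpa using h3
      have e1 : fN n = (if n % 5 = 1 ∨ n % 5 = 4 then n * (n - 2) else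
          if n % 5 = 0 then 1 else n ^ 2) := if_pos h1
      have e2 : fD n = (if n % 5 = 1 ∨ n % 5 = 4 then (n - 1) ^ 2 else
          if n % 5 = 0 then 1 else n ^ 2 - 1) := if_pos h1
      have e3 : eP n = eR n := if_pos ⟨hp, h3⟩
      rw [e1, e2, e3]
      unfold eR
      by_cases h4 : n % 5 = 1 ∨ n % 5 = 4
      · rw [if_pos h4, if_pos h4, if_pos h4]
        have c1 : ((n - 1 : ℕ) : ℝ) = n - 1 := by
          rw [Nat.cast_sub (by omega)]
          norm_num
        have c2 : ((n - 2 : ℕ) : ℝ) = n - 2 := by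
          rw [Nat.cast_sub (by omega)]
          norm_num
        rw [Nat.cast_pow, Nat.cast_mul, c1, c2]
        refine ⟨?_, rfl⟩
        have : (0 : ℝ) < n - 1 := by linarith
        positivity
      · rw [if_neg h4, if_neg h4, if_neg h4]
        by_cases h5 : n % 5 = 0
        · rw [if_pos h5, if_pos h5, if_pos h5]
          norm_num
        · rw [if_neg h5, if_neg h5, if_neg h5]
          have h6 : 1 ≤ n ^ 2 := Nat.one_le_pow _ _ (by omega)
          rw [Nat.cast_sub h6, Nat.cast_pow, Nat.cast_one]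
          refine ⟨?_, rfl⟩
          have : (0 : ℝ) < (n : ℝ) ^ 2 - 1 := by nlinarith
          exact ne_of_gt this
    · have h1 : ¬ (isP n && decide (3 ≤ n)) = true := by
        intro h
        rw [Bool.and_eq_true] at h
        exact hp ((isP_iff h3 hn).1 h.1)
      have e1 : fN n = 1 := if_neg h1
      have e2 : fD n = 1 := if_neg h1
      have e3 : eP n = 1 := if_neg (fun h => hp h.1)
      rw [e1, e2, e3]
      norm_num
  · have h1 : ¬ (isP n && decide (3 ≤ n)) = true := by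
      intro h
      rw [Bool.and_eq_true, decide_eq_true_eq] at h
      exact h3 h.2
    have e1 : fN n = 1 := if_neg h1
    have e2 : fD n = 1 := if_neg h1
    have e3 : eP n = 1 := if_neg (fun h => h3 h.2)
    rw [e1, e2, e3]
    norm_num

theorem prod_comp {N : ℕ} (hN : N ≤ 1001) :
    (de N : ℝ) ≠ 0 ∧ ∏ n ∈ range N, eP n = nu N / de N := by
  induction N with
  | zero =>
    constructor
    · norm_num [de]
    · norm_num [nu, de]
  | succ N ih =>
    obtain ⟨h1, h2⟩ := ih (by omega)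
    obtain ⟨h3, h4⟩ := factor_eq (show N ≤ 1000 by omega)
    have e1 : nu (N + 1) = nu N * fN N := rfl
    have e2 : de (N + 1) = de N * fD N := rfl
    rw [prod_range_succ, h2, h4, e1, e2]
    push_cast
    exact ⟨mul_ne_zero h1 h3, div_mul_div_comm _ _ _ _⟩

/-- the corrections -/
noncomputable def EP (N : ℕ) : ℝ := ∏ n ∈ range N, eP n

theorem EP_1001 : 1.1448 ≤ EP 1001 ∧ EP 1001 ≤ 1.1449 := by
  obtain ⟨h1, h2⟩ := prod_comp (le_refl 1001)
  have h3 : (0 : ℝ) < de 1001 := lt_of_le_of_ne (Nat.cast_nonneg _) (Ne.symm h1)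
  unfold EP
  rw [h2]
  have h4 : (11448 : ℝ) * de 1001 ≤ 10000 * nu 1001 := by exact_mod_cast comp1
  have h5 : (10000 : ℝ) * nu 1001 ≤ 11449 * de 1001 := by exact_mod_cast comp2
  constructor
  · rw [le_div_iff₀ h3]
    linarith
  · rw [div_le_iff₀ h3]
    linarith

theorem eP_bd {n : ℕ} (hn : 1001 ≤ n) :
    1 - (1 / ((n : ℝ) - 2) - 1 / ((n : ℝ) - 1)) ≤ eP n ∧
    eP n ≤ 1 + (1 / ((n : ℝ) - 2) - 1 / ((n : ℝ) - 1)) := by
  have hx : (1001 : ℝ) ≤ n := by exact_mod_cast hn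
  unfold eP eR
  obtain ⟨x, hxn⟩ : ∃ x : ℝ, x = n := ⟨_, rfl⟩
  rw [← hxn] at hx ⊢
  have h1 : (0 : ℝ) < x - 1 := by linarith
  have h2 : (0 : ℝ) < x - 2 := by linarith
  have e1 : 1 / (x - 2) - 1 / (x - 1) = 1 / ((x - 2) * (x - 1)) := by
    field_simp
    ring
  rw [e1]
  have h3 : 0 < 1 / ((x - 2) * (x - 1)) := by positivity
  split_ifs with h4 h5 h6
  · have e2 : x * (x - 2) / (x - 1) ^ 2 = 1 - 1 / (x - 1) ^ 2 := by
      field_simp
      ring
    rw [e2]
    have h7 : 1 / (x - 1) ^ 2 ≤ 1 / ((x - 2) * (x - 1)) := by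
      apply one_div_le_one_div_of_le (by positivity)
      nlinarith
    have h8 : 0 < 1 / (x - 1) ^ 2 := by positivity
    constructor <;> linarith
  · constructor <;> linarith
  · have h9 : (0 : ℝ) < x ^ 2 - 1 := by nlinarith
    have e2 : x ^ 2 / (x ^ 2 - 1) = 1 + 1 / (x ^ 2 - 1) := by
      field_simp
      ring
    rw [e2]
    have h7 : 1 / (x ^ 2 - 1) ≤ 1 / ((x - 2) * (x - 1)) := by
      apply one_div_le_one_div_of_le (by positivity)
      nlinarith
    have h8 : 0 < 1 / (x ^ 2 - 1) := by positivity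
    constructor <;> linarith
  · constructor <;> linarith

theorem EP_tail {N : ℕ} (hN : 1001 ≤ N) :
    EP 1001 * (1 - (1 / 999 - 1 / ((N : ℝ) - 2))) ≤ EP N ∧
    EP N * (1 - (1 / 999 - 1 / ((N : ℝ) - 2))) ≤ EP 1001 := by
  induction N, hN using Nat.le_induction with
  | base =>
    have h1 : (1 - (1 / 999 - 1 / (((1001 : ℕ) : ℝ) - 2))) = (1 : ℝ) := by norm_num
    rw [h1, mul_one]
    exact ⟨le_rfl, le_rfl⟩
  | succ N hN ih =>
    obtain ⟨ih1, ih2⟩ := ih
    obtain ⟨h1, h2⟩ := eP_bd hN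
    have hx : (1001 : ℝ) ≤ N := by exact_mod_cast hN
    have hE : 0 < EP 1001 := by linarith [EP_1001.1]
    have e1 : EP (N + 1) = EP N * eP N := prod_range_succ _ _
    obtain ⟨t, ht⟩ : ∃ t, t = 1 / ((N : ℝ) - 2) - 1 / ((N : ℝ) - 1) := ⟨_, rfl⟩
    obtain ⟨s, hs⟩ : ∃ s, s = 1 / 999 - 1 / ((N : ℝ) - 2) := ⟨_, rfl⟩
    have e2 : 1 / 999 - 1 / (((N + 1 : ℕ) : ℝ) - 2) = s + t := by
      rw [ht, hs]
      push_cast
      ring
    have ht0 : 0 ≤ t := by
      rw [ht, sub_nonneg]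
      exact one_div_le_one_div_of_le (by linarith) (by linarith)
    have hs0 : 0 ≤ s := by
      rw [hs, sub_nonneg]
      exact one_div_le_one_div_of_le (by norm_num) (by linarith)
    have hst : s + t ≤ 1 / 999 := by
      rw [ht, hs]
      have : 0 < 1 / ((N : ℝ) - 1) := one_div_pos.2 (by linarith)
      linarith
    rw [← ht] at h1 h2
    rw [← hs] at ih1 ih2
    rw [e2, e1]
    have hEN : 0 ≤ EP N := le_trans (mul_nonneg hE.le (by linarith)) ih1
    constructor
    · calc EP 1001 * (1 - (s + t)) ≤ EP 1001 * ((1 - s) * (1 - t)) :=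
            mul_le_mul_of_nonneg_left (by nlinarith) hE.le
        _ = (EP 1001 * (1 - s)) * (1 - t) := by ring
        _ ≤ EP N * eP N := mul_le_mul ih1 h1 (by linarith) hEN
    · calc EP N * eP N * (1 - (s + t)) ≤ EP N * (1 + t) * (1 - (s + t)) :=
            mul_le_mul_of_nonneg_right (mul_le_mul_of_nonneg_left h2 hEN) (by linarith)
        _ = EP N * ((1 + t) * (1 - (s + t))) := by ring
        _ ≤ EP N * (1 - s) := mul_le_mul_of_nonneg_left (by nlinarith) hEN
        _ ≤ EP 1001 := ih2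

theorem EP_bounds {N : ℕ} (hN : 1001 ≤ N) : 1.1436 ≤ EP N ∧ EP N ≤ 1.1461 := by
  obtain ⟨h1, h2⟩ := EP_tail hN
  obtain ⟨h3, h4⟩ := EP_1001
  have hx : (1001 : ℝ) ≤ N := by exact_mod_cast hN
  have h5 : 0 < 1 / ((N : ℝ) - 2) := one_div_pos.2 (by linarith)
  have h6 : 1 / ((N : ℝ) - 2) ≤ 1 / 999 := one_div_le_one_div_of_le (by norm_num) (by linarith)
  obtain ⟨u, hu⟩ : ∃ u, u = 1 - (1 / 999 - 1 / ((N : ℝ) - 2)) := ⟨_, rfl⟩
  rw [← hu] at h1 h2
  have hu1 : 998 / 999 ≤ u := by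
    rw [hu]
    linarith
  have hu2 : 1.1448 * (998 / 999 : ℝ) ≤ EP 1001 * u :=
    mul_le_mul h3 hu1 (by norm_num) (by linarith)
  have h7 : (1.1436 : ℝ) ≤ EP N := by
    have : (1.1436 : ℝ) ≤ 1.1448 * (998 / 999 : ℝ) := by norm_num
    linarith
  refine ⟨h7, ?_⟩
  have h8 : EP N * (998 / 999) ≤ EP N * u := mul_le_mul_of_nonneg_left hu1 (by linarith)
  linarith

end Pool.Agent.N511.PN.NumP

namespace Pool.Agent.N511.PN

open Finset Filter Topology NumP

theorem num : NUM := by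
  intro L hL
  have h1 : ∀ z : ℕ, ∏ p ∈ (Icc 3 z).filter Nat.Prime, (1 - (jacobiSym 5 p : ℝ) / ((p : ℝ) - 1)) =
      ∏ n ∈ range (z + 1), gP n := by
    intro z
    unfold gP
    rw [← prod_filter]
    have h2 : (Icc 3 z).filter Nat.Prime = (range (z + 1)).filter (fun n => n.Prime ∧ 3 ≤ n) := by
      ext n
      simp only [mem_filter, mem_Icc, mem_range]
      constructor
      · rintro ⟨⟨h3, h4⟩, h5⟩
        exact ⟨by omega, h5, h3⟩
      · rintro ⟨h3, h4, h5⟩
        exact ⟨⟨h5, by omega⟩, h4⟩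
    rw [h2]
    refine prod_congr rfl fun n hn => ?_
    rw [mem_filter] at hn
    rw [jac_eq (hn.2.1.odd_of_ne_two (by omega))]
  have h2 : Tendsto (fun z : ℕ => ∏ n ∈ range (z + 1), gP n) atTop (𝓝 L) :=
    hL.congr h1
  have h3 : ∀ z : ℕ, 1000 ≤ z → ∏ n ∈ range (z + 1), gP n =
      2 / 3 * Real.exp (-∑ n ∈ range z, a0 (n + 1)) * EP (z + 1) := by
    intro z hz
    rw [prod_eq (by omega), sum_range_succ' a0, a0_zero, add_zero]
    rfl
  constructor
  · by_contra hcon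
    have hcon' : L ≤ 1.77 := not_lt.1 hcon
    have h4 : ∀ᶠ z : ℕ in atTop, ∏ n ∈ range (z + 1), gP n < 1.7702 :=
      h2.eventually (gt_mem_nhds (by linarith))
    have h5 : ∀ᶠ z : ℕ in atTop, -Real.log 2.3219 ≤ ∑ n ∈ range z, a0 (n + 1) := by
      filter_upwards [h4, eventually_ge_atTop 1000] with z h6 hz
      rw [h3 z hz] at h6
      have h7 := (EP_bounds (show 1001 ≤ z + 1 by omega)).1
      have h8 : Real.exp (-∑ n ∈ range z, a0 (n + 1)) ≤ 2.3219 := by
        by_contra hlt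
        push Not at hlt
        have h9 : 2 / 3 * 2.3219 * 1.1436 ≤
            2 / 3 * Real.exp (-∑ n ∈ range z, a0 (n + 1)) * EP (z + 1) := by
          apply mul_le_mul _ h7 (by norm_num) (by positivity)
          linarith
        norm_num at h9
        linarith
      have h9 := (Real.le_log_iff_exp_le (by norm_num)).2 h8
      linarith
    have h6 := main_le h5 (sm_bounds.mono fun N h => h.2)
    rw [Real.exp_neg, Real.exp_log (by norm_num)] at h6
    norm_num at h6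
  · by_contra hcon
    have hcon' : 1.78 ≤ L := not_lt.1 hcon
    have h4 : ∀ᶠ z : ℕ in atTop, 1.7799 < ∏ n ∈ range (z + 1), gP n :=
      h2.eventually (lt_mem_nhds (by linarith))
    have h5 : ∀ᶠ z : ℕ in atTop, ∑ n ∈ range z, a0 (n + 1) ≤ -Real.log 2.3294 := by
      filter_upwards [h4, eventually_ge_atTop 1000] with z h6 hz
      rw [h3 z hz] at h6
      obtain ⟨h7a, h7⟩ := EP_bounds (show 1001 ≤ z + 1 by omega)
      have h8 : 2.3294 ≤ Real.exp (-∑ n ∈ range z, a0 (n + 1)) := by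
        by_contra hlt
        push Not at hlt
        have h9 : 2 / 3 * Real.exp (-∑ n ∈ range z, a0 (n + 1)) * EP (z + 1) ≤
            2 / 3 * 2.3294 * 1.1461 := by
          apply mul_le_mul _ h7 (by linarith) (by norm_num)
          linarith
        norm_num at h9
        linarith
      have h9 := (Real.log_le_iff_le_exp (by norm_num)).2 h8
      linarith
    have h6 := main_ge h5 (sm_bounds.mono fun N h => h.1)
    rw [Real.exp_neg, Real.exp_log (by norm_num)] at h6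
    norm_num at h6

end Pool.Agent.N511.PN
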