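import Pool.Agent.N511.PN.LOC2
import Pool.Agent.N511.PN.NUM
import Pool.Agent.N511.LL.B
import Pool.Agent.N791.U.Final

/-!
# Project PN: both signs together
-/

set_option autoImplicit false

namespace Pool.Agent.N511.PN

open Finset Filter Topology
open Pool.Agent.N511.LL (T PP PR loc B2)

theorem con (Λ : ℝ) (hΛ : 1 ≤ Λ) (ε0 η : ℝ) (hε0 : 0 < ε0) (hη : 0 < η) : Con Λ (5 / 6 + ε0) η := by
  obtain ⟨θ, hθ, x0, h⟩ := Pool.Agent.N791.U.conclU 1 one_pos Λ hΛ ε0 hε0 η hη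
  refine ⟨x0, fun x hx b C h1 h2 h3 => ?_⟩
  obtain ⟨Ex, k1, k2, k3⟩ := h x hx b C h1 h2 h3
  refine ⟨Ex, k1, k2, fun c hc hcE hadm => ?_⟩
  obtain ⟨S, m1, m2, m3, m4⟩ := k3 c hc hcE hadm
  exact ⟨S, m1, m2, m4⟩

theorem hs_all {σ : ℤ} (hσ : σ = 1 ∨ σ = -1) : HS σ := by
  have h5 : (1 : ℝ) ≤ 5 := by norm_num
  have h := fun ε0 η h1 h2 => i0u Pool.Agent.N511.LL.b2 h5 (Pool.Agent.N791.U.x8U 1 one_pos 5 h5)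
    (Pool.Agent.N791.U.t_LIU 1 one_pos 5 h5) (fun ε0 η h1 h2 => con 5 h5 ε0 η h1 h2) ε0 η h1 h2
  rcases hσ with rfl | rfl
  · exact hs_pos h5 h
  · exact hs_neg h

open Classical in
theorem both {c₀ : ℤ} (hc₀ : Odd c₀) {L : ℝ}
    (hL0 : 0 < L) (hL : Tendsto (fun z => T (9 - 4 * c₀) z) atTop (𝓝 L)) {ε κ δ : ℝ} (hε : 0 < ε) (hκ : 0 < κ)
    (hδ : 0 < δ) : ∃ y0 : ℕ, ∀ y : ℕ, y0 ≤ y → ∀ q : ℕ, 1 ≤ q →
    (∀ p : ℕ, p.Prime → (p ∣ q ↔ p ≤ y)) → ∃ N0 : ℕ, ∀ N : ℕ, N0 ≤ N → ∀ C : ℕ,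
    (N : ℝ) ^ (5 / 6 + ε) ≤ C → C ≤ N →
      (#((Icc (-(C : ℤ)) C).filter (fun c : ℤ => c ≡ c₀ [ZMOD q] ∧ ¬ ∀ n : ℕ, κ * N ≤ n → n ≤ N →
        |(cz c n : ℝ) - L * Nat.primeCounting n| ≤ δ * Nat.primeCounting n)) : ℝ) ≤ δ * (C / q) := by
  obtain ⟨y1, h1⟩ := loc_sign Pool.Agent.N511.LL.b2 (σ := 1) (Or.inl rfl) (hs_all (Or.inl rfl)) hc₀ hL0 hL hε hκ hδ
  obtain ⟨y2, h2⟩ := loc_sign Pool.Agent.N511.LL.b2 (σ := -1) (Or.inr rfl) (hs_all (Or.inr rfl)) hc₀ hL0 hL hε hκ hδ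
  refine ⟨y1 + y2 + 2, fun y hy q hq1 hq => ?_⟩
  obtain ⟨N1, h1⟩ := h1 y (by omega) q hq1 hq
  obtain ⟨N2, h2⟩ := h2 y (by omega) q hq1 hq
  refine ⟨N1 + N2, fun N hN C hC1 hC2 => ?_⟩
  have k1 := h1 N (by omega) C hC1 hC2
  have k2 := h2 N (by omega) C hC1 hC2
  obtain ⟨S1, hS1⟩ : ∃ S : Finset ℕ, S = (Icc 1 C).filter (fun c : ℕ => (1 : ℤ) * c ≡ c₀ [ZMOD q] ∧
    ¬ ∀ n : ℕ, κ * N ≤ n → n ≤ N → |(cz (1 * c) n : ℝ) - L * Nat.primeCounting n| ≤ δ * Nat.primeCounting n) :=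
    ⟨_, rfl⟩
  obtain ⟨S2, hS2⟩ : ∃ S : Finset ℕ, S = (Icc 1 C).filter (fun c : ℕ => (-1 : ℤ) * c ≡ c₀ [ZMOD q] ∧
    ¬ ∀ n : ℕ, κ * N ≤ n → n ≤ N → |(cz (-1 * c) n : ℝ) - L * Nat.primeCounting n| ≤ δ * Nat.primeCounting n) :=
    ⟨_, rfl⟩
  rw [← hS1] at k1
  rw [← hS2] at k2
  have hsub : (Icc (-(C : ℤ)) C).filter (fun c : ℤ => c ≡ c₀ [ZMOD q] ∧ ¬ ∀ n : ℕ, κ * N ≤ n → n ≤ N →
      |(cz c n : ℝ) - L * Nat.primeCounting n| ≤ δ * Nat.primeCounting n) ⊆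
      S1.image (fun c : ℕ => (1 : ℤ) * c) ∪ S2.image (fun c : ℕ => (-1 : ℤ) * c) := by
    intro c hc
    rw [mem_filter, mem_Icc] at hc
    obtain ⟨⟨hc1, hc2⟩, hcm, hbad⟩ := hc
    have hc0 : c ≠ 0 := by
      rintro rfl
      have h2q : (2 : ℤ) ∣ q := by exact_mod_cast (hq 2 Nat.prime_two).2 (by omega)
      have h3 : 0 ≡ c₀ [ZMOD 2] := hcm.of_dvd h2q
      have h4 : (0 : ℤ) % 2 = c₀ % 2 := h3
      obtain ⟨j, hj⟩ := hc₀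
      omega
    rw [mem_union, mem_image, mem_image]
    rcases lt_or_gt_of_ne hc0 with hneg | hpos
    · right
      have e : (-1 : ℤ) * ((-c).toNat : ℤ) = c := by omega
      refine ⟨(-c).toNat, ?_, e⟩
      rw [hS2, mem_filter, mem_Icc, e]
      exact ⟨by omega, hcm, hbad⟩
    · left
      have e : (1 : ℤ) * (c.toNat : ℤ) = c := by omega
      refine ⟨c.toNat, ?_, e⟩
      rw [hS1, mem_filter, mem_Icc, e]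
      exact ⟨by omega, hcm, hbad⟩
  have h3 := (card_le_card hsub).trans (card_union_le _ _)
  have h4 : #(S1.image (fun c : ℕ => (1 : ℤ) * c)) ≤ #S1 := card_image_le
  have h5 : #(S2.image (fun c : ℕ => (-1 : ℤ) * c)) ≤ #S2 := card_image_le
  have h6 : (#((Icc (-(C : ℤ)) C).filter (fun c : ℤ => c ≡ c₀ [ZMOD q] ∧ ¬ ∀ n : ℕ, κ * N ≤ n → n ≤ N →
      |(cz c n : ℝ) - L * Nat.primeCounting n| ≤ δ * Nat.primeCounting n)) : ℝ) ≤ #S1 + #S2 := by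
    exact_mod_cast (by omega : #((Icc (-(C : ℤ)) C).filter (fun c : ℤ => c ≡ c₀ [ZMOD q] ∧ ¬ ∀ n : ℕ, κ * N ≤ n → n ≤ N →
      |(cz c n : ℝ) - L * Nat.primeCounting n| ≤ δ * Nat.primeCounting n)) ≤ #S1 + #S2)
  refine h6.trans ?_
  linarith

end Pool.Agent.N511.PN
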