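import Pool.Agent.N511.LL.I0
import Pool.Agent.N791.U.Stm
import Pool.Agent.N791.U.Tr

/-!
# Project PN: the prime counts of `m² + b m + c` in terms of the truncated products, uniformly in `b² ≤ Λ C`
(after LL/I0 of helper755), and the case of negative constant terms
-/

set_option autoImplicit false

namespace Pool.Agent.N511.PN

open Finset Filter Topology
open Pool.Agent.N511.LL (T PP PR loc B2)
open Pool.Agent.N792 (Admissible eps gcdProd partialC fv)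
open Pool.Agent.N791.U (Unif X8U LIU)

/-- the uniform Hardy-Littlewood formula (`ConclU` for `a = 1`) -/
def Con (Λ γ η : ℝ) : Prop :=
  ∃ x0 : ℕ, ∀ x : ℕ, x0 ≤ x → ∀ b : ℤ, ∀ C : ℕ, (b : ℝ) ^ 2 ≤ Λ * C → (x : ℝ) ^ γ ≤ C → C ≤ x →
    ∃ Ex ⊆ Icc 1 C, (#Ex : ℝ) ≤ η * C ∧ ∀ c ∈ Icc 1 C, c ∉ Ex → Admissible 1 b c →
      ∃ S : ℝ, 0 < S ∧ Tendsto (fun z => partialC 1 b c z) atTop (𝓝 S) ∧
        ∀ u v : ℕ, u ≤ v → v ≤ x →
        |(#((Ioc u v).filter (fun m : ℕ => (fv 1 b c m).toNat.Prime)) : ℝ) -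
          eps 1 b * S * gcdProd 1 b * ∑ m ∈ Ioc u v, 1 / Real.log (((1 : ℤ) : ℝ) * m ^ 2 + b * m + c)| ≤
        η * (eps 1 b * S * gcdProd 1 b * x / Real.log x)

/-- the formula with the truncated product -/
def TF (η : ℝ) (y : ℕ) (x : ℕ) (b c : ℤ) : Prop := Admissible 1 b c → ∀ u v : ℕ, u ≤ v → v ≤ x →
  |(#((Ioc u v).filter (fun m : ℕ => (fv 1 b c m).toNat.Prime)) : ℝ) -
    eps 1 b * T (b ^ 2 - 4 * c) y * (((v : ℝ) - u) / (2 * Real.log x))| ≤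
      η * (T (b ^ 2 - 4 * c) y * (x / Real.log x))

theorem eps_le (b : ℤ) : 1 ≤ eps 1 b ∧ eps 1 b ≤ 2 := by
  unfold eps
  split_ifs <;> norm_num

/-- **the uniform formula with the truncated product** -/
theorem i0u (hB : B2) {Λ : ℝ} (hΛ : 1 ≤ Λ) (hX8 : X8U 1 Λ) (hLI : LIU 1 Λ)
    (hCon : ∀ ε0 η : ℝ, 0 < ε0 → 0 < η → Con Λ (5 / 6 + ε0) η) (ε0 η : ℝ) (hε0 : 0 < ε0) (hη : 0 < η) :
    ∃ y0 : ℕ, ∀ y : ℕ, y0 ≤ y → Unif Λ (5 / 6 + ε0) η (TF η y) := by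
  classical
  obtain ⟨η1, hη1⟩ : ∃ η1 : ℝ, η1 = min (η / 20) (1 / 20) := ⟨_, rfl⟩
  have hη10 : 0 < η1 := by rw [hη1]; positivity
  have hη1a : η1 ≤ η / 20 := by rw [hη1]; exact min_le_left _ _
  have hη1b : η1 ≤ 1 / 20 := by rw [hη1]; exact min_le_right _ _
  obtain ⟨y0, hy02, hy0⟩ := hB η1 hη10
  refine ⟨y0, fun y hy => ?_⟩
  obtain ⟨x1, hx1⟩ := hCon ε0 η1 hε0 hη10
  obtain ⟨x2, hx2⟩ := hX8 1 13
  obtain ⟨x3, hx3⟩ := hLI η1 hη10
  obtain ⟨x4, hx4⟩ := eventually_atTop.1 (Pool.Agent.N792.Shp.log_ge (2 + 1 / η1 + y))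
  obtain ⟨x5, hx5⟩ := eventually_atTop.1 (Pool.Agent.N792.Shp.log_pow_le 13 1 (1 / 5) (by norm_num))
  refine ⟨x1 + x2 + x3 + x4 + x5 + 2, fun x hx b C hbC hC1 hC2 => ?_⟩
  have b4 := hx4 x (by omega)
  have b5 := hx5 x (by omega)
  rw [one_mul] at b5
  obtain ⟨L, hL⟩ : ∃ L : ℝ, L = Real.log x := ⟨_, rfl⟩
  have hx0 : (0 : ℝ) < x := by exact_mod_cast (by omega : 0 < x)
  have hx1r : (1 : ℝ) ≤ x := by exact_mod_cast (by omega : 1 ≤ x)
  have hCx : (C : ℝ) ≤ x := by exact_mod_cast hC2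
  have hbx : (b : ℝ) ^ 2 ≤ Λ * x := hbC.trans (mul_le_mul_of_nonneg_left hCx (by linarith))
  rw [← hL] at b4 b5
  have hinv : 0 < 1 / η1 := by positivity
  have hyr : (0 : ℝ) ≤ y := Nat.cast_nonneg y
  have hL2 : 2 ≤ L := by linarith
  have hLη : 1 / η1 ≤ L := by linarith
  have hLy : (y : ℝ) ≤ L := by linarith
  have hL0 : 0 < L := by linarith
  -- the parameter `w`
  obtain ⟨w, hw⟩ : ∃ w : ℕ, w = ⌈L ^ 12⌉₊ := ⟨_, rfl⟩
  have hw1 : L ^ 12 ≤ w := by rw [hw]; exact Nat.le_ceil _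
  have hL12 : 1 ≤ L ^ 12 := one_le_pow₀ (by linarith)
  have hw2 : (w : ℝ) ≤ L ^ 13 := by
    have h1 : (w : ℝ) < L ^ 12 + 1 := by
      rw [hw]
      exact Nat.ceil_lt_add_one (by positivity)
    have h2 : L ^ 13 = L * L ^ 12 := by ring
    rw [h2]
    nlinarith
  have hw3 : (w : ℝ) ≤ (x : ℝ) ^ (1 / 5 : ℝ) := hw2.trans b5
  have hyw : y ≤ w := by
    have h1 : (y : ℝ) ≤ w := by
      have h2 : L ≤ L ^ 12 := le_self_pow₀ (by linarith) (by norm_num)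
      linarith
    exact_mod_cast h1
  have hy2 : 2 ≤ y := hy02.trans hy
  have hw2' : 2 ≤ w := hy2.trans hyw
  have hwC : w ^ 3 ≤ C := by
    have h1 : ((w : ℝ)) ^ 3 ≤ C := by
      calc (w : ℝ) ^ 3 ≤ ((x : ℝ) ^ (1 / 5 : ℝ)) ^ 3 := pow_le_pow_left₀ (by positivity) hw3 3
        _ = (x : ℝ) ^ (3 / 5 : ℝ) := by
            rw [← Real.rpow_natCast, ← Real.rpow_mul hx0.le]
            norm_num
        _ ≤ (x : ℝ) ^ (5 / 6 + ε0) := Real.rpow_le_rpow_of_exponent_le hx1r (by linarith)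
        _ ≤ C := hC1
    exact_mod_cast h1
  have hC12 : (x : ℝ) ^ (1 / 2 : ℝ) ≤ C :=
    (Real.rpow_le_rpow_of_exponent_le hx1r (by linarith)).trans hC1
  have hC0 : (0 : ℝ) < C := lt_of_lt_of_le (Real.rpow_pos_of_pos hx0 _) hC12
  obtain ⟨E1, hE1a, hE1b, hE1c⟩ := hx1 x (by omega) b C hbC hC1 hC2
  obtain ⟨E2, hE2a, hE2b, hE2c⟩ := hx2 x (by omega) b hbx C hC12 hC2 w w (by rw [← hL]; exact hw1)
    (by rw [← hL]; exact hw2) le_rfl hw3
  rw [← hL, pow_one] at hE2b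
  have hB3 := hy0 y hy w hyw C hwC 4 (b ^ 2 - 4 * C) (by norm_num)
  obtain ⟨B, hBd⟩ : ∃ B : Finset ℕ, B = (range C).filter (fun i : ℕ => η1 < |∏ p ∈ PR 4 y w,
    loc ((b ^ 2 - 4 * C) + ((4 : ℕ) : ℤ) * i) p - 1|) := ⟨_, rfl⟩
  have hB4 : (#B : ℝ) ≤ η1 * C := by
    rw [hBd]
    exact hB3
  obtain ⟨E3, hE3⟩ : ∃ E3 : Finset ℕ, E3 = B.image (fun i => C - i) := ⟨_, rfl⟩
  have hE3b : (#E3 : ℝ) ≤ η1 * C := by
    refine le_trans ?_ hB4
    rw [hE3]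
    exact_mod_cast card_image_le
  refine ⟨(E1 ∪ E2 ∪ E3) ∩ Icc 1 C, inter_subset_right, ?_, ?_⟩
  · have h1 : (#((E1 ∪ E2 ∪ E3) ∩ Icc 1 C) : ℝ) ≤ #E1 + #E2 + #E3 := by
      have h2 := (card_le_card (inter_subset_left (s₁ := E1 ∪ E2 ∪ E3) (s₂ := Icc 1 C))).trans
        ((card_union_le (E1 ∪ E2) E3).trans (Nat.add_le_add_right (card_union_le E1 E2) _))
      exact_mod_cast h2
    have h2 : (C : ℝ) / L ≤ η1 * C := by
      rw [div_le_iff₀ hL0]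
      have h4 : 1 ≤ η1 * L := by
        rw [div_le_iff₀ hη10] at hLη
        linarith
      nlinarith
    nlinarith
  · intro c hc hcE hadm u v huv hv
    rw [mem_inter, mem_union, mem_union, not_and'] at hcE
    have hcE' := hcE hc
    rw [not_or, not_or] at hcE'
    obtain ⟨⟨g1, g2⟩, g3⟩ := hcE'
    have hcI := mem_Icc.1 hc
    obtain ⟨S, hS0, hSt, hb1⟩ := hE1c c hc g1 hadm
    obtain ⟨-, hX8'⟩ := hE2c c hc g2
    obtain ⟨S', hS0', hSt', hb2⟩ := hX8' hadm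
    have hSS : S' = S := tendsto_nhds_unique hSt' hSt
    rw [hSS, Pool.Agent.N792.SingTail.V_ratio hadm hw2' (by exact_mod_cast (by omega : 1 ≤ w)),
      Pool.Agent.N511.LL.I0aux.gcd_val, ← hL, pow_one, mul_one, mul_one, Pool.Agent.N511.LL.I0aux.T_eq] at hb2
    obtain ⟨D, hD⟩ : ∃ D : ℤ, D = b ^ 2 - 4 * c := ⟨_, rfl⟩
    rw [← hD] at hb2 ⊢
    obtain ⟨e1, e2⟩ := eps_le b
    have ht : 0 < T D y := by
      rw [hD, ← Pool.Agent.N511.LL.I0aux.T_eq]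
      exact Pool.Agent.N792.SingTail.partialC_pos _ _ _ _
    have hP : |∏ p ∈ PR 4 y w, loc D p - 1| ≤ η1 := by
      by_contra h1
      push Not at h1
      apply g3
      rw [hE3, mem_image]
      refine ⟨C - c, ?_, by omega⟩
      rw [hBd, mem_filter, mem_range]
      refine ⟨by omega, ?_⟩
      have e : (b ^ 2 - 4 * C) + ((4 : ℕ) : ℤ) * ((C - c : ℕ) : ℤ) = D := by
        rw [hD, Nat.cast_sub hcI.2]
        push_cast
        ring
      rw [e]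
      exact h1
    have hSw : |S - T D y * ∏ p ∈ PR 4 y w, loc D p| ≤ T D y * (∏ p ∈ PR 4 y w, loc D p) / L := by
      rw [← Pool.Agent.N511.LL.I0aux.T_split D hy2 hyw]
      have h1 : eps 1 b * S - eps 1 b * T D w = eps 1 b * (S - T D w) := by ring
      rw [h1, abs_mul, abs_of_pos (by linarith : (0 : ℝ) < eps 1 b), mul_div_assoc] at hb2
      exact le_of_mul_le_mul_left hb2 (by linarith)
    have hSt1 := Pool.Agent.N511.LL.I0aux.real_step ht hη10 hη1b hP hSw hLη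
    have k1 := hb1 u v huv hv
    have k2 := hx3 x (by omega) b hbx c (mem_Icc.2 ⟨hcI.1, hcI.2.trans hC2⟩) u v huv hv
    rw [Pool.Agent.N511.LL.I0aux.gcd_val, mul_one, ← hL] at k1
    rw [← hL] at k2
    obtain ⟨Sg, hSg⟩ : ∃ Sg : ℝ, Sg = ∑ m ∈ Ioc u v,
      1 / Real.log (((1 : ℤ) : ℝ) * m ^ 2 + (b : ℝ) * m + (c : ℝ)) := ⟨_, rfl⟩
    have hSg' : Sg = ∑ m ∈ Ioc u v,
      1 / Real.log (((1 : ℤ) : ℝ) * m ^ 2 + (b : ℝ) * m + ((c : ℤ) : ℝ)) := by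
      rw [hSg]
      push_cast
      rfl
    have k1' : |(#((Ioc u v).filter (fun m : ℕ => (fv 1 b c m).toNat.Prime)) : ℝ) - eps 1 b * S * Sg| ≤
        η1 * (eps 1 b * S * (x / L)) := by
      rw [hSg']
      refine k1.trans (le_of_eq ?_)
      ring
    have k2' : |Sg - ((v : ℝ) - u) / (2 * L)| ≤ η1 * (x / L) := by
      rw [hSg']
      exact k2
    have huvr : (u : ℝ) ≤ v := by exact_mod_cast huv
    have hvx : (v : ℝ) ≤ x := by exact_mod_cast hv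
    have hu0 : (0 : ℝ) ≤ u := Nat.cast_nonneg u
    have hfin := Pool.Agent.N511.LL.I0aux.real_fin (X := (x : ℝ) / L) (e := eps 1 b) (v := (v : ℝ) - u)
      ht hη10 hη1b e1 e2 hL0 rfl (by positivity) (by linarith) (by
        rw [div_div, mul_comm L 2]
        exact div_le_div_of_nonneg_right (by linarith) (by positivity)) hSt1 k1' k2'
    rw [← hL]
    refine hfin.trans ?_
    apply mul_le_mul_of_nonneg_right (by linarith)
    positivity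

end Pool.Agent.N511.PN
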