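import Pool.Agent.N511.LL.Stm

/-!
# Project PN: thin families around the polynomial `k² + 3k + 1` (statements)
-/

set_option autoImplicit false

namespace Pool.Agent.N511.PN

open Finset Filter Topology
open Classical in
section

/-- the number of `1 ≤ k ≤ n` for which `k² + 3k + c` is prime -/
def count (c n : ℕ) : ℕ := #((Icc 1 n).filter (fun k : ℕ => (k ^ 2 + 3 * k + c).Prime))

/-- the partial products of the constant of `k² + 3k + c` -/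
noncomputable def part (c z : ℕ) : ℝ :=
  ∏ p ∈ (Icc 3 z).filter Nat.Prime, (1 - (jacobiSym (9 - 4 * (c : ℤ)) p : ℝ) / ((p : ℝ) - 1))

/-- NUM: the value of the constant of `k² + 3k + 1` -/
def NUM : Prop := ∀ L : ℝ, Tendsto (fun z : ℕ => ∏ p ∈ (Icc 3 z).filter Nat.Prime,
  (1 - (jacobiSym 5 p : ℝ) / ((p : ℝ) - 1))) atTop (𝓝 L) → 1.77 < L ∧ L < 1.78

/-- LOC: for almost all `c ≡ c₀ (mod q)` the ratio is the one expected for `c₀` -/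
def LOC : Prop := ∀ c₀ : ℕ, Odd c₀ → ∃ L : ℝ, 0 < L ∧ Tendsto (part c₀) atTop (𝓝 L) ∧
  ∀ ε κ δ : ℝ, 0 < ε → 0 < κ → 0 < δ → ∃ y0 : ℕ, ∀ y : ℕ, y0 ≤ y → ∀ q : ℕ, 1 ≤ q →
    (∀ p : ℕ, p.Prime → (p ∣ q ↔ p ≤ y)) → ∃ N0 : ℕ, ∀ N : ℕ, N0 ≤ N → ∀ C : ℕ,
    (N : ℝ) ^ (5 / 6 + ε) ≤ C → C ≤ N →
      (#((Icc 1 C).filter (fun c : ℕ => c ≡ c₀ [MOD q] ∧ ¬ ∀ n : ℕ, κ * N ≤ n → n ≤ N →
        |(count c n : ℝ) - L * Nat.primeCounting n| ≤ δ * Nat.primeCounting n)) : ℝ) ≤ δ * (C / q)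

/-- LAW: the limit law for odd `c` -/
def LAW : Prop := ∃ G : ℝ → ℝ, Continuous G ∧ (∀ t ≤ 0, G t = 0) ∧ StrictMonoOn G (Set.Ici 0) ∧
  Tendsto G atTop (𝓝 1) ∧
  (∀ ε : ℝ, 0 < ε → ∃ y0 : ℕ, ∀ y : ℕ, y0 ≤ y → ∀ t : ℝ, |Pool.Agent.N511.LL.Gy y t - G t| ≤ ε) ∧
  ∀ ε η : ℝ, 0 < ε → 0 < η → ∃ N0 : ℕ, ∀ N : ℕ, N0 ≤ N → ∀ C : ℕ,
    (N : ℝ) ^ (5 / 6 + ε) ≤ C → C ≤ N → ∀ t : ℝ,
      |(#((Icc 1 C).filter (fun c : ℕ => Odd c ∧ (count c N : ℝ) ≤ t * Nat.primeCounting N)) : ℝ) -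
        G t * (C / 2)| ≤ η * C

end

end Pool.Agent.N511.PN
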