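import Pool.Agent.N511.LL.J0
import Pool.Agent.N511.PN.Stm
import Pool.Agent.Cov.PNT

/-!
# PN/LAW: the limit law for the primes `k² + 3k + c` (helper694)
-/

set_option autoImplicit false
set_option linter.unusedVariables false

namespace Pool.Agent.N511.PN

open Finset Filter Topology
open Pool.Agent.N511.LL

namespace LawAux

theorem cop8 (y : ℕ) : Nat.Coprime 8 (Q y) := by
  unfold Q
  apply Nat.Coprime.prod_right
  intro p hp
  have h1 := J0aux.mem_PP.1 hp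
  have h2 : Nat.Coprime (2 ^ 3) p :=
    Nat.Coprime.pow_left 3 ((Nat.coprime_primes Nat.prime_two h1.2).2 (by omega))
  exact h2

theorem fac_pos {y p : ℕ} (hp : p ∈ PP y) : 0 < 1 - 1 / ((p : ℝ) - 1) := by
  have h1 := (J0aux.mem_PP.1 hp).1.1
  have h2 : (3 : ℝ) ≤ p := by exact_mod_cast h1
  have h3 : 1 / ((p : ℝ) - 1) ≤ 1 / 2 := one_div_le_one_div_of_le (by norm_num) (by linarith)
  linarith

/-- lower bound of the truncated product, uniform in `d` -/
theorem T_ge (d : ℤ) (y : ℕ) : ∏ p ∈ PP y, (1 - 1 / ((p : ℝ) - 1)) ≤ T d y := by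
  unfold T
  apply Finset.prod_le_prod
  · intro p hp
    exact (fac_pos hp).le
  · intro p hp
    have h1 := (J0aux.mem_PP.1 hp).1.1
    have h2 : (3 : ℝ) ≤ p := by exact_mod_cast h1
    unfold loc
    have h3 : (jacobiSym d p : ℝ) ≤ 1 := by
      rcases jacobiSym.trichotomy d p with h | h | h <;> rw [h] <;> norm_num
    have h4 : (jacobiSym d p : ℝ) / ((p : ℝ) - 1) ≤ 1 / ((p : ℝ) - 1) :=
      div_le_div_of_nonneg_right h3 (by linarith)
    linarith

theorem Tmin_pos (y : ℕ) : 0 < ∏ p ∈ PP y, (1 - 1 / ((p : ℝ) - 1)) :=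
  Finset.prod_pos fun p hp => fac_pos hp

/-- comparison of the counts for `k² + 3k + (c + 2)` and `m² + m + c` -/
theorem count_cmp (c N : ℕ) :
    count (c + 2) N ≤ #((Icc 1 (N + 1)).filter (fun m : ℕ => (m ^ 2 + 1 * m + c).Prime)) ∧
    #((Icc 1 (N + 1)).filter (fun m : ℕ => (m ^ 2 + 1 * m + c).Prime)) ≤ count (c + 2) N + 1 := by
  unfold count
  have hk : ∀ k : ℕ, (k + 1) ^ 2 + 1 * (k + 1) + c = k ^ 2 + 3 * k + (c + 2) := by
    intro k; ring
  constructor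
  · apply Finset.card_le_card_of_injOn (fun k => k + 1)
    · intro k hk1
      rw [Finset.mem_coe, Finset.mem_filter, Finset.mem_Icc] at hk1
      rw [Finset.mem_coe, Finset.mem_filter, Finset.mem_Icc]
      show (1 ≤ k + 1 ∧ k + 1 ≤ N + 1) ∧ ((k + 1) ^ 2 + 1 * (k + 1) + c).Prime
      refine ⟨⟨by omega, by omega⟩, ?_⟩
      rw [hk]
      exact hk1.2
    · intro a _ b _ hab
      simpa using hab
  · have h1 : (Icc 1 (N + 1)).filter (fun m : ℕ => (m ^ 2 + 1 * m + c).Prime) ⊆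
        insert 1 (((Icc 1 N).filter (fun k : ℕ => (k ^ 2 + 3 * k + (c + 2)).Prime)).image
          (fun k => k + 1)) := by
      intro m hm
      rw [Finset.mem_filter, Finset.mem_Icc] at hm
      rw [Finset.mem_insert]
      rcases Nat.eq_or_lt_of_le hm.1.1 with h | h
      · exact Or.inl h.symm
      · right
        rw [Finset.mem_image]
        refine ⟨m - 1, ?_, by omega⟩
        rw [Finset.mem_filter, Finset.mem_Icc]
        refine ⟨⟨by omega, by omega⟩, ?_⟩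
        rw [← hk]
        have h2 : m - 1 + 1 = m := by omega
        rw [h2]
        exact hm.2
    refine le_trans (Finset.card_le_card h1) ?_
    refine le_trans (Finset.card_insert_le _ _) ?_
    exact Nat.add_le_add_right Finset.card_image_le 1

theorem count_abs (c N : ℕ) (A E : ℝ)
    (h : |(#((Icc 1 (N + 1)).filter (fun m : ℕ => (m ^ 2 + 1 * m + c).Prime)) : ℝ) - A| ≤ E) :
    |(count (c + 2) N : ℝ) - A| ≤ E + 1 := by
  have hcc := count_cmp c N
  have hcc1 : (count (c + 2) N : ℝ) ≤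
      (#((Icc 1 (N + 1)).filter (fun m : ℕ => (m ^ 2 + 1 * m + c).Prime)) : ℝ) := by
    exact_mod_cast hcc.1
  have hcc2 : (#((Icc 1 (N + 1)).filter (fun m : ℕ => (m ^ 2 + 1 * m + c).Prime)) : ℝ) ≤
      (count (c + 2) N : ℝ) + 1 := by
    exact_mod_cast hcc.2
  have h9 := abs_le.1 h
  rw [abs_le]
  constructor <;> linarith [h9.1, h9.2]

/-- the odd members of `[1, C]` and the progression -/
theorem card_odd (C : ℕ) (hC : 1 ≤ C) (P : ℕ → Prop) [DecidablePred P] :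
    #((range ((C - 1) / 2)).filter (fun i => P (2 * ((C - 1) / 2 - i) + 1))) ≤
      #((Icc 1 C).filter (fun c => Odd c ∧ P c)) ∧
    #((Icc 1 C).filter (fun c => Odd c ∧ P c)) ≤
      #((range ((C - 1) / 2)).filter (fun i => P (2 * ((C - 1) / 2 - i) + 1))) + 1 := by
  obtain ⟨M, hM⟩ : ∃ M, M = (C - 1) / 2 := ⟨_, rfl⟩
  rw [← hM]
  constructor
  · apply Finset.card_le_card_of_injOn (fun i => 2 * (M - i) + 1)
    · intro i hi
      rw [Finset.mem_coe, Finset.mem_filter, Finset.mem_range] at hi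
      rw [Finset.mem_coe, Finset.mem_filter, Finset.mem_Icc]
      show (1 ≤ 2 * (M - i) + 1 ∧ 2 * (M - i) + 1 ≤ C) ∧ Odd (2 * (M - i) + 1) ∧
        P (2 * (M - i) + 1)
      exact ⟨⟨by omega, by omega⟩, ⟨M - i, rfl⟩, hi.2⟩
    · intro a ha b hb hab
      rw [Finset.mem_coe, Finset.mem_filter, Finset.mem_range] at ha hb
      have hab' : 2 * (M - a) + 1 = 2 * (M - b) + 1 := hab
      omega
  · have h1 : (Icc 1 C).filter (fun c => Odd c ∧ P c) ⊆
        insert 1 (((range M).filter (fun i => P (2 * (M - i) + 1))).image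
          (fun i => 2 * (M - i) + 1)) := by
      intro c hc
      rw [Finset.mem_filter, Finset.mem_Icc] at hc
      obtain ⟨⟨hc1, hc2⟩, ⟨k, hk⟩, hP⟩ := hc
      rw [Finset.mem_insert]
      rcases Nat.eq_zero_or_pos k with h | h
      · left; omega
      · right
        rw [Finset.mem_image]
        have h2 : 2 * (M - (M - k)) + 1 = c := by omega
        refine ⟨M - k, ?_, h2⟩
        rw [Finset.mem_filter, Finset.mem_range]
        refine ⟨by omega, ?_⟩
        rw [h2]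
        exact hP
    refine le_trans (Finset.card_le_card h1) ?_
    refine le_trans (Finset.card_insert_le _ _) ?_
    exact Nat.add_le_add_right Finset.card_image_le 1

theorem G_abs {G : ℝ → ℝ} (hG : IsG G) (t : ℝ) : |G t| ≤ 2 := by
  obtain ⟨y0, hy0⟩ := hG 1 one_pos
  have h1 := hy0 y0 le_rfl t
  have h2 : 0 ≤ Gy y0 t := by unfold Gy; positivity
  have h3 : Gy y0 t ≤ 1 := by
    unfold Gy
    apply div_le_one_of_le₀
    · refine Nat.cast_le.2 ?_
      refine le_trans (Finset.card_filter_le _ _) ?_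
      rw [Finset.card_range]
    · positivity
  have h4 := abs_le.1 h1
  rw [abs_le]
  constructor <;> linarith [h4.1, h4.2]

theorem log_div : Tendsto (fun x : ℝ => Real.log x / x) atTop (𝓝 0) := by
  have := Real.isLittleO_log_id_atTop.tendsto_div_nhds_zero
  simpa using this

/-- the prime number theorem in the form needed -/
theorem pnt : Tendsto (fun N : ℕ => (((N + 1 : ℕ) : ℝ) / Real.log ((N + 1 : ℕ) : ℝ)) /
    (Nat.primeCounting N : ℝ)) atTop (𝓝 1) := by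
  have hc : Tendsto (fun N : ℕ => ((N + 1 : ℕ) : ℝ)) atTop atTop :=
    (tendsto_natCast_atTop_atTop (R := ℝ)).comp (tendsto_add_atTop_nat 1)
  have h1 := Pool.Agent.Cov.PNT.pi_tendsto.comp hc
  have h2 := log_div.comp hc
  have h3 : Tendsto (fun N : ℕ => (Nat.primeCounting N : ℝ) * Real.log ((N + 1 : ℕ) : ℝ) /
      ((N + 1 : ℕ) : ℝ)) atTop (𝓝 1) := by
    have h1' : Tendsto (fun N : ℕ => (Nat.primeCounting (N + 1) : ℝ) *
        Real.log ((N + 1 : ℕ) : ℝ) / ((N + 1 : ℕ) : ℝ)) atTop (𝓝 1) := by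
      refine h1.congr fun N => ?_
      simp only [Function.comp, Nat.floor_natCast]
    have h4 : Tendsto (fun N : ℕ => (Nat.primeCounting (N + 1) : ℝ) *
        Real.log ((N + 1 : ℕ) : ℝ) / ((N + 1 : ℕ) : ℝ) - Real.log ((N + 1 : ℕ) : ℝ) /
          ((N + 1 : ℕ) : ℝ)) atTop (𝓝 1) := by
      have := h1'.sub h2
      simpa [Function.comp] using this
    refine tendsto_of_tendsto_of_tendsto_of_le_of_le h4 h1' ?_ ?_
    · intro N
      have hl : 0 ≤ Real.log ((N + 1 : ℕ) : ℝ) := Real.log_natCast_nonneg _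
      have hp : (0 : ℝ) < ((N + 1 : ℕ) : ℝ) := by positivity
      have h5 : (Nat.primeCounting (N + 1) : ℝ) ≤ Nat.primeCounting N + 1 := by
        have h6 : Nat.primeCounting (N + 1) ≤ Nat.primeCounting N + 1 := by
          unfold Nat.primeCounting Nat.primeCounting'
          rw [Nat.count_succ]
          split_ifs <;> omega
        exact_mod_cast h6
      show (Nat.primeCounting (N + 1) : ℝ) * Real.log ((N + 1 : ℕ) : ℝ) / ((N + 1 : ℕ) : ℝ) -
        Real.log ((N + 1 : ℕ) : ℝ) / ((N + 1 : ℕ) : ℝ) ≤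
        (Nat.primeCounting N : ℝ) * Real.log ((N + 1 : ℕ) : ℝ) / ((N + 1 : ℕ) : ℝ)
      rw [← sub_div]
      apply div_le_div_of_nonneg_right _ hp.le
      nlinarith
    · intro N
      have hl : 0 ≤ Real.log ((N + 1 : ℕ) : ℝ) := Real.log_natCast_nonneg _
      have hp : (0 : ℝ) < ((N + 1 : ℕ) : ℝ) := by positivity
      have h5 : (Nat.primeCounting N : ℝ) ≤ Nat.primeCounting (N + 1) := by
        exact_mod_cast Nat.monotone_primeCounting (Nat.le_succ N)
      show (Nat.primeCounting N : ℝ) * Real.log ((N + 1 : ℕ) : ℝ) / ((N + 1 : ℕ) : ℝ) ≤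
        (Nat.primeCounting (N + 1) : ℝ) * Real.log ((N + 1 : ℕ) : ℝ) / ((N + 1 : ℕ) : ℝ)
      apply div_le_div_of_nonneg_right _ hp.le
      exact mul_le_mul_of_nonneg_right h5 hl
  have h4 := h3.inv₀ one_ne_zero
  rw [inv_one] at h4
  refine h4.congr fun N => ?_
  rw [inv_div, div_div, mul_comm]

theorem rpow_cmp {ε : ℝ} (hε : 0 < ε) : ∀ᶠ N : ℕ in atTop,
    (((N + 1 : ℕ) : ℝ)) ^ (5 / 6 + ε / 2) ≤ (N : ℝ) ^ (5 / 6 + ε) := by
  have h1 : ∀ᶠ N : ℕ in atTop, (2 : ℝ) ^ (5 / 6 + ε / 2) ≤ (N : ℝ) ^ (ε / 2) :=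
    ((tendsto_rpow_atTop (by positivity)).comp
      (tendsto_natCast_atTop_atTop (R := ℝ))).eventually_ge_atTop _
  filter_upwards [h1, eventually_ge_atTop 1] with N h2 h3
  have hN : (1 : ℝ) ≤ N := by exact_mod_cast h3
  have h4 : (((N + 1 : ℕ) : ℝ)) ≤ 2 * N := by push_cast; linarith
  calc (((N + 1 : ℕ) : ℝ)) ^ (5 / 6 + ε / 2) ≤ (2 * N) ^ (5 / 6 + ε / 2) :=
        Real.rpow_le_rpow (by positivity) h4 (by positivity)
    _ = (2 : ℝ) ^ (5 / 6 + ε / 2) * (N : ℝ) ^ (5 / 6 + ε / 2) :=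
        Real.mul_rpow (by norm_num) (by linarith)
    _ ≤ (N : ℝ) ^ (ε / 2) * (N : ℝ) ^ (5 / 6 + ε / 2) :=
        mul_le_mul_of_nonneg_right h2 (by positivity)
    _ = (N : ℝ) ^ (5 / 6 + ε) := by
        rw [← Real.rpow_add (by linarith)]
        congr 1
        ring

theorem lawPart (hE : E0) (hI : I0) {G : ℝ → ℝ} {ρ : (Unit → ℝ) → (Unit → ℝ) → ℝ}
    (hρ : IsLaw (fun _ : Unit => (0 : ℤ)) ρ) (hGρ : ∀ t, G t = ρ (fun _ => -1) (fun _ => t))
    {ε θ : ℝ} (hε : 0 < ε) (hθ : 0 < θ) :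
    ∃ N0 : ℕ, ∀ N : ℕ, N0 ≤ N → ∀ C : ℕ, (N : ℝ) ^ (5 / 6 + ε) ≤ C → C ≤ N → ∀ (t : ℝ) (M : ℕ),
      M = (C - 1) / 2 →
      |(Nat.card {i : ℕ // i ∈ range M ∧
        (count (2 * (M - i) + 1) N : ℝ) ≤ t * Nat.primeCounting N} : ℝ) - M * G t| ≤ θ * M := by
  classical
  obtain ⟨η, hη, y0, hy0⟩ := hE (fun _ : Unit => (0 : ℤ)) ρ hρ θ hθ
  obtain ⟨κ, hκ0, hκ1, hκ2⟩ : ∃ κ : ℝ, 0 < κ ∧ κ ≤ η / 8 ∧ κ ≤ 1 / 4 :=
    ⟨min (η / 8) (1 / 4), lt_min (by linarith) (by norm_num), min_le_left _ _, min_le_right _ _⟩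
  obtain ⟨y1, hy1⟩ := hI 1 (Or.inr rfl) (ε / 2) κ (half_pos hε) hκ0
  obtain ⟨M0, hM0⟩ := hy0 (max y0 y1) (le_max_left _ _)
  obtain ⟨x0, hx0⟩ := hy1 (max y0 y1) (le_max_right _ _)
  obtain ⟨y, hy⟩ : ∃ y, y = max y0 y1 := ⟨_, rfl⟩
  rw [← hy] at hM0 hx0
  obtain ⟨τ, hτ⟩ : ∃ τ, τ = ∏ p ∈ PP y, (1 - 1 / ((p : ℝ) - 1)) := ⟨_, rfl⟩
  have hτp : 0 < τ := by rw [hτ]; exact Tmin_pos y
  have hτT : ∀ d, τ ≤ T d y := by intro d; rw [hτ]; exact T_ge d y
  have hev1 : ∀ᶠ N : ℕ in atTop, |(((N + 1 : ℕ) : ℝ) / Real.log ((N + 1 : ℕ) : ℝ)) /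
      (Nat.primeCounting N : ℝ) - 1| < κ := by
    have := (Metric.tendsto_nhds.1 pnt) κ hκ0
    simpa only [Real.dist_eq] using this
  have hev2 : ∀ᶠ N : ℕ in atTop, 2 * (M0 : ℝ) + 5 ≤ (N : ℝ) ^ (5 / 6 + ε) :=
    ((tendsto_rpow_atTop (by positivity)).comp
      (tendsto_natCast_atTop_atTop (R := ℝ))).eventually_ge_atTop _
  have hev3 : ∀ᶠ N : ℕ in atTop, 1 / (κ * τ) ≤ (Nat.primeCounting N : ℝ) :=
    ((tendsto_natCast_atTop_atTop (R := ℝ)).comp
      Nat.tendsto_primeCounting).eventually_ge_atTop _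
  obtain ⟨N1, hN1⟩ := eventually_atTop.1 (((hev1.and hev2).and hev3).and (rpow_cmp hε))
  refine ⟨max (max N1 x0) 3, fun N hN C hC1 hC2 t M hM => ?_⟩
  have hNN1 : N1 ≤ N := le_trans (le_trans (le_max_left _ _) (le_max_left _ _)) hN
  have hNx : x0 ≤ N := le_trans (le_trans (le_max_right _ _) (le_max_left _ _)) hN
  have hN3 : 3 ≤ N := le_trans (le_max_right _ _) hN
  obtain ⟨⟨⟨hr, hMC⟩, hpiN⟩, hcmp⟩ := hN1 N hNN1
  have hCM : 2 * (M0 : ℝ) + 5 ≤ C := le_trans hMC hC1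
  have hCM' : 2 * M0 + 5 ≤ C := by exact_mod_cast hCM
  have hM0M : M0 ≤ M := by omega
  have hMC4 : (C : ℝ) ≤ 4 * M := by
    have : C ≤ 4 * M := by omega
    exact_mod_cast this
  obtain ⟨Ex, hExs, hExc, hEx⟩ := hx0 (N + 1) (by omega) C (le_trans hcmp hC1) (by omega)
  have hNr : (3 : ℝ) ≤ N := by exact_mod_cast hN3
  obtain ⟨L, hL⟩ : ∃ L : ℝ, L = (Nat.primeCounting N : ℝ) := ⟨_, rfl⟩
  obtain ⟨R, hR⟩ : ∃ R : ℝ, R = ((N + 1 : ℕ) : ℝ) / Real.log ((N + 1 : ℕ) : ℝ) := ⟨_, rfl⟩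
  rw [← hL] at hr hpiN ⊢
  rw [← hR] at hr
  have hlogN : 0 < Real.log ((N + 1 : ℕ) : ℝ) := Real.log_pos (by push_cast; linarith)
  have hRp : 0 < R := by rw [hR]; exact div_pos (by positivity) hlogN
  have hrr := abs_lt.1 hr
  have hLp : 0 < L := lt_of_lt_of_le (by positivity) hpiN
  have hL1 : 1 / L ≤ κ * τ := by
    rw [div_le_iff₀ (by positivity)] at hpiN
    rw [div_le_iff₀ hLp]
    linarith
  have key := hM0 M hM0M 8 (5 - 8 * (M : ℤ)) (fun _ i => (count (2 * (M - i) + 1) N : ℝ) / L)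
    (fun _ i => (count (2 * (M - i) + 1) N : ℝ) / L) (cop8 y) ?_ (fun _ => -1) (fun _ => t)
  · have h3 : Nat.card {i : ℕ // i ∈ range M ∧ (count (2 * (M - i) + 1) N : ℝ) ≤ t * L} =
        #((range M).filter fun i => ∀ j : Unit, (fun _ : Unit => (-1 : ℝ)) j <
        (fun (_ : Unit) (i : ℕ) => (count (2 * (M - i) + 1) N : ℝ) / L) j i ∧
        (fun (_ : Unit) (i : ℕ) => (count (2 * (M - i) + 1) N : ℝ) / L) j i ≤
          (fun _ : Unit => t) j) := by
      rw [← Fintype.card_coe, ← Nat.card_eq_fintype_card]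
      apply Nat.card_congr
      apply Equiv.subtypeEquivRight
      intro a
      rw [Finset.mem_filter]
      refine and_congr_right fun _ => ?_
      constructor
      · intro h _
        refine ⟨?_, ?_⟩
        · show (-1 : ℝ) < (count (2 * (M - a) + 1) N : ℝ) / L
          have : 0 ≤ (count (2 * (M - a) + 1) N : ℝ) / L := by positivity
          linarith
        · show (count (2 * (M - a) + 1) N : ℝ) / L ≤ t
          rw [div_le_iff₀ hLp]
          exact h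
      · intro h
        have h5 : (count (2 * (M - a) + 1) N : ℝ) / L ≤ t := (h ()).2
        rw [div_le_iff₀ hLp] at h5
        exact h5
    rw [h3, hGρ]
    exact key
  · intro _
    have h2 : #((range M).filter fun i => 2 * (M - i) - 1 ∈ Ex) ≤ #Ex := by
      apply Finset.card_le_card_of_injOn (fun i => 2 * (M - i) - 1)
      · intro i hi
        rw [Finset.mem_coe, Finset.mem_filter] at hi
        exact hi.2
      · intro a ha b hb hab
        rw [Finset.mem_coe, Finset.mem_filter, Finset.mem_range] at ha hb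
        have hab' : 2 * (M - a) - 1 = 2 * (M - b) - 1 := hab
        have ha1 := ha.1
        have hb1 := hb.1
        omega
    have h4 : κ * C ≤ η * M := by
      have hM' : (0 : ℝ) ≤ M := Nat.cast_nonneg _
      calc κ * C ≤ η / 8 * (4 * M) := by
            apply mul_le_mul hκ1 hMC4 (Nat.cast_nonneg _) (by positivity)
        _ ≤ η * M := by nlinarith
    refine le_trans ?_ h4
    refine le_trans ?_ hExc
    refine le_trans ?_ (Nat.cast_le.2 h2)
    apply Nat.cast_le.2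
    apply Finset.card_le_card
    intro i hi
    rw [Finset.mem_filter, Finset.mem_range] at hi
    rw [Finset.mem_filter, Finset.mem_range]
    refine ⟨hi.1, ?_⟩
    by_contra hna
    obtain ⟨c, hc⟩ : ∃ c, c = 2 * (M - i) - 1 := ⟨_, rfl⟩
    rw [← hc] at hna
    have hiM := hi.1
    have hc2 : 2 * (M - i) + 1 = c + 2 := by omega
    have hcI : c ∈ Icc 1 C := Finset.mem_Icc.2 ⟨by omega, by omega⟩
    have hodd : Odd c := ⟨M - i - 1, by omega⟩
    obtain ⟨-, h5⟩ := hEx c hcI hna (fun _ => hodd)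
    have h6 := h5 (N + 1) le_rfl
    have hd : (5 - 8 * (M : ℤ)) + ((8 : ℕ) : ℤ) * (i : ℤ) + 0 = ((1 : ℕ) : ℤ) ^ 2 - 4 * (c : ℤ) := by
      have hcz : (c : ℤ) = 2 * ((M : ℤ) - i) - 1 := by omega
      rw [hcz]
      push_cast
      ring
    have h7 : |(count (2 * (M - i) + 1) N : ℝ) / L -
        T ((5 - 8 * (M : ℤ)) + ((8 : ℕ) : ℤ) * (i : ℤ) + 0) y| ≤
        η * T ((5 - 8 * (M : ℤ)) + ((8 : ℕ) : ℤ) * (i : ℤ) + 0) y := by
      rw [hd, hc2]
      have hτc := hτT (((1 : ℕ) : ℤ) ^ 2 - 4 * (c : ℤ))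
      obtain ⟨Tc, hTc⟩ : ∃ Tc, Tc = T (((1 : ℕ) : ℤ) ^ 2 - 4 * (c : ℤ)) y := ⟨_, rfl⟩
      rw [← hTc] at h6 hτc ⊢
      have hTp : 0 < Tc := lt_of_lt_of_le hτp hτc
      have h10' := count_abs c N _ _ h6
      obtain ⟨S, hS⟩ : ∃ S : ℝ, S = (count (c + 2) N : ℝ) := ⟨_, rfl⟩
      rw [← hS] at h10' ⊢
      have h8 : ((1 : ℝ) + ((1 : ℕ) : ℝ)) * Tc * (((N + 1 : ℕ) : ℝ) /
          (2 * Real.log ((N + 1 : ℕ) : ℝ))) = Tc * R := by
        rw [hR]
        field_simp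
        norm_num
      rw [h8, ← hR] at h10'
      have h10 : |S - Tc * R| ≤ κ * (Tc * R) + 1 := h10'
      have h11 : S / L - Tc = (S - Tc * R) / L + Tc * (R / L - 1) := by
        field_simp
        ring
      rw [h11]
      have h12 : |(S - Tc * R) / L| ≤ (κ * (Tc * R) + 1) / L := by
        rw [abs_div, abs_of_pos hLp]
        exact div_le_div_of_nonneg_right h10 hLp.le
      have h13 : |Tc * (R / L - 1)| ≤ Tc * κ := by
        rw [abs_mul, abs_of_pos hTp]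
        exact mul_le_mul_of_nonneg_left hr.le hTp.le
      have h14 : (κ * (Tc * R) + 1) / L = κ * Tc * (R / L) + 1 / L := by
        field_simp
      have h15 : R / L ≤ 2 := by linarith [hrr.2]
      have h16 : κ * Tc * (R / L) ≤ κ * Tc * 2 :=
        mul_le_mul_of_nonneg_left h15 (by positivity)
      have h17 : κ * τ ≤ κ * Tc := mul_le_mul_of_nonneg_left hτc hκ0.le
      have h18 : κ * Tc ≤ η / 8 * Tc := mul_le_mul_of_nonneg_right hκ1 hTp.le
      have h19 := abs_add_le ((S - Tc * R) / L) (Tc * (R / L - 1))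
      have h20 : 0 < η * Tc := mul_pos hη hTp
      nlinarith
    rcases hi.2 with h | h
    · exact absurd h7 (not_le.2 h)
    · exact absurd h7 (not_le.2 h)

end LawAux

open LawAux

theorem law (hG : Pool.Agent.N511.LL.G0) (hD : Pool.Agent.N511.LL.D0)
    (hE : Pool.Agent.N511.LL.E0) (hI : Pool.Agent.N511.LL.I0) : LAW := by
  classical
  obtain ⟨G, hIsG, hGc, hG0, hGm, hG1, hGρ⟩ := hG
  obtain ⟨ρ, hρ⟩ := hD (fun _ : Unit => (0 : ℤ))
  have hGρ' := hGρ ρ hρ
  refine ⟨G, hGc, hG0, hGm, hG1, hIsG, ?_⟩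
  intro ε η hε hη
  obtain ⟨N0, hN0⟩ := lawPart hE hI hρ hGρ' hε hη
  have hev : ∀ᶠ N : ℕ in atTop, 6 / η + 1 ≤ (N : ℝ) ^ (5 / 6 + ε) :=
    ((tendsto_rpow_atTop (by positivity)).comp
      (tendsto_natCast_atTop_atTop (R := ℝ))).eventually_ge_atTop _
  obtain ⟨N1, hN1⟩ := eventually_atTop.1 hev
  refine ⟨max N0 N1, fun N hN C hC1 hC2 t => ?_⟩
  have h1 := hN0 N (le_trans (le_max_left _ _) hN) C hC1 hC2 t ((C - 1) / 2) rfl
  have h2 := le_trans (hN1 N (le_trans (le_max_right _ _) hN)) hC1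
  have h6η : 0 < 6 / η := by positivity
  have hC1' : 1 ≤ C := by
    have : (1 : ℝ) ≤ C := by linarith
    exact_mod_cast this
  obtain ⟨M, hM⟩ : ∃ M, M = (C - 1) / 2 := ⟨_, rfl⟩
  rw [← hM] at h1
  have h3 : Nat.card {i : ℕ // i ∈ range M ∧
      (count (2 * (M - i) + 1) N : ℝ) ≤ t * Nat.primeCounting N} =
      #((range M).filter fun i => (count (2 * (M - i) + 1) N : ℝ) ≤ t * Nat.primeCounting N) := by
    rw [← Fintype.card_coe, ← Nat.card_eq_fintype_card]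
    apply Nat.card_congr
    apply Equiv.subtypeEquivRight
    intro a
    rw [Finset.mem_filter]
  rw [h3] at h1
  have h4 := card_odd C hC1' (fun c => (count c N : ℝ) ≤ t * Nat.primeCounting N)
  rw [← hM] at h4
  obtain ⟨A, hA⟩ : ∃ A : ℝ, A = (#((range M).filter fun i => (count (2 * (M - i) + 1) N : ℝ) ≤
    t * Nat.primeCounting N) : ℝ) := ⟨_, rfl⟩
  obtain ⟨B, hB⟩ : ∃ B : ℝ, B = (#((Icc 1 C).filter (fun c : ℕ => Odd c ∧
    (count c N : ℝ) ≤ t * Nat.primeCounting N)) : ℝ) := ⟨_, rfl⟩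
  have h5 : A ≤ B := by rw [hA, hB]; exact_mod_cast h4.1
  have h6 : B ≤ A + 1 := by rw [hA, hB]; exact_mod_cast h4.2
  rw [← hA] at h1
  have hMC1 : (M : ℝ) ≤ C / 2 := by
    have : 2 * M ≤ C := by omega
    have : 2 * (M : ℝ) ≤ C := by exact_mod_cast this
    linarith
  have hMC2 : (C : ℝ) / 2 ≤ M + 1 := by
    have : C ≤ 2 * M + 2 := by omega
    have : (C : ℝ) ≤ 2 * M + 2 := by exact_mod_cast this
    linarith
  have hGa := abs_le.1 (G_abs hIsG t)
  have h7 : |(M : ℝ) * G t - G t * (C / 2)| ≤ 2 := by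
    have h8 : (M : ℝ) * G t - G t * (C / 2) = -(G t * (C / 2 - M)) := by ring
    rw [h8, abs_neg, abs_mul]
    calc |G t| * |(C : ℝ) / 2 - M| ≤ 2 * 1 := by
          apply mul_le_mul (G_abs hIsG t) _ (abs_nonneg _) (by norm_num)
          rw [abs_le]
          constructor <;> linarith
      _ = 2 := by norm_num
  have h8 : η * M ≤ η * (C / 2) := mul_le_mul_of_nonneg_left hMC1 hη.le
  have h9 : 3 ≤ η * (C / 2) := by
    have h10 : 6 / η ≤ C := by linarith
    rw [div_le_iff₀ hη] at h10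
    linarith
  have h10 : |B - G t * (C / 2)| ≤ η * C := by
    have h11 := abs_le.1 h1
    have h12 := abs_le.1 h7
    rw [abs_le]
    constructor <;> linarith [h11.1, h11.2, h12.1, h12.2]
  rw [hB] at h10
  convert h10

end Pool.Agent.N511.PN
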