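import Pool.Agent.N511.PN.Neg
import Pool.Agent.Cov.PNT
import Pool.Agent.W468.CFProd

/-!
# Project PN: almost all members of a narrow residue class, both signs
-/

set_option autoImplicit false

namespace Pool.Agent.N511.PN

open Finset Filter Topology
open Pool.Agent.N511.LL (T PP PR loc B2)

namespace L2

theorem nonsq {c₀ : ℤ} (h : Odd c₀) : ¬ IsSquare (9 - 4 * c₀) := by
  have h1 := (Negaux.adm3 h).2.2.2
  have e : (3 : ℤ) ^ 2 - 4 * 1 * c₀ = 9 - 4 * c₀ := by ring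
  rwa [e] at h1

theorem T_lim {c₀ : ℤ} (h : Odd c₀) : ∃ L : ℝ, 0 < L ∧ Tendsto (fun z => T (9 - 4 * c₀) z) atTop (𝓝 L) := by
  obtain ⟨L, hL0, hL⟩ := Pool.Agent.W468.ConjF.PJ_tendsto _ (nonsq h) 2 le_rfl
  refine ⟨L, hL0, hL.congr fun z => ?_⟩
  unfold Pool.Agent.W468.ConjF.PJ T PP loc
  rfl

theorem T_congr {y q : ℕ} (hq : ∀ p : ℕ, p.Prime → (p ∣ q ↔ p ≤ y)) {c c₀ : ℤ}
    (h : c ≡ c₀ [ZMOD q]) : T (9 - 4 * c) y = T (9 - 4 * c₀) y := by
  unfold T
  refine prod_congr rfl fun p hp => ?_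
  have h1 := Pool.Agent.N511.LL.J0aux.mem_PP.1 hp
  have h2 : (p : ℤ) ∣ q := by exact_mod_cast (hq p h1.2).2 h1.1.2
  have h4 : c ≡ c₀ [ZMOD p] := h.of_dvd h2
  have h5 : (9 - 4 * c) ≡ 9 - 4 * c₀ [ZMOD p] := (Int.ModEq.refl 9).sub ((Int.ModEq.refl 4).mul h4)
  unfold loc
  rw [jacobiSym.mod_left (9 - 4 * c) p, jacobiSym.mod_left (9 - 4 * c₀) p]
  have h6 : (9 - 4 * c) % p = (9 - 4 * c₀) % p := h5
  rw [h6]

theorem PR_eq {y q z : ℕ} (hq : ∀ p : ℕ, p.Prime → (p ∣ q ↔ p ≤ y)) :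
    PR (4 * q) y z = PR 4 y z := by
  unfold PR
  apply filter_congr
  intro p hp
  rw [mem_Ioc] at hp
  refine and_congr_right fun hpp => ?_
  rw [not_iff_not]
  constructor
  · intro h
    rcases hpp.dvd_mul.1 h with h | h
    · exact h
    · have := (hq p hpp).1 h
      omega
  · intro h
    exact dvd_mul_of_dvd_left h q

theorem pnt : Tendsto (fun n : ℕ => (Nat.primeCounting n : ℝ) * Real.log n / n) atTop (𝓝 1) := by
  have h := Pool.Agent.Cov.PNT.pi_tendsto.comp (tendsto_natCast_atTop_atTop (R := ℝ))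
  refine h.congr fun n => ?_
  simp only [Function.comp, Nat.floor_natCast]

/-- the uniform form of the prime number theorem which is needed -/
theorem pnt_unif {κ δ : ℝ} (hκ : 0 < κ) (hδ : 0 < δ) (K : ℝ) : ∃ N0 : ℕ, ∀ N : ℕ, N0 ≤ N → ∀ n : ℕ,
    κ * N ≤ n → n ≤ N → K * √(N : ℝ) ≤ (Nat.primeCounting n : ℝ) ∧ 0 < (Nat.primeCounting n : ℝ) ∧
      |(n : ℝ) / Real.log (N : ℝ) - Nat.primeCounting n| ≤ δ * Nat.primeCounting n := by
  obtain ⟨d, hd0, hd1, hd2⟩ : ∃ d : ℝ, 0 < d ∧ d ≤ δ / 8 ∧ d ≤ 1 / 8 :=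
    ⟨min (δ / 8) (1 / 8), lt_min (by linarith) (by norm_num), min_le_left _ _, min_le_right _ _⟩
  have h1 : ∀ᶠ n : ℕ in atTop, |(Nat.primeCounting n : ℝ) * Real.log n / n - 1| < d := by
    have := (Metric.tendsto_nhds.1 pnt) d hd0
    simpa [Real.dist_eq] using this
  obtain ⟨n0, hn0⟩ := eventually_atTop.1 h1
  -- `log (κ N) ≥ (1 - d) log N`
  have h4 : ∀ᶠ x : ℝ in atTop, (1 - d) * Real.log x ≤ Real.log (κ * x) := by
    have e1 : ∀ᶠ x : ℝ in atTop, - Real.log κ ≤ d * Real.log x :=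
      (Real.tendsto_log_atTop.const_mul_atTop hd0).eventually_ge_atTop _
    filter_upwards [e1, eventually_ge_atTop (1 : ℝ)] with x hx hx1
    have hx0 : 0 < x := by linarith
    rw [Real.log_mul hκ.ne' hx0.ne']
    nlinarith
  have h5 : ∀ᶠ x : ℝ in atTop, 2 * |K| * Real.log x ≤ κ * √x := by
    have e1 : Tendsto (fun x : ℝ => Real.log x / x ^ (1 / 2 : ℝ)) atTop (𝓝 0) :=
      (isLittleO_log_rpow_atTop (by norm_num : (0 : ℝ) < 1 / 2)).tendsto_div_nhds_zero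
    have e2 : Tendsto (fun x : ℝ => 2 * |K| * (Real.log x / x ^ (1 / 2 : ℝ))) atTop (𝓝 (2 * |K| * 0)) :=
      e1.const_mul _
    rw [mul_zero] at e2
    have e3 : ∀ᶠ x : ℝ in atTop, 2 * |K| * (Real.log x / x ^ (1 / 2 : ℝ)) < κ := e2.eventually (gt_mem_nhds hκ)
    filter_upwards [e3, eventually_gt_atTop (0 : ℝ)] with x hx hx0
    rw [Real.sqrt_eq_rpow]
    have h6 : 0 < x ^ (1 / 2 : ℝ) := Real.rpow_pos_of_pos hx0 _
    rw [← mul_div_assoc, div_lt_iff₀ h6] at hx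
    exact hx.le
  obtain ⟨x0, hx0⟩ := eventually_atTop.1 (h4.and h5)
  obtain ⟨N1, hN1⟩ := exists_nat_ge (max x0 ((n0 : ℝ) + 3) + ((n0 : ℝ) + 3) / κ)
  have hpos : 0 < ((n0 : ℝ) + 3) / κ := by positivity
  refine ⟨N1, fun N hN n hn1 hn2 => ?_⟩
  have hNr : (N1 : ℝ) ≤ N := by exact_mod_cast hN
  have a1 : x0 ≤ N := by
    have := le_max_left x0 ((n0 : ℝ) + 3)
    linarith
  have a2 : (n0 : ℝ) + 3 ≤ κ * N := by
    have h5 : ((n0 : ℝ) + 3) / κ ≤ N := by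
      have := le_max_right x0 ((n0 : ℝ) + 3)
      have h6 : (0 : ℝ) ≤ n0 := Nat.cast_nonneg _
      linarith
    rw [div_le_iff₀ hκ] at h5
    linarith
  have a3 : (n0 : ℝ) + 3 ≤ n := a2.trans hn1
  have a4 : n0 ≤ n := by
    have : (n0 : ℝ) ≤ n := by linarith
    exact_mod_cast this
  have g1 := hn0 n a4
  obtain ⟨g4, g7⟩ := hx0 N a1
  have hn3 : (3 : ℝ) ≤ n := by
    have : (0 : ℝ) ≤ n0 := Nat.cast_nonneg _
    linarith
  have hnN : (n : ℝ) ≤ N := by exact_mod_cast hn2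
  have hlogn : 0 < Real.log n := Real.log_pos (by linarith)
  have hlogN : 0 < Real.log (N : ℝ) := Real.log_pos (by linarith)
  have hle : Real.log n ≤ Real.log (N : ℝ) := Real.log_le_log (by linarith) hnN
  have hge : (1 - d) * Real.log (N : ℝ) ≤ Real.log n := by
    refine g4.trans (Real.log_le_log (by linarith) hn1)
  obtain ⟨P, hP⟩ : ∃ P : ℝ, P = Nat.primeCounting n := ⟨_, rfl⟩
  obtain ⟨l, hl⟩ : ∃ l : ℝ, l = Real.log n := ⟨_, rfl⟩
  obtain ⟨M, hM⟩ : ∃ M : ℝ, M = Real.log (N : ℝ) := ⟨_, rfl⟩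
  rw [← hP, ← hl] at g1
  rw [← hP, ← hM]
  rw [← hM] at g7
  rw [← hl] at hlogn hle hge
  rw [← hM] at hlogN hle hge
  obtain ⟨g5, g6⟩ := abs_lt.1 g1
  have hn0' : (0 : ℝ) < n := by linarith
  have k1 : (1 - d) * n < P * l := by
    have : 1 - d < P * l / n := by linarith
    rwa [lt_div_iff₀ hn0'] at this
  have k2 : P * l < (1 + d) * n := by
    have : P * l / n < 1 + d := by linarith
    rwa [div_lt_iff₀ hn0'] at this
  have hP0 : 0 < P := by
    by_contra h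
    push Not at h
    have : P * l ≤ 0 := mul_nonpos_of_nonpos_of_nonneg h hlogn.le
    nlinarith
  -- upper bound
  have u1 : (n : ℝ) / M ≤ (1 + 8 * d) * P := by
    rw [div_le_iff₀ hlogN]
    have e2 : (1 - d) * (n : ℝ) ≤ P * M := k1.le.trans (mul_le_mul_of_nonneg_left hle hP0.le)
    have e3 : 1 ≤ (1 + 8 * d) * (1 - d) := by nlinarith
    calc (n : ℝ) = 1 * n := (one_mul _).symm
      _ ≤ (1 + 8 * d) * (1 - d) * n := mul_le_mul_of_nonneg_right e3 hn0'.le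
      _ = (1 + 8 * d) * ((1 - d) * n) := by ring
      _ ≤ (1 + 8 * d) * (P * M) := mul_le_mul_of_nonneg_left e2 (by linarith)
      _ = (1 + 8 * d) * P * M := by ring
  have u2 : (1 - 8 * d) * P ≤ (n : ℝ) / M := by
    rw [le_div_iff₀ hlogN]
    have e2 : P * ((1 - d) * M) ≤ (1 + d) * n := (mul_le_mul_of_nonneg_left hge hP0.le).trans k2.le
    have e3 : 0 < P * M := mul_pos hP0 hlogN
    have e4 : (1 - 8 * d) * (1 + d) ≤ 1 - d := by nlinarith
    have e5 : (1 - 8 * d) * (1 + d) * (P * M) ≤ (1 - d) * (P * M) := mul_le_mul_of_nonneg_right e4 e3.le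
    have e6 : (1 + d) * ((1 - 8 * d) * P * M) ≤ (1 + d) * (n : ℝ) := by nlinarith
    exact le_of_mul_le_mul_left e6 (by linarith)
  have hdδ : 8 * d * P ≤ δ * P := mul_le_mul_of_nonneg_right (by linarith) hP0.le
  refine ⟨?_, hP0, ?_⟩
  · have hN0 : (0 : ℝ) < N := by linarith
    have s1 : κ * N / M ≤ 2 * P := by
      calc κ * N / M ≤ n / M := div_le_div_of_nonneg_right hn1 hlogN.le
        _ ≤ (1 + 8 * d) * P := u1
        _ ≤ 2 * P := mul_le_mul_of_nonneg_right (by linarith) hP0.le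
    rw [div_le_iff₀ hlogN] at s1
    have s2 : √(N : ℝ) * √(N : ℝ) = N := Real.mul_self_sqrt hN0.le
    have s3 : 0 < √(N : ℝ) := Real.sqrt_pos.2 hN0
    have s4 : 2 * |K| * M * √(N : ℝ) ≤ 2 * P * M := by
      calc 2 * |K| * M * √(N : ℝ) ≤ κ * √(N : ℝ) * √(N : ℝ) := mul_le_mul_of_nonneg_right g7 s3.le
        _ = κ * N := by rw [mul_assoc, s2]
        _ ≤ 2 * P * M := s1
    have s5 : |K| * √(N : ℝ) ≤ P := by
      have s6 : (|K| * √(N : ℝ)) * (2 * M) ≤ P * (2 * M) := by linarith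
      exact le_of_mul_le_mul_right s6 (by linarith)
    exact (mul_le_mul_of_nonneg_right (le_abs_self K) s3.le).trans s5
  · rw [abs_le]
    constructor <;> nlinarith

theorem real_core {δ A L d η δ1 t P π v X E cnt : ℝ} (hL : 0 < L) (_hδ : 0 < δ) (hA : 0 < A)
    (hd0 : 0 < d) (hd : d ≤ 1 / 8) (hη : 0 < η) (hδ1 : δ1 ≤ 1 / 2)
    (hπ0 : 0 < π) (hv : |v - π| ≤ δ1 * π) (hX : X ≤ A * v) (hX0 : 0 ≤ X) (hv0 : 0 ≤ v)
    (ht : |t - L| ≤ d * L) (hP : |P - 1| ≤ d) (hE0 : 0 ≤ E) (hE : 4 / δ * (1 + 2 * L) * E ≤ π)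
    (h1 : |cnt - (t * P) * v| ≤ η * ((t * P) * X) + E * (1 + t * P))
    (c1 : η * (4 * L * A) ≤ δ / 4) (c2 : 6 * d * L ≤ δ / 4) (c3 : L * δ1 ≤ δ / 4) :
    |cnt - L * π| ≤ δ * π := by
  obtain ⟨v1, v2⟩ := abs_le.1 hv
  have hv2 : v ≤ 2 * π := by nlinarith
  obtain ⟨t1, t2⟩ := abs_le.1 ht
  obtain ⟨p1, p2⟩ := abs_le.1 hP
  have hdL : d * L ≤ L / 8 := by nlinarith
  have ht0 : 0 < t := by linarith
  have hP0 : 0 < P := by linarith
  obtain ⟨T, hT⟩ : ∃ T : ℝ, T = t * P := ⟨_, rfl⟩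
  rw [← hT] at h1
  have hT0 : 0 < T := by rw [hT]; positivity
  have hTL : |T - L| ≤ 3 * d * L := by
    have e : T - L = t * (P - 1) + (t - L) := by rw [hT]; ring
    rw [e]
    refine (abs_add_le _ _).trans ?_
    have e1 : |t * (P - 1)| ≤ (L + d * L) * d := by
      rw [abs_mul, abs_of_pos ht0]
      exact mul_le_mul (by linarith) hP (abs_nonneg _) (by positivity)
    have e2 : (L + d * L) * d ≤ 2 * L * d := by
      apply mul_le_mul_of_nonneg_right _ hd0.le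
      linarith
    nlinarith
  have hT2 : T ≤ 2 * L := by
    have := (abs_le.1 hTL).2
    nlinarith
  have m0 : E * (1 + T) ≤ δ / 4 * π := by
    have e1 : E * (1 + T) ≤ E * (1 + 2 * L) := mul_le_mul_of_nonneg_left (by linarith) hE0
    have e2 : E * (1 + 2 * L) ≤ δ / 4 * π := by
      have e3 : 4 / δ * (1 + 2 * L) * E = (E * (1 + 2 * L)) / (δ / 4) := by
        field_simp
      rw [e3, div_le_iff₀ (by linarith)] at hE
      linarith
    linarith
  have m1 : η * (T * X) ≤ δ / 4 * π := by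
    have e1 : T * X ≤ (2 * L) * (A * (2 * π)) := by
      apply mul_le_mul hT2 _ hX0 (by positivity)
      exact hX.trans (mul_le_mul_of_nonneg_left hv2 hA.le)
    calc η * (T * X) ≤ η * ((2 * L) * (A * (2 * π))) := mul_le_mul_of_nonneg_left e1 hη.le
      _ = η * (4 * L * A) * π := by ring
      _ ≤ δ / 4 * π := mul_le_mul_of_nonneg_right c1 hπ0.le
  have m2 : |T - L| * v ≤ δ / 4 * π := by
    calc |T - L| * v ≤ (3 * d * L) * (2 * π) := mul_le_mul hTL hv2 hv0 (by positivity)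
      _ = 6 * d * L * π := by ring
      _ ≤ δ / 4 * π := mul_le_mul_of_nonneg_right c2 hπ0.le
  have m3 : L * |v - π| ≤ δ / 4 * π := by
    calc L * |v - π| ≤ L * (δ1 * π) := mul_le_mul_of_nonneg_left hv hL.le
      _ = L * δ1 * π := by ring
      _ ≤ δ / 4 * π := mul_le_mul_of_nonneg_right c3 hπ0.le
  have e : cnt - L * π = (cnt - T * v) + (T - L) * v + L * (v - π) := by ring
  rw [e]
  have s1 := abs_add_le ((cnt - T * v) + (T - L) * v) (L * (v - π))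
  have s2 := abs_add_le (cnt - T * v) ((T - L) * v)
  have s4 : |(T - L) * v| = |T - L| * v := by rw [abs_mul, abs_of_nonneg hv0]
  have s5 : |L * (v - π)| = L * |v - π| := by rw [abs_mul, abs_of_pos hL]
  linarith

/-- the members of a class with a bad tail are few -/
theorem tail_sign {d : ℝ} {y z : ℕ} (hy : ∀ M : ℕ, z ^ 3 ≤ M → ∀ (κ : ℕ) (b : ℤ), 1 ≤ κ →
    (#((range M).filter (fun i : ℕ => d < |∏ p ∈ PR κ y z, loc (b + κ * i) p - 1|)) : ℝ) ≤ d * M)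
    {σ : ℤ} (hσ : σ = 1 ∨ σ = -1) {C q : ℕ} (hq1 : 1 ≤ q) (hM : z ^ 3 ≤ C / q + 1) (c₀ : ℤ) :
    (#((Icc 1 C).filter (fun c : ℕ => σ * c ≡ c₀ [ZMOD q] ∧
      d < |∏ p ∈ PR (4 * q) y z, loc (9 - 4 * (σ * c)) p - 1|)) : ℝ) ≤ d * ((C / q + 1 : ℕ) : ℝ) := by
  classical
  rcases hσ with rfl | rfl
  · obtain ⟨r, hr⟩ : ∃ r : ℕ, (r : ℤ) = ((C : ℤ) - c₀) % q := by
      have h1 : 0 ≤ ((C : ℤ) - c₀) % q := Int.emod_nonneg _ (by exact_mod_cast (by omega : q ≠ 0))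
      exact ⟨(((C : ℤ) - c₀) % q).toNat, Int.toNat_of_nonneg h1⟩
    have hres : ∀ c : ℕ, c ≤ C → 1 * (c : ℤ) ≡ c₀ [ZMOD q] → (C - c) % q = r := by
      intro c hc h
      rw [one_mul] at h
      have h1 : ((C - c : ℕ) : ℤ) % q = ((C : ℤ) - c₀) % q := by
        rw [Nat.cast_sub hc]
        exact (Int.ModEq.refl (C : ℤ)).sub h
      have h3 : (((C - c) % q : ℕ) : ℤ) = r := by
        rw [hr, ← h1]
        exact Int.natCast_mod _ _
      exact_mod_cast h3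
    refine le_trans ?_ (hy (C / q + 1) hM (4 * q) (9 - 4 * (C : ℤ) + 4 * r) (by omega))
    refine Nat.cast_le.2 ?_
    apply card_le_card_of_injOn (fun c => (C - c) / q)
    · intro c hc
      rw [mem_coe, mem_filter, mem_Icc] at hc
      obtain ⟨⟨hc1, hcC⟩, hcm, hbad⟩ := hc
      rw [mem_coe, mem_filter, mem_range]
      refine ⟨?_, ?_⟩
      · have : (C - c) / q ≤ C / q := Nat.div_le_div_right (by omega)
        simp only
        omega
      · have h1 : q * ((C - c) / q) + (C - c) % q = C - c := Nat.div_add_mod _ _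
        rw [hres c hcC hcm] at h1
        have h2 : (q : ℤ) * (((C - c) / q : ℕ) : ℤ) + r = C - c := by
          have := congrArg (Nat.cast : ℕ → ℤ) h1
          rw [Nat.cast_sub hcC] at this
          push_cast at this ⊢
          exact this
        have h3 : (9 - 4 * (C : ℤ) + 4 * r) + ((4 * q : ℕ) : ℤ) * (((C - c) / q : ℕ) : ℤ) = 9 - 4 * (1 * (c : ℤ)) := by
          push_cast at h2 ⊢
          linarith
        simp only
        rw [h3]
        exact hbad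
    · intro a ha b hb hab
      rw [mem_coe, mem_filter, mem_Icc] at ha hb
      have h1 := hres a ha.1.2 ha.2.1
      have h2 := hres b hb.1.2 hb.2.1
      have h3 : q * ((C - a) / q) + (C - a) % q = C - a := Nat.div_add_mod _ _
      have h4 : q * ((C - b) / q) + (C - b) % q = C - b := Nat.div_add_mod _ _
      simp only at hab
      rw [h1, hab] at h3
      rw [h2] at h4
      have h5 : C - a = C - b := h3.symm.trans h4
      omega
  · obtain ⟨r, hr⟩ : ∃ r : ℕ, (r : ℤ) = (-c₀) % q := by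
      have h1 : 0 ≤ (-c₀) % q := Int.emod_nonneg _ (by exact_mod_cast (by omega : q ≠ 0))
      exact ⟨((-c₀) % q).toNat, Int.toNat_of_nonneg h1⟩
    have hres : ∀ c : ℕ, -1 * (c : ℤ) ≡ c₀ [ZMOD q] → c % q = r := by
      intro c h
      have h1 : (c : ℤ) % q = (-c₀) % q := by
        have h2 := h.neg
        have e : -(-1 * (c : ℤ)) = c := by ring
        rw [e] at h2
        exact h2
      have h3 : ((c % q : ℕ) : ℤ) = r := by
        rw [hr, ← h1]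
        exact Int.natCast_mod _ _
      exact_mod_cast h3
    refine le_trans ?_ (hy (C / q + 1) hM (4 * q) (9 + 4 * r) (by omega))
    refine Nat.cast_le.2 ?_
    apply card_le_card_of_injOn (fun c => c / q)
    · intro c hc
      rw [mem_coe, mem_filter, mem_Icc] at hc
      obtain ⟨⟨hc1, hcC⟩, hcm, hbad⟩ := hc
      rw [mem_coe, mem_filter, mem_range]
      refine ⟨?_, ?_⟩
      · have : c / q ≤ C / q := Nat.div_le_div_right hcC
        simp only
        omega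
      · have h1 : q * (c / q) + c % q = c := Nat.div_add_mod _ _
        rw [hres c hcm] at h1
        have h2 : (q : ℤ) * ((c / q : ℕ) : ℤ) + r = c := by
          have := congrArg (Nat.cast : ℕ → ℤ) h1
          push_cast at this ⊢
          exact this
        have h3 : (9 + 4 * (r : ℤ)) + ((4 * q : ℕ) : ℤ) * ((c / q : ℕ) : ℤ) = 9 - 4 * (-1 * (c : ℤ)) := by
          push_cast at h2 ⊢
          linarith
        simp only
        rw [h3]
        exact hbad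
    · intro a ha b hb hab
      rw [mem_coe, mem_filter, mem_Icc] at ha hb
      have h1 := hres a ha.2.1
      have h2 := hres b hb.2.1
      have h3 : q * (a / q) + a % q = a := Nat.div_add_mod _ _
      have h4 : q * (b / q) + b % q = b := Nat.div_add_mod _ _
      simp only at hab
      rw [h1, hab] at h3
      rw [h2] at h4
      exact h3.symm.trans h4

end L2

open L2

open Classical in
theorem loc_sign (hB : B2) {σ : ℤ} (hσ : σ = 1 ∨ σ = -1) (hS : HS σ) {c₀ : ℤ} (hc₀ : Odd c₀) {L : ℝ}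
    (hL0 : 0 < L) (hL : Tendsto (fun z => T (9 - 4 * c₀) z) atTop (𝓝 L)) {ε κ δ : ℝ} (hε : 0 < ε) (hκ : 0 < κ)
    (hδ : 0 < δ) : ∃ y0 : ℕ, ∀ y : ℕ, y0 ≤ y → ∀ q : ℕ, 1 ≤ q →
    (∀ p : ℕ, p.Prime → (p ∣ q ↔ p ≤ y)) → ∃ N0 : ℕ, ∀ N : ℕ, N0 ≤ N → ∀ C : ℕ,
    (N : ℝ) ^ (5 / 6 + ε) ≤ C → C ≤ N →
      (#((Icc 1 C).filter (fun c : ℕ => σ * c ≡ c₀ [ZMOD q] ∧ ¬ ∀ n : ℕ, κ * N ≤ n → n ≤ N →
        |(cz (σ * c) n : ℝ) - L * Nat.primeCounting n| ≤ δ * Nat.primeCounting n)) : ℝ) ≤ δ / 2 * (C / q) := by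
  classical
  -- the parameters
  obtain ⟨A, hA⟩ : ∃ A : ℝ, A = 1 / κ := ⟨_, rfl⟩
  have hA0 : 0 < A := by rw [hA]; positivity
  obtain ⟨d, hd0, hd1, hd2, hd3⟩ : ∃ d : ℝ, 0 < d ∧ d ≤ 1 / 8 ∧ 6 * d * L ≤ δ / 4 ∧ d ≤ δ / 16 := by
    refine ⟨min (min (1 / 8) (δ / (24 * L))) (δ / 16), by positivity, (min_le_left _ _).trans (min_le_left _ _), ?_,
      min_le_right _ _⟩
    have h1 : min (min (1 / 8) (δ / (24 * L))) (δ / 16) ≤ δ / (24 * L) :=
      (min_le_left _ _).trans (min_le_right _ _)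
    have h2 : 6 * min (min (1 / 8) (δ / (24 * L))) (δ / 16) * L ≤ 6 * (δ / (24 * L)) * L := by
      apply mul_le_mul_of_nonneg_right _ hL0.le
      linarith
    refine h2.trans (le_of_eq ?_)
    field_simp
    norm_num
  obtain ⟨δ1, hδ10, hδ11, hδ12⟩ : ∃ δ1 : ℝ, 0 < δ1 ∧ δ1 ≤ 1 / 2 ∧ L * δ1 ≤ δ / 4 := by
    refine ⟨min (1 / 2) (δ / (4 * L)), by positivity, min_le_left _ _, ?_⟩
    have h1 : L * min (1 / 2) (δ / (4 * L)) ≤ L * (δ / (4 * L)) :=
      mul_le_mul_of_nonneg_left (min_le_right _ _) hL0.le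
    refine h1.trans (le_of_eq ?_)
    field_simp
  obtain ⟨yB, hyB2, hyB⟩ := hB d hd0
  obtain ⟨yL, hyL⟩ := eventually_atTop.1 ((Metric.tendsto_nhds.1 hL) (d * L) (by positivity))
  refine ⟨yB + yL + 2, fun y hy q hq1 hq => ?_⟩
  obtain ⟨η, hη0, hη1, hη2⟩ : ∃ η : ℝ, 0 < η ∧ η * (4 * L * A) ≤ δ / 4 ∧ η ≤ δ / (8 * q) := by
    have hqr : (0 : ℝ) < q := by exact_mod_cast hq1
    refine ⟨min (δ / (16 * L * A)) (δ / (8 * q)), by positivity, ?_, min_le_right _ _⟩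
    have h1 : min (δ / (16 * L * A)) (δ / (8 * q)) * (4 * L * A) ≤ (δ / (16 * L * A)) * (4 * L * A) :=
      mul_le_mul_of_nonneg_right (min_le_left _ _) (by positivity)
    refine h1.trans (le_of_eq ?_)
    field_simp
    norm_num
  obtain ⟨ε0, hε00, hε01, hε02⟩ : ∃ ε0 : ℝ, 0 < ε0 ∧ ε0 ≤ 1 / 6 ∧ ε0 ≤ ε :=
    ⟨min ε (1 / 6), lt_min hε (by norm_num), min_le_right _ _, min_le_left _ _⟩
  obtain ⟨yI, hyI⟩ := hS ε0 η hε00 hε01 hη0
  obtain ⟨z, hz⟩ : ∃ z : ℕ, z = max y yI := ⟨_, rfl⟩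
  obtain ⟨xI, hxI⟩ := hyI z (by rw [hz]; exact le_max_right _ _)
  obtain ⟨N2, hN2⟩ := pnt_unif hκ hδ10 (4 / δ * (1 + 2 * L) * 2)
  -- the size of `C`
  have hqr : (0 : ℝ) < q := by exact_mod_cast hq1
  have hev1 : ∀ᶠ N : ℕ in atTop, ((z : ℝ) ^ 3 + 1) * q + (q * (8 / δ) + 1) ≤ (N : ℝ) ^ (5 / 6 + ε) :=
    ((tendsto_rpow_atTop (by positivity)).comp
      (tendsto_natCast_atTop_atTop (R := ℝ))).eventually_ge_atTop _
  obtain ⟨N1, hN1⟩ := eventually_atTop.1 hev1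
  refine ⟨N1 + N2 + xI + 3, fun N hN C hC1 hC2 => ?_⟩
  have b1 := hN1 N (by omega)
  have hNr : (3 : ℝ) ≤ N := by exact_mod_cast (by omega : 3 ≤ N)
  have hCr : ((z : ℝ) ^ 3 + 1) * q + (q * (8 / δ) + 1) ≤ C := b1.trans hC1
  have hC0 : (0 : ℝ) < C := lt_of_lt_of_le (by positivity) hCr
  obtain ⟨Ex, hExs, hExc, hEx⟩ := hxI N (by omega) C
    ((Real.rpow_le_rpow_of_exponent_le (by linarith) (by linarith)).trans hC1) hC2
  have hy2 : 2 ≤ y := by omega
  have hyz : y ≤ z := by rw [hz]; exact le_max_left _ _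
  have hM : z ^ 3 ≤ C / q + 1 := by
    have h1 : z ^ 3 * q ≤ C := by
      have h2 : ((z : ℝ) ^ 3) * q ≤ C := by
        have h3 : 0 ≤ q * (8 / δ) + 1 := by positivity
        nlinarith
      exact_mod_cast h2
    have h2 : z ^ 3 ≤ C / q := (Nat.le_div_iff_mul_le (by omega)).2 h1
    omega
  have hB1 := tail_sign (fun M hM κ' b hκ' => hyB y (by omega) z hyz M hM κ' b hκ') hσ hq1 hM c₀
  rw [PR_eq hq] at hB1
  obtain ⟨B, hBd⟩ : ∃ B : Finset ℕ, B = (Icc 1 C).filter (fun c : ℕ => σ * c ≡ c₀ [ZMOD q] ∧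
      d < |∏ p ∈ PR 4 y z, loc (9 - 4 * (σ * c)) p - 1|) := ⟨_, rfl⟩
  rw [← hBd] at hB1
  -- the bad members
  obtain ⟨S, hSd⟩ : ∃ S : Finset ℕ, S = (Icc 1 C).filter (fun c : ℕ => σ * c ≡ c₀ [ZMOD q] ∧
    ¬ ∀ n : ℕ, κ * N ≤ n → n ≤ N → |(cz (σ * c) n : ℝ) - L * Nat.primeCounting n| ≤ δ * Nat.primeCounting n) :=
    ⟨_, rfl⟩
  have hsub : S ⊆ Ex ∪ B := by
    intro c hc
    rw [hSd, mem_filter] at hc
    obtain ⟨hcI, hcm, hbad⟩ := hc
    by_contra hno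
    rw [mem_union, not_or] at hno
    obtain ⟨hcE, hcB⟩ := hno
    apply hbad
    intro n hn1 hn2
    have hodd : Odd c := by
      have h2q : (2 : ℤ) ∣ q := by exact_mod_cast (hq 2 Nat.prime_two).2 hy2
      have h3 : σ * c ≡ c₀ [ZMOD 2] := hcm.of_dvd h2q
      obtain ⟨j, hj⟩ := hc₀
      have h5 : (σ * c) % 2 = c₀ % 2 := h3
      rw [Nat.odd_iff]
      rcases hσ with rfl | rfl <;> omega
    have hPC := hEx c hcI hcE hodd n hn2
    rw [Pool.Agent.N511.LL.I0aux.T_split _ hy2 hyz, T_congr hq hcm] at hPC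
    obtain ⟨hK, hπ0, hpn⟩ := hN2 N (by omega) n hn1 hn2
    have hlog : 0 < Real.log (N : ℝ) := Real.log_pos (by linarith)
    have hP : |∏ p ∈ PR 4 y z, loc (9 - 4 * (σ * c)) p - 1| ≤ d := by
      by_contra h1
      push Not at h1
      apply hcB
      rw [hBd, mem_filter]
      exact ⟨hcI, hcm, h1⟩
    have ht : |T (9 - 4 * c₀) y - L| ≤ d * L := by
      have h1 := hyL y (by omega)
      rw [Real.dist_eq] at h1
      exact h1.le
    refine real_core (A := A) (v := (n : ℝ) / Real.log (N : ℝ)) (E := 2 * √(N : ℝ))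
      (X := (N : ℝ) / Real.log (N : ℝ)) hL0 hδ hA0 hd0 hd1 hη0 hδ11 hπ0 hpn ?_ ?_ ?_ ht hP ?_ ?_ hPC
      hη1 hd2 hδ12
    · rw [← mul_div_assoc]
      apply div_le_div_of_nonneg_right _ hlog.le
      have h1 : (N : ℝ) ≤ n / κ := by
        rw [le_div_iff₀ hκ]
        linarith
      have h2 : A * (n : ℝ) = n / κ := by
        rw [hA]
        field_simp
      rw [h2]
      exact h1
    · positivity
    · positivity
    · positivity
    · refine le_trans (le_of_eq ?_) hK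
      ring
  have hcard : (#S : ℝ) ≤ η * C + d * ((C / q + 1 : ℕ) : ℝ) := by
    have h2 := (card_le_card hsub).trans (card_union_le _ _)
    have h7 : (#S : ℝ) ≤ #Ex + #B := by exact_mod_cast h2
    linarith
  rw [← hSd]
  refine hcard.trans ?_
  have h1 : ((C / q + 1 : ℕ) : ℝ) ≤ C / q + 1 := by
    push_cast
    have := @Nat.cast_div_le ℝ _ _ _ C q
    linarith
  obtain ⟨w, hw⟩ : ∃ w : ℝ, w = (C : ℝ) / q := ⟨_, rfl⟩
  have hw1 : 8 / δ ≤ w := by
    rw [hw, le_div_iff₀ hqr]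
    have h3 : 0 ≤ ((z : ℝ) ^ 3 + 1) * q := by positivity
    linarith
  have hw2 : 8 ≤ δ * w := by
    rw [div_le_iff₀ hδ] at hw1
    linarith
  have hw3 : η * C ≤ δ / 8 * w := by
    have h3 : η * C ≤ δ / (8 * q) * C := mul_le_mul_of_nonneg_right hη2 hC0.le
    refine h3.trans (le_of_eq ?_)
    rw [hw]
    field_simp
  rw [← hw] at h1 ⊢
  have hd4 : d * ((C / q + 1 : ℕ) : ℝ) ≤ d * (w + 1) := mul_le_mul_of_nonneg_left h1 hd0.le
  have hw0 : 0 < w := by rw [hw]; positivity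
  have hd5 : d * w ≤ δ / 16 * w := mul_le_mul_of_nonneg_right hd3 hw0.le
  nlinarith

end Pool.Agent.N511.PN
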