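import Pool.Agent.N511.PN.LOC2

/-!
# Project PN: the uniform form of the local theorem
-/

set_option autoImplicit false

namespace Pool.Agent.N511.PN

open Finset Filter Topology
open Pool.Agent.N511.LL (T PP PR loc B2)

open L2

open Classical in
/-- the uniform form: the number `L` is arbitrary, near the truncated product -/
theorem loc_gen (hB : B2) {σ : ℤ} (hσ : σ = 1 ∨ σ = -1) (hS : HS σ) {L : ℝ}
    (hL0 : 0 < L) {ε κ δ : ℝ} (hε : 0 < ε) (hκ : 0 < κ)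
    (hδ : 0 < δ) : ∃ d : ℝ, 0 < d ∧ ∃ y0 : ℕ, 2 ≤ y0 ∧ ∀ y : ℕ, y0 ≤ y → ∀ q : ℕ, 1 ≤ q →
    (∀ p : ℕ, p.Prime → (p ∣ q ↔ p ≤ y)) → ∀ c₀ : ℤ, Odd c₀ → |T (9 - 4 * c₀) y - L| ≤ d * L →
    ∃ N0 : ℕ, ∀ N : ℕ, N0 ≤ N → ∀ C : ℕ,
    (N : ℝ) ^ (5 / 6 + ε) ≤ C → C ≤ N →
      (#((Icc 1 C).filter (fun c : ℕ => σ * c ≡ c₀ [ZMOD q] ∧ ¬ ∀ n : ℕ, κ * N ≤ n → n ≤ N →
        |(cz (σ * c) n : ℝ) - L * Nat.primeCounting n| ≤ δ * Nat.primeCounting n)) : ℝ) ≤ δ / 2 * (C / q) := by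
  classical
  -- the parameters
  obtain ⟨A, hA⟩ : ∃ A : ℝ, A = 1 / κ := ⟨_, rfl⟩
  have hA0 : 0 < A := by rw [hA]; positivity
  obtain ⟨d, hd0, hd1, hd2, hd3⟩ : ∃ d : ℝ, 0 < d ∧ d ≤ 1 / 8 ∧ 6 * d * L ≤ δ / 4 ∧ d ≤ δ / 16 := by
    refine ⟨min (min (1 / 8) (δ / (24 * L))) (δ / 16), by positivity, (min_le_left _ _).trans (min_le_left _ _), ?_,
      min_le_right _ _⟩
    have h1 : min (min (1 / 8) (δ / (24 * L))) (δ / 16) ≤ δ / (24 * L) :=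
      (min_le_left _ _).trans (min_le_right _ _)
    have h2 : 6 * min (min (1 / 8) (δ / (24 * L))) (δ / 16) * L ≤ 6 * (δ / (24 * L)) * L := by
      apply mul_le_mul_of_nonneg_right _ hL0.le
      linarith
    refine h2.trans (le_of_eq ?_)
    field_simp
    norm_num
  obtain ⟨δ1, hδ10, hδ11, hδ12⟩ : ∃ δ1 : ℝ, 0 < δ1 ∧ δ1 ≤ 1 / 2 ∧ L * δ1 ≤ δ / 4 := by
    refine ⟨min (1 / 2) (δ / (4 * L)), by positivity, min_le_left _ _, ?_⟩
    have h1 : L * min (1 / 2) (δ / (4 * L)) ≤ L * (δ / (4 * L)) :=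
      mul_le_mul_of_nonneg_left (min_le_right _ _) hL0.le
    refine h1.trans (le_of_eq ?_)
    field_simp
  obtain ⟨yB, hyB2, hyB⟩ := hB d hd0
  refine ⟨d, hd0, yB + 2, by omega, fun y hy q hq1 hq c₀ hc₀ ht => ?_⟩
  obtain ⟨η, hη0, hη1, hη2⟩ : ∃ η : ℝ, 0 < η ∧ η * (4 * L * A) ≤ δ / 4 ∧ η ≤ δ / (8 * q) := by
    have hqr : (0 : ℝ) < q := by exact_mod_cast hq1
    refine ⟨min (δ / (16 * L * A)) (δ / (8 * q)), by positivity, ?_, min_le_right _ _⟩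
    have h1 : min (δ / (16 * L * A)) (δ / (8 * q)) * (4 * L * A) ≤ (δ / (16 * L * A)) * (4 * L * A) :=
      mul_le_mul_of_nonneg_right (min_le_left _ _) (by positivity)
    refine h1.trans (le_of_eq ?_)
    field_simp
    norm_num
  obtain ⟨ε0, hε00, hε01, hε02⟩ : ∃ ε0 : ℝ, 0 < ε0 ∧ ε0 ≤ 1 / 6 ∧ ε0 ≤ ε :=
    ⟨min ε (1 / 6), lt_min hε (by norm_num), min_le_right _ _, min_le_left _ _⟩
  obtain ⟨yI, hyI⟩ := hS ε0 η hε00 hε01 hη0
  obtain ⟨z, hz⟩ : ∃ z : ℕ, z = max y yI := ⟨_, rfl⟩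
  obtain ⟨xI, hxI⟩ := hyI z (by rw [hz]; exact le_max_right _ _)
  obtain ⟨N2, hN2⟩ := pnt_unif hκ hδ10 (4 / δ * (1 + 2 * L) * 2)
  -- the size of `C`
  have hqr : (0 : ℝ) < q := by exact_mod_cast hq1
  have hev1 : ∀ᶠ N : ℕ in atTop, ((z : ℝ) ^ 3 + 1) * q + (q * (8 / δ) + 1) ≤ (N : ℝ) ^ (5 / 6 + ε) :=
    ((tendsto_rpow_atTop (by positivity)).comp
      (tendsto_natCast_atTop_atTop (R := ℝ))).eventually_ge_atTop _
  obtain ⟨N1, hN1⟩ := eventually_atTop.1 hev1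
  refine ⟨N1 + N2 + xI + 3, fun N hN C hC1 hC2 => ?_⟩
  have b1 := hN1 N (by omega)
  have hNr : (3 : ℝ) ≤ N := by exact_mod_cast (by omega : 3 ≤ N)
  have hCr : ((z : ℝ) ^ 3 + 1) * q + (q * (8 / δ) + 1) ≤ C := b1.trans hC1
  have hC0 : (0 : ℝ) < C := lt_of_lt_of_le (by positivity) hCr
  obtain ⟨Ex, hExs, hExc, hEx⟩ := hxI N (by omega) C
    ((Real.rpow_le_rpow_of_exponent_le (by linarith) (by linarith)).trans hC1) hC2
  have hy2 : 2 ≤ y := by omega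
  have hyz : y ≤ z := by rw [hz]; exact le_max_left _ _
  have hM : z ^ 3 ≤ C / q + 1 := by
    have h1 : z ^ 3 * q ≤ C := by
      have h2 : ((z : ℝ) ^ 3) * q ≤ C := by
        have h3 : 0 ≤ q * (8 / δ) + 1 := by positivity
        nlinarith
      exact_mod_cast h2
    have h2 : z ^ 3 ≤ C / q := (Nat.le_div_iff_mul_le (by omega)).2 h1
    omega
  have hB1 := tail_sign (fun M hM κ' b hκ' => hyB y (by omega) z hyz M hM κ' b hκ') hσ hq1 hM c₀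
  rw [PR_eq hq] at hB1
  obtain ⟨B, hBd⟩ : ∃ B : Finset ℕ, B = (Icc 1 C).filter (fun c : ℕ => σ * c ≡ c₀ [ZMOD q] ∧
      d < |∏ p ∈ PR 4 y z, loc (9 - 4 * (σ * c)) p - 1|) := ⟨_, rfl⟩
  rw [← hBd] at hB1
  -- the bad members
  obtain ⟨S, hSd⟩ : ∃ S : Finset ℕ, S = (Icc 1 C).filter (fun c : ℕ => σ * c ≡ c₀ [ZMOD q] ∧
    ¬ ∀ n : ℕ, κ * N ≤ n → n ≤ N → |(cz (σ * c) n : ℝ) - L * Nat.primeCounting n| ≤ δ * Nat.primeCounting n) :=
    ⟨_, rfl⟩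
  have hsub : S ⊆ Ex ∪ B := by
    intro c hc
    rw [hSd, mem_filter] at hc
    obtain ⟨hcI, hcm, hbad⟩ := hc
    by_contra hno
    rw [mem_union, not_or] at hno
    obtain ⟨hcE, hcB⟩ := hno
    apply hbad
    intro n hn1 hn2
    have hodd : Odd c := by
      have h2q : (2 : ℤ) ∣ q := by exact_mod_cast (hq 2 Nat.prime_two).2 hy2
      have h3 : σ * c ≡ c₀ [ZMOD 2] := hcm.of_dvd h2q
      obtain ⟨j, hj⟩ := hc₀
      have h5 : (σ * c) % 2 = c₀ % 2 := h3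
      rw [Nat.odd_iff]
      rcases hσ with rfl | rfl <;> omega
    have hPC := hEx c hcI hcE hodd n hn2
    rw [Pool.Agent.N511.LL.I0aux.T_split _ hy2 hyz, T_congr hq hcm] at hPC
    obtain ⟨hK, hπ0, hpn⟩ := hN2 N (by omega) n hn1 hn2
    have hlog : 0 < Real.log (N : ℝ) := Real.log_pos (by linarith)
    have hP : |∏ p ∈ PR 4 y z, loc (9 - 4 * (σ * c)) p - 1| ≤ d := by
      by_contra h1
      push Not at h1
      apply hcB
      rw [hBd, mem_filter]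
      exact ⟨hcI, hcm, h1⟩
    refine real_core (A := A) (v := (n : ℝ) / Real.log (N : ℝ)) (E := 2 * √(N : ℝ))
      (X := (N : ℝ) / Real.log (N : ℝ)) hL0 hδ hA0 hd0 hd1 hη0 hδ11 hπ0 hpn ?_ ?_ ?_ ht hP ?_ ?_ hPC
      hη1 hd2 hδ12
    · rw [← mul_div_assoc]
      apply div_le_div_of_nonneg_right _ hlog.le
      have h1 : (N : ℝ) ≤ n / κ := by
        rw [le_div_iff₀ hκ]
        linarith
      have h2 : A * (n : ℝ) = n / κ := by
        rw [hA]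
        field_simp
      rw [h2]
      exact h1
    · positivity
    · positivity
    · positivity
    · refine le_trans (le_of_eq ?_) hK
      ring
  have hcard : (#S : ℝ) ≤ η * C + d * ((C / q + 1 : ℕ) : ℝ) := by
    have h2 := (card_le_card hsub).trans (card_union_le _ _)
    have h7 : (#S : ℝ) ≤ #Ex + #B := by exact_mod_cast h2
    linarith
  rw [← hSd]
  refine hcard.trans ?_
  have h1 : ((C / q + 1 : ℕ) : ℝ) ≤ C / q + 1 := by
    push_cast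
    have := @Nat.cast_div_le ℝ _ _ _ C q
    linarith
  obtain ⟨w, hw⟩ : ∃ w : ℝ, w = (C : ℝ) / q := ⟨_, rfl⟩
  have hw1 : 8 / δ ≤ w := by
    rw [hw, le_div_iff₀ hqr]
    have h3 : 0 ≤ ((z : ℝ) ^ 3 + 1) * q := by positivity
    linarith
  have hw2 : 8 ≤ δ * w := by
    rw [div_le_iff₀ hδ] at hw1
    linarith
  have hw3 : η * C ≤ δ / 8 * w := by
    have h3 : η * C ≤ δ / (8 * q) * C := mul_le_mul_of_nonneg_right hη2 hC0.le
    refine h3.trans (le_of_eq ?_)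
    rw [hw]
    field_simp
  rw [← hw] at h1 ⊢
  have hd4 : d * ((C / q + 1 : ℕ) : ℝ) ≤ d * (w + 1) := mul_le_mul_of_nonneg_left h1 hd0.le
  have hw0 : 0 < w := by rw [hw]; positivity
  have hd5 : d * w ≤ δ / 16 * w := mul_le_mul_of_nonneg_right hd3 hw0.le
  nlinarith

end Pool.Agent.N511.PN
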