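import Pool.Agent.N511.PN.I0U
import Pool.Agent.N511.LL.J0

/-!
# Project PN: the counts of `k² + 3k + c` for both signs of `c`
-/

set_option autoImplicit false

namespace Pool.Agent.N511.PN

open Finset Filter Topology
open Pool.Agent.N511.LL (T PP PR loc B2)
open Pool.Agent.N792 (Admissible eps gcdProd partialC fv)
open Pool.Agent.N791.U (Unif X8U LIU)

/-- the number of `1 ≤ k ≤ n` for which `k² + 3k + c` is a (positive) prime -/
def cz (c : ℤ) (n : ℕ) : ℕ := #((Icc 1 n).filter (fun k : ℕ => ((k : ℤ) ^ 2 + 3 * k + c).toNat.Prime))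

/-- the counts in terms of the truncated products, for almost all `σ c`, `c ≤ C` -/
def HS (σ : ℤ) : Prop := ∀ ε0 η : ℝ, 0 < ε0 → ε0 ≤ 1 / 6 → 0 < η → ∃ y0 : ℕ, ∀ y : ℕ, y0 ≤ y → ∃ x0 : ℕ,
  ∀ x : ℕ, x0 ≤ x → ∀ C : ℕ, (x : ℝ) ^ (5 / 6 + ε0) ≤ C → C ≤ x → ∃ Ex ⊆ Icc 1 C, (#Ex : ℝ) ≤ η * C ∧
    ∀ c ∈ Icc 1 C, c ∉ Ex → Odd c → ∀ v : ℕ, v ≤ x →
      |(cz (σ * c) v : ℝ) - T (9 - 4 * (σ * c)) y * (v / Real.log x)| ≤
        η * (T (9 - 4 * (σ * c)) y * (x / Real.log x)) +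
          2 * √x * (1 + T (9 - 4 * (σ * c)) y)

namespace Negaux

theorem adm3 {c : ℤ} (h : Odd c) : Admissible 1 3 c := by
  refine ⟨one_pos, fun d hd _ _ => isUnit_of_dvd_one hd, ?_, ?_⟩
  · rintro ⟨-, h2⟩
    obtain ⟨k, hk⟩ := h
    omega
  · rintro ⟨r, hr⟩
    obtain ⟨k, hk⟩ := h
    subst hk
    have h1 : r * r = 8 * (-k) + 5 := by linarith
    have h2 : (r * r) % 8 = 5 := by omega
    have h3 : r % 8 = 0 ∨ r % 8 = 1 ∨ r % 8 = 2 ∨ r % 8 = 3 ∨ r % 8 = 4 ∨ r % 8 = 5 ∨ r % 8 = 6 ∨ r % 8 = 7 := by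
      omega
    rcases h3 with h | h | h | h | h | h | h | h <;> simp [Int.mul_emod, h] at h2

theorem eps3 : eps 1 3 = 2 := by
  unfold eps
  norm_num

theorem cz_eq (c : ℤ) (v : ℕ) : cz c v = #((Ioc 0 v).filter (fun m : ℕ => (fv 1 3 c m).toNat.Prime)) := by
  unfold cz
  congr 1
  ext m
  rw [mem_filter, mem_filter, mem_Icc, mem_Ioc]
  have e : fv 1 3 c m = (m : ℤ) ^ 2 + 3 * m + c := by
    unfold fv
    ring
  rw [e]
  constructor
  · rintro ⟨⟨h1, h2⟩, h3⟩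
    exact ⟨⟨by omega, h2⟩, h3⟩
  · rintro ⟨⟨h1, h2⟩, h3⟩
    exact ⟨⟨by omega, h2⟩, h3⟩

/-- the shift by `k` -/
theorem cz_shift (c : ℤ) (k w : ℕ) :
    |(cz c (w + k) : ℝ) - (#((Ioc 0 w).filter (fun m : ℕ =>
      (fv 1 (3 + 2 * 1 * (k : ℤ)) (c + 3 * k + 1 * (k : ℤ) ^ 2) m).toNat.Prime)) : ℝ)| ≤ k := by
  classical
  have h1 : (Icc 1 (w + k)).filter (fun m : ℕ => ((m : ℤ) ^ 2 + 3 * m + c).toNat.Prime) ⊆
      Icc 1 k ∪ ((Ioc 0 w).filter (fun m : ℕ =>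
        (fv 1 (3 + 2 * 1 * (k : ℤ)) (c + 3 * k + 1 * (k : ℤ) ^ 2) m).toNat.Prime)).image (· + k) := by
    intro m hm
    rw [mem_filter, mem_Icc] at hm
    rw [mem_union, mem_Icc, mem_image]
    by_cases h : m ≤ k
    · exact Or.inl ⟨hm.1.1, h⟩
    · right
      obtain ⟨j, rfl⟩ : ∃ j, m = j + k := ⟨m - k, by omega⟩
      refine ⟨j, ?_, rfl⟩
      rw [mem_filter, mem_Ioc]
      refine ⟨⟨by omega, by omega⟩, ?_⟩
      have e : fv 1 (3 + 2 * 1 * (k : ℤ)) (c + 3 * k + 1 * (k : ℤ) ^ 2) j =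
          ((j + k : ℕ) : ℤ) ^ 2 + 3 * ((j + k : ℕ) : ℤ) + c := by
        unfold fv
        push_cast
        ring
      rw [e]
      exact hm.2
  have h2 : ((Ioc 0 w).filter (fun m : ℕ =>
        (fv 1 (3 + 2 * 1 * (k : ℤ)) (c + 3 * k + 1 * (k : ℤ) ^ 2) m).toNat.Prime)).image (· + k) ⊆
      (Icc 1 (w + k)).filter (fun m : ℕ => ((m : ℤ) ^ 2 + 3 * m + c).toNat.Prime) := by
    intro m hm
    rw [mem_image] at hm
    obtain ⟨j, hj, rfl⟩ := hm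
    rw [mem_filter, mem_Ioc] at hj
    rw [mem_filter, mem_Icc]
    refine ⟨⟨by omega, by omega⟩, ?_⟩
    have e : fv 1 (3 + 2 * 1 * (k : ℤ)) (c + 3 * k + 1 * (k : ℤ) ^ 2) j =
        ((j + k : ℕ) : ℤ) ^ 2 + 3 * ((j + k : ℕ) : ℤ) + c := by
      unfold fv
      push_cast
      ring
    rw [← e]
    exact hj.2
  obtain ⟨A, hA⟩ : ∃ A : ℕ, A = #((Ioc 0 w).filter (fun m : ℕ =>
        (fv 1 (3 + 2 * 1 * (k : ℤ)) (c + 3 * k + 1 * (k : ℤ) ^ 2) m).toNat.Prime)) := ⟨_, rfl⟩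
  have h3 : #(((Ioc 0 w).filter (fun m : ℕ =>
        (fv 1 (3 + 2 * 1 * (k : ℤ)) (c + 3 * k + 1 * (k : ℤ) ^ 2) m).toNat.Prime)).image (· + k)) = A := by
    rw [card_image_of_injective _ (fun a b h => by simpa using h), hA]
  have h4 := (card_le_card h1).trans (card_union_le _ _)
  have h5 := card_le_card h2
  rw [h3] at h4 h5
  rw [Nat.card_Icc] at h4
  have h6 : cz c (w + k) ≤ k + A := by
    unfold cz
    omega
  have h7 : A ≤ cz c (w + k) := by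
    unfold cz
    exact h5
  rw [← hA]
  have h6' : (cz c (w + k) : ℝ) ≤ k + A := by exact_mod_cast h6
  have h7' : (A : ℝ) ≤ cz c (w + k) := by exact_mod_cast h7
  rw [abs_le]
  constructor <;> linarith

theorem cz_le (c : ℤ) (v : ℕ) : cz c v ≤ v := by
  unfold cz
  refine (card_filter_le _ _).trans ?_
  rw [Nat.card_Icc]
  omega

end Negaux

open Negaux

theorem hs_pos {Λ : ℝ} (hΛ : 1 ≤ Λ) (h : ∀ ε0 η : ℝ, 0 < ε0 → 0 < η → ∃ y0 : ℕ, ∀ y : ℕ, y0 ≤ y →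
    Unif Λ (5 / 6 + ε0) η (TF η y)) : HS 1 := by
  intro ε0 η hε0 hε1 hη
  obtain ⟨y0, hy0⟩ := h ε0 η hε0 hη
  refine ⟨y0, fun y hy => ?_⟩
  obtain ⟨x0, hx0⟩ := hy0 y hy
  refine ⟨x0 + 81, fun x hx C hC1 hC2 => ?_⟩
  have hx1 : (81 : ℝ) ≤ x := by exact_mod_cast (by omega : 81 ≤ x)
  have hC9 : (9 : ℝ) ≤ C := by
    refine le_trans ?_ hC1
    calc (9 : ℝ) = (81 : ℝ) ^ (1 / 2 : ℝ) := by
          rw [show (81 : ℝ) = 9 ^ 2 by norm_num, ← Real.sqrt_eq_rpow, Real.sqrt_sq (by norm_num)]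
      _ ≤ (x : ℝ) ^ (1 / 2 : ℝ) := Real.rpow_le_rpow (by norm_num) hx1 (by norm_num)
      _ ≤ (x : ℝ) ^ (5 / 6 + ε0) := Real.rpow_le_rpow_of_exponent_le (by linarith) (by linarith)
  obtain ⟨Ex, h1, h2, h3⟩ := hx0 x (by omega) 3 C (by push_cast; nlinarith) hC1 hC2
  refine ⟨Ex, h1, h2, fun c hc hcE ho v hv => ?_⟩
  have hoz : Odd (c : ℤ) := by exact_mod_cast ho
  have h4 := h3 c hc hcE (adm3 hoz) 0 v (Nat.zero_le _) hv
  rw [eps3, ← cz_eq, Nat.cast_zero, sub_zero] at h4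
  rw [one_mul]
  have e1 : (3 : ℤ) ^ 2 - 4 * c = 9 - 4 * c := by ring
  rw [e1] at h4
  have e2 : (2 : ℝ) * T (9 - 4 * (c : ℤ)) y * ((v : ℝ) / (2 * Real.log x)) =
      T (9 - 4 * (c : ℤ)) y * (v / Real.log x) := by
    have hl : 0 < Real.log x := Real.log_pos (by linarith)
    field_simp
  rw [e2] at h4
  refine h4.trans ?_
  have hT := Pool.Agent.N511.LL.J0aux.T_pos (9 - 4 * (c : ℤ)) y
  have : 0 ≤ 2 * √(x : ℝ) * (1 + T (9 - 4 * (c : ℤ)) y) := by positivity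
  linarith

theorem hs_neg (h : ∀ ε0 η : ℝ, 0 < ε0 → 0 < η → ∃ y0 : ℕ, ∀ y : ℕ, y0 ≤ y →
    Unif 5 (5 / 6 + ε0) η (TF η y)) : HS (-1) := by
  intro ε0 η hε0 hε1 hη
  obtain ⟨y0, hy0⟩ := h ε0 (η / 6) hε0 (by linarith)
  refine ⟨y0, fun y hy => ?_⟩
  have hU : Unif (5 * ((1 : ℤ) : ℝ)) (5 / 6 + ε0) ((η / 2) / (3 * ((1 : ℤ) : ℝ))) (TF (η / 6) y) := by
    have := hy0 y hy
    have e1 : (5 * ((1 : ℤ) : ℝ)) = 5 := by norm_num
    have e2 : (η / 2) / (3 * ((1 : ℤ) : ℝ)) = η / 6 := by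
      push_cast
      ring
    rw [e1, e2]
    exact this
  obtain ⟨x0, hx0⟩ := Pool.Agent.N791.U.neg_transfer 1 one_pos 3 (5 / 6 + ε0) (η / 2) (by linarith) (by linarith)
    (TF (η / 6) y) hU
  have hev : ∀ᶠ x : ℕ in atTop, 4 / η + 4 ≤ Real.log (x : ℝ) :=
    (Real.tendsto_log_atTop.comp (tendsto_natCast_atTop_atTop (R := ℝ))).eventually_ge_atTop _
  obtain ⟨x1, hx1⟩ := eventually_atTop.1 hev
  refine ⟨x0 + x1 + 3, fun x hx C hC1 hC2 => ?_⟩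
  have b1 := hx1 x (by omega)
  obtain ⟨Ex, k1, k2, k3⟩ := hx0 x (by omega) C hC1 hC2
  have hC0 : (0 : ℝ) ≤ C := Nat.cast_nonneg _
  refine ⟨Ex, k1, k2.trans (mul_le_mul_of_nonneg_right (by linarith) hC0), fun c hc hcE ho v hv => ?_⟩
  obtain ⟨k, hk1, hk2, hQ⟩ := k3 c hc hcE
  have hoz : Odd (-(c : ℤ)) := by
    have : Odd (c : ℤ) := by exact_mod_cast ho
    exact this.neg
  have hadm : Admissible 1 (3 + 2 * 1 * (k : ℤ)) (-(c : ℤ) + 3 * k + 1 * (k : ℤ) ^ 2) := by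
    obtain ⟨a1, a2, a3, a4⟩ := adm3 hoz
    refine ⟨a1, fun d hd _ _ => isUnit_of_dvd_one hd, ?_, ?_⟩
    · rintro ⟨-, h2⟩
      obtain ⟨j, hj⟩ := hoz
      rw [hj] at h2
      have h5 : Even ((k : ℤ) * (k + 1)) := Int.even_mul_succ_self _
      obtain ⟨i, hi⟩ := h5
      have h6 : (k : ℤ) ^ 2 = i + i - k := by linarith
      rw [h6] at h2
      omega
    · have e : (3 + 2 * 1 * (k : ℤ)) ^ 2 - 4 * 1 * (-(c : ℤ) + 3 * k + 1 * (k : ℤ) ^ 2) = 3 ^ 2 - 4 * 1 * -(c : ℤ) := by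
        ring
      rw [e]
      exact a4
  have hQ' := hQ hadm
  obtain ⟨D, hD⟩ : ∃ D : ℤ, D = 9 - 4 * (-1 * (c : ℤ)) := ⟨_, rfl⟩
  have e1 : (3 + 2 * 1 * (k : ℤ)) ^ 2 - 4 * (-(c : ℤ) + 3 * k + 1 * (k : ℤ) ^ 2) = D := by
    rw [hD]
    ring
  have e2 : eps 1 (3 + 2 * 1 * (k : ℤ)) = 2 := by
    unfold eps
    have : (2 : ℤ) ∣ 1 + (3 + 2 * 1 * (k : ℤ)) := ⟨2 + k, by ring⟩
    rw [if_pos this]
  have e3 : 3 * (1 : ℤ).toNat * x = 3 * x := by norm_num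
  rw [e1, e2, e3] at hQ'
  rw [← hD]
  have hx3 : (3 : ℝ) ≤ x := by exact_mod_cast (by omega : 3 ≤ x)
  have hx0' : (0 : ℝ) < x := by linarith
  obtain ⟨L, hL⟩ : ∃ L : ℝ, L = Real.log x := ⟨_, rfl⟩
  obtain ⟨M, hM⟩ : ∃ M : ℝ, M = Real.log ((3 * x : ℕ) : ℝ) := ⟨_, rfl⟩
  have hMe : M = Real.log 3 + L := by
    rw [hM, hL]
    push_cast
    rw [Real.log_mul (by norm_num) hx0'.ne']
  have hl3a : 0 < Real.log 3 := Real.log_pos (by norm_num)
  have hl3b : Real.log 3 ≤ 2 := by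
    have h1 : Real.log 3 ≤ Real.log 4 := Real.log_le_log (by norm_num) (by norm_num)
    have h2 : Real.log 4 = 2 * Real.log 2 := by
      rw [show (4 : ℝ) = 2 ^ 2 by norm_num, Real.log_pow]
      norm_num
    have h3 := Real.log_two_lt_d9
    linarith
  have hinv : 0 < 4 / η := by positivity
  rw [← hL] at b1 ⊢
  rw [← hM] at hQ'
  have hL0 : 0 < L := by linarith
  have hLM : L ≤ M := by linarith
  have hM0 : 0 < M := by linarith
  have hT := Pool.Agent.N511.LL.J0aux.T_pos D y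
  obtain ⟨t, ht⟩ : ∃ t : ℝ, t = T D y := ⟨_, rfl⟩
  rw [← ht] at hQ' hT ⊢
  -- the size of `k`
  have hk : (k : ℝ) ≤ 2 * √(x : ℝ) := by
    have h1 : (k : ℝ) ^ 2 ≤ 4 * x := by
      have h2 : (k : ℝ) ^ 2 ≤ 3 * C := by exact_mod_cast hk1
      have h3 : (C : ℝ) ≤ x := by exact_mod_cast hC2
      linarith
    have h4 : (k : ℝ) ≤ √(4 * x) := Real.le_sqrt_of_sq_le h1
    rw [Real.sqrt_mul (by norm_num), show (4 : ℝ) = 2 ^ 2 by norm_num, Real.sqrt_sq (by norm_num)] at h4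
    exact h4
  have hvx : (v : ℝ) ≤ x := by exact_mod_cast hv
  have hk0 : (0 : ℝ) ≤ k := Nat.cast_nonneg _
  have hv0 : (0 : ℝ) ≤ v := Nat.cast_nonneg _
  have hLinv : 1 ≤ L := by linarith
  by_cases hvk : v ≤ k
  · have h1 : (cz (-1 * (c : ℤ)) v : ℝ) ≤ k := by exact_mod_cast (cz_le _ _).trans hvk
    have h2 : (0 : ℝ) ≤ cz (-1 * (c : ℤ)) v := Nat.cast_nonneg _
    have h3 : (v : ℝ) / L ≤ k := by
      rw [div_le_iff₀ hL0]
      have : (v : ℝ) ≤ k := by exact_mod_cast hvk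
      nlinarith
    have h4 : 0 ≤ t * ((v : ℝ) / L) := by positivity
    have h5 : t * ((v : ℝ) / L) ≤ t * k := mul_le_mul_of_nonneg_left h3 hT.le
    have h6 : 0 ≤ η * (t * ((x : ℝ) / L)) := by positivity
    have h7 : (k : ℝ) * (1 + t) ≤ 2 * √(x : ℝ) * (1 + t) := mul_le_mul_of_nonneg_right hk (by linarith)
    rw [abs_le]
    constructor <;> nlinarith
  · push Not at hvk
    obtain ⟨w, rfl⟩ : ∃ w, v = w + k := ⟨v - k, by omega⟩
    have h1 := cz_shift (-1 * (c : ℤ)) k w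
    have h2 := hQ' 0 w (Nat.zero_le _) (by omega)
    have e4 : (-1 * (c : ℤ)) + 3 * k + 1 * (k : ℤ) ^ 2 = -(c : ℤ) + 3 * k + 1 * (k : ℤ) ^ 2 := by ring
    rw [e4] at h1
    rw [Nat.cast_zero, sub_zero] at h2
    obtain ⟨A, hA⟩ : ∃ A : ℝ, A = (#((Ioc 0 w).filter (fun m : ℕ =>
      (fv 1 (3 + 2 * 1 * (k : ℤ)) (-(c : ℤ) + 3 * k + 1 * (k : ℤ) ^ 2) m).toNat.Prime)) : ℝ) := ⟨_, rfl⟩
    rw [← hA] at h1 h2
    have e5 : 2 * t * ((w : ℝ) / (2 * M)) = t * (w / M) := by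
      field_simp
    rw [e5] at h2
    push_cast at h2 hvx ⊢
    have hw0 : (0 : ℝ) ≤ w := Nat.cast_nonneg _
    -- the three errors
    have c1 : η / 6 * (t * (3 * (x : ℝ) / M)) ≤ η / 2 * (t * (x / L)) := by
      have h3 : (x : ℝ) / M ≤ x / L := div_le_div_of_nonneg_left hx0'.le hL0 hLM
      have h4 : η / 6 * (t * (3 * (x : ℝ) / M)) = η / 2 * (t * (x / M)) := by ring
      rw [h4]
      apply mul_le_mul_of_nonneg_left _ (by linarith)
      exact mul_le_mul_of_nonneg_left h3 hT.le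
    have c2 : |t * ((w : ℝ) / M) - t * (((w : ℝ) + k) / L)| ≤ η / 2 * (t * (x / L)) + t * k := by
      have h3 : (w : ℝ) / M ≤ ((w : ℝ) + k) / L := by
        calc (w : ℝ) / M ≤ w / L := div_le_div_of_nonneg_left hw0 hL0 hLM
          _ ≤ ((w : ℝ) + k) / L := div_le_div_of_nonneg_right (by linarith) hL0.le
      have h4 : ((w : ℝ) + k) / L - w / M ≤ η / 2 * (x / L) + k := by
        have h5 : ((w : ℝ) + k) / L - w / M = k / L + w * (M - L) / (L * M) := by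
          field_simp
          ring
        rw [h5]
        have h6 : (k : ℝ) / L ≤ k := by
          rw [div_le_iff₀ hL0]
          nlinarith
        have h7 : (w : ℝ) * (M - L) / (L * M) ≤ η / 2 * (x / L) := by
          have h8 : (M - L) ≤ η / 2 * M := by
            have h9 : M - L = Real.log 3 := by rw [hMe]; ring
            rw [h9]
            have h10 : 4 / η ≤ M := by linarith
            rw [div_le_iff₀ hη] at h10
            linarith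
          have h11 : (w : ℝ) * (M - L) / (L * M) ≤ x * (η / 2 * M) / (L * M) := by
            apply div_le_div_of_nonneg_right _ (by positivity)
            exact mul_le_mul (by linarith) h8 (by linarith) hx0'.le
          refine h11.trans (le_of_eq ?_)
          field_simp
        linarith
      have h5 : t * ((w : ℝ) / M) - t * (((w : ℝ) + k) / L) = -(t * (((w : ℝ) + k) / L - w / M)) := by ring
      rw [h5, abs_neg, abs_of_nonneg (mul_nonneg hT.le (by linarith))]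
      calc t * (((w : ℝ) + k) / L - w / M) ≤ t * (η / 2 * (x / L) + k) := mul_le_mul_of_nonneg_left h4 hT.le
        _ = η / 2 * (t * (x / L)) + t * k := by ring
    have c3 : (k : ℝ) * (1 + t) ≤ 2 * √(x : ℝ) * (1 + t) := mul_le_mul_of_nonneg_right hk (by linarith)
    have e6 : (cz (-1 * (c : ℤ)) (w + k) : ℝ) - t * (((w : ℝ) + k) / L) =
        ((cz (-1 * (c : ℤ)) (w + k) : ℝ) - A) + (A - t * (w / M)) + (t * ((w : ℝ) / M) - t * (((w : ℝ) + k) / L)) := by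
      ring
    rw [e6]
    have s1 := abs_add_le (((cz (-1 * (c : ℤ)) (w + k) : ℝ) - A) + (A - t * (w / M)))
      (t * ((w : ℝ) / M) - t * (((w : ℝ) + k) / L))
    have s2 := abs_add_le ((cz (-1 * (c : ℤ)) (w + k) : ℝ) - A) (A - t * (w / M))
    have e7 : η * (t * ((x : ℝ) / L)) = η / 2 * (t * (x / L)) + η / 2 * (t * (x / L)) := by ring
    rw [e7]
    linarith

end Pool.Agent.N511.PN
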